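import Mathlib

/-!
Waring's problem for almost all polynomials: diophantine conditions for almost all parameters.
-/

namespace Pool.Agent.Zk40.V

open MeasureTheory Filter Set

lemma null_comp (f f' : ℝ → ℝ) (a b : ℝ) (hf : ∀ x, HasDerivAt f (f' x) x) (hm' : Measurable f')
    (hne : ∀ x ∈ Icc a b, f' x ≠ 0) (S : Set ℝ) (hS : volume S = 0) : ∀ᵐ x, x ∈ Icc a b → f x ∉ S := by
  have hinj : InjOn f (Icc a b) := by
    have key : ∀ x ∈ Icc a b, ∀ y ∈ Icc a b, x < y → f x ≠ f y := by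
      intro x hx y hy hxy h
      obtain ⟨z, hz, hz0⟩ := exists_hasDerivAt_eq_zero hxy
        (fun w _ => (hf w).continuousAt.continuousWithinAt) h (fun w _ => hf w)
      exact hne z ⟨hx.1.trans hz.1.le, hz.2.le.trans hy.2⟩ hz0
    intro x hx y hy h
    rcases lt_trichotomy x y with h1 | h1 | h1
    · exact absurd h (key x hx y hy h1)
    · exact h1
    · exact absurd h.symm (key y hy x hx h1)
  have hfm : Measurable f := by
    have : Continuous f := continuous_iff_continuousAt.2 fun x => (hf x).continuousAt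
    exact this.measurable
  obtain ⟨T, hT⟩ : ∃ T : Set ℝ, T = toMeasurable volume S := ⟨_, rfl⟩
  have hTm : MeasurableSet T := by rw [hT]; exact measurableSet_toMeasurable _ _
  have hT0 : volume T = 0 := by rw [hT, measure_toMeasurable, hS]
  have hST : S ⊆ T := by rw [hT]; exact subset_toMeasurable _ _
  obtain ⟨g, hg⟩ : ∃ g : ℝ → ENNReal, g = T.indicator (fun _ => 1) := ⟨_, rfl⟩
  have hgm : Measurable g := by rw [hg]; exact measurable_const.indicator hTm
  have h1 := lintegral_image_eq_lintegral_abs_deriv_mul (s := Icc a b) (f := f) (f' := f') measurableSet_Icc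
    (fun x _ => (hf x).hasDerivWithinAt) hinj g
  have h2 : ∫⁻ x in f '' (Icc a b), g x = 0 := by
    apply le_antisymm _ bot_le
    calc ∫⁻ x in f '' (Icc a b), g x ≤ ∫⁻ x, g x := setLIntegral_le_lintegral _ _
      _ = 0 := by rw [hg, lintegral_indicator_const hTm, one_mul, hT0]
  rw [h2] at h1
  have hmeas : Measurable fun x => ENNReal.ofReal |f' x| * g (f x) :=
    (ENNReal.measurable_ofReal.comp (continuous_abs.measurable.comp hm')).mul (hgm.comp hfm)
  have h3 := (lintegral_eq_zero_iff hmeas).1 h1.symm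
  have h4 := (ae_restrict_iff' measurableSet_Icc).1 h3
  filter_upwards [h4] with x hx hxI hxS
  have h5 := hx hxI
  simp only [Pi.zero_apply, mul_eq_zero, ENNReal.ofReal_eq_zero] at h5
  rcases h5 with h5 | h5
  · have := hne x hxI
    have h6 : 0 < |f' x| := abs_pos.2 this
    linarith
  · rw [hg, indicator_of_mem (hST hxS)] at h5
    exact one_ne_zero h5

lemma local_int (f : ℝ → ℝ) (hf : Continuous f) (α : ℝ) (h : f α ≠ 0) :
    ∃ q₁ q₂ : ℚ, (q₁ : ℝ) < α ∧ α < q₂ ∧ (q₂ : ℝ) ≤ q₁ + 1 ∧ ∀ x ∈ Icc (q₁ : ℝ) q₂, f x ≠ 0 := by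
  have hopen : IsOpen {x | f x ≠ 0} := isOpen_ne_fun hf continuous_const
  obtain ⟨ε, hε, hb⟩ := Metric.isOpen_iff.1 hopen α h
  obtain ⟨r, hr⟩ : ∃ r : ℝ, r = min (ε / 2) (1 / 2) := ⟨_, rfl⟩
  have hr0 : 0 < r := by rw [hr]; exact lt_min (by linarith) (by norm_num)
  have hr1 : r ≤ ε / 2 := by rw [hr]; exact min_le_left _ _
  have hr2 : r ≤ 1 / 2 := by rw [hr]; exact min_le_right _ _
  obtain ⟨q₁, h1, h2⟩ := exists_rat_btwn (show α - r < α by linarith)
  obtain ⟨q₂, h3, h4⟩ := exists_rat_btwn (show α < α + r by linarith)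
  refine ⟨q₁, q₂, h2, h3, by linarith, ?_⟩
  intro x hx
  apply hb
  rw [Metric.mem_ball, Real.dist_eq, abs_lt]
  constructor <;> linarith [hx.1, hx.2]

lemma ae_ne (p : Polynomial ℝ) (hp : p ≠ 0) : ∀ᵐ α : ℝ, p.eval α ≠ 0 := by
  rw [ae_iff]
  apply Set.Finite.measure_zero
  have := Polynomial.finite_setOfPred_isRoot hp
  refine this.subset ?_
  intro x hx
  simpa using hx

/-- the image of almost every parameter under a polynomial is not in a null set -/
lemma ae_poly (p : Polynomial ℝ) (hp : p.derivative ≠ 0) (Q : ℝ → Prop) (hQ : ∀ᵐ x, Q x) : ∀ᵐ α : ℝ, Q (p.eval α) := by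
  have h1 : ∀ᵐ α : ℝ, ∀ q₁ q₂ : ℚ, (∀ x ∈ Icc (q₁ : ℝ) q₂, p.derivative.eval x ≠ 0) → α ∈ Icc (q₁ : ℝ) q₂ → Q (p.eval α) := by
    rw [ae_all_iff]
    intro q₁
    rw [ae_all_iff]
    intro q₂
    by_cases h : ∀ x ∈ Icc (q₁ : ℝ) q₂, p.derivative.eval x ≠ 0
    · filter_upwards [null_comp (fun x => p.eval x) (fun x => p.derivative.eval x) q₁ q₂ (fun x => p.hasDerivAt x)
        (Polynomial.continuous _).measurable h {x | ¬ Q x} (ae_iff.1 hQ)] with α hα _ hI
      have := hα hI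
      simpa using this
    · exact ae_of_all _ fun α h2 => absurd h2 h
  filter_upwards [h1, ae_ne _ hp] with α hα hα2
  obtain ⟨q₁, q₂, h3, h4, _, h5⟩ := local_int (fun x => p.derivative.eval x) (Polynomial.continuous _) α hα2
  exact hα q₁ q₂ h5 ⟨h3.le, h4.le⟩

/-- badly approximable up to the exponent three -/
def Dp (x : ℝ) : Prop := ∃ c₀ : ℝ, 0 < c₀ ∧ ∀ n : ℤ, n ≠ 0 → ∀ m : ℤ, c₀ ≤ |(n : ℝ) * x - m| * |(n : ℝ)| ^ 2

lemma ae_dp : ∀ᵐ x : ℝ, Dp x := by
  have h1 : ∀ᵐ x : ℝ, Irrational x := by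
    rw [ae_iff]
    have : {a : ℝ | ¬ Irrational a} = Set.range ((↑) : ℚ → ℝ) := by
      ext x; simp [Irrational]
    rw [this]
    exact (Set.countable_range _).measure_zero _
  filter_upwards [h1, ae_not_liouvilleWith] with x hx hx2
  have h2 := hx2 3 (by norm_num)
  unfold LiouvilleWith at h2
  push Not at h2
  obtain ⟨n₀, hn₀⟩ := eventually_atTop.1 (h2 1)
  obtain ⟨k, hk⟩ : ∃ k : ℕ, k = n₀ + 1 := ⟨_, rfl⟩
  have hk0 : (0 : ℝ) < k := by rw [hk]; positivity
  have hpos : ∀ n : ℕ, 1 ≤ n → ∀ m : ℤ, 1 / (k : ℝ) ^ 3 ≤ |(n : ℝ) * x - m| * (n : ℝ) ^ 2 := by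
    intro n hn m
    have hn0 : (0 : ℝ) < n := by exact_mod_cast hn
    have hne : x ≠ ((m * k : ℤ) : ℝ) / ((n * k : ℕ) : ℝ) := by
      intro h
      apply hx
      exact ⟨((m * k : ℤ) : ℚ) / ((n * k : ℕ) : ℚ), by rw [h]; push_cast; ring⟩
    have h3 := hn₀ (n * k) (by rw [hk]; nlinarith) (m * k) hne
    have e1 : x - ((m * k : ℤ) : ℝ) / ((n * k : ℕ) : ℝ) = ((n : ℝ) * x - m) / n := by
      push_cast; field_simp
    rw [e1, abs_div, abs_of_pos hn0] at h3
    push_cast at h3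
    have h4 : (((n : ℝ) * k) ^ (3 : ℝ)) = (n : ℝ) ^ 3 * (k : ℝ) ^ 3 := by
      rw [show (3 : ℝ) = ((3 : ℕ) : ℝ) by norm_num, Real.rpow_natCast, mul_pow]
    rw [h4, div_le_div_iff₀ (by positivity) hn0] at h3
    rw [div_le_iff₀ (by positivity)]
    have h5 : (1 * (n : ℝ)) ≤ (|(n : ℝ) * x - m| * (n : ℝ) ^ 2 * (k : ℝ) ^ 3) * n := by
      refine h3.trans (le_of_eq ?_)
      ring
    exact le_of_mul_le_mul_right h5 hn0
  refine ⟨1 / (k : ℝ) ^ 3, by positivity, ?_⟩
  intro n hn m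
  rcases le_total 0 n with h | h
  · obtain ⟨n', rfl⟩ := Int.eq_ofNat_of_zero_le h
    have := hpos n' (by
      rcases Nat.eq_zero_or_pos n' with h0 | h0
      · exact absurd (by rw [h0]; rfl) hn
      · exact h0) m
    simpa using this
  · obtain ⟨n', hn'⟩ := Int.eq_ofNat_of_zero_le (show 0 ≤ -n by omega)
    have hn'' : n = -(n' : ℤ) := by omega
    have := hpos n' (by
      rcases Nat.eq_zero_or_pos n' with h0 | h0
      · exact absurd (by rw [hn'', h0]; rfl) hn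
      · exact h0) (-m)
    rw [hn'']
    have e1 : |(((-(n' : ℤ)) : ℤ) : ℝ) * x - m| = |(n' : ℝ) * x - ((-m : ℤ) : ℝ)| := by
      rw [← abs_neg]; congr 1; push_cast; ring
    rw [e1]
    simpa using this

end Pool.Agent.Zk40.V
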