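import Pool.Agent.Zk40.V.En
import Pool.Agent.Zk40.V.Dio

/-!
Waring's problem for almost all polynomials: the energy for almost all parameters.
-/

namespace Pool.Agent.Zk40.V

open Finset MeasureTheory Filter
open Pool.Agent.Zk40.W (Qs Qs_one Qs_step Qs_step_low Qs_pow Qs_le family_meas markov ev_log ev_pow Y_pos)

/-- the energy -/
noncomputable def EnV (d : ℕ) (a : ℕ → ℝ) (K₀ : ℝ) (P u : ℕ) : ℝ :=
  ((((W.Y (Qs (kap d) P) u ×ˢ W.Y (Qs (kap d) P) u).filter
    (fun p => |SF (pv (d + 1) a) p.1 - SF (pv (d + 1) a) p.2| ≤ K₀)).card : ℕ) : ℝ)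

/-- almost all parameters in a short interval -/
theorem ae_local (d e : ℕ) (hde : e < d) (a b l₀ b₀ B : ℝ) (hab : a ≤ b) (hab1 : b ≤ a + 1) (hl₀ : 0 < l₀) (hb₀ : 0 < b₀)
    (hB : 0 < B) (c c' c'' : ℕ → ℝ → ℝ) (hF : FamI d e a b l₀ b₀ B c c' c'') (hcont : ∀ i, Continuous (c i))
    (u : ℕ) (hu : 1 ≤ u) (K₀ : ℝ) (hK₀ : 0 ≤ K₀) (hκu : 2 * ((d : ℝ) + 1) * kap d ^ u ≤ e + 1) (τ : ℝ) (hτ : 0 < τ) :
    ∀ᵐ α : ℝ, α ∈ Set.Icc a b → ∀ᶠ j : ℕ in atTop, EnV d (fun i => c i α) K₀ (2 ^ j) u ≤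
      ((W.Y (Qs (kap d) (2 ^ j)) u).card : ℝ) ^ 2 * ((2 ^ j : ℕ) : ℝ) ^ (-((d : ℝ) + 1) + τ) := by
  classical
  obtain ⟨C, hC, hE⟩ := energy d e hde a b l₀ b₀ B hab hab1 hl₀ hb₀ hB c c' c'' hF u hu K₀ hK₀ hκu
  have t2 : Tendsto (fun j : ℕ => 2 ^ j) atTop atTop := tendsto_pow_atTop_atTop_of_one_lt (r := 2) (by norm_num)
  have hev := (t2.eventually hE).and (ev_log (τ / 2) (by positivity))
  obtain ⟨j₀, hj₀⟩ := eventually_atTop.1 hev
  set I := Set.Icc a b with hI
  set s : ℕ → Set ℝ := fun j => {α | α ∈ I ∧ ((W.Y (Qs (kap d) (2 ^ j)) u).card : ℝ) ^ 2 *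
    ((2 ^ j : ℕ) : ℝ) ^ (-((d : ℝ) + 1) + τ) ≤ EnV d (fun i => c i α) K₀ (2 ^ j) u} with hs
  have hmeas : ∀ j ≥ j₀, volume (s j) ≤ ENNReal.ofReal (C * ((2 : ℝ) ^ (-(τ / 2))) ^ j) := by
    intro j hj
    obtain ⟨h1, e1⟩ := hj₀ j hj
    obtain ⟨P, hP⟩ : ∃ P : ℕ, P = 2 ^ j := ⟨_, rfl⟩
    have hP1 : 1 ≤ P := by rw [hP]; exact Nat.one_le_two_pow
    rw [← hP] at h1 e1
    have hPr : (1 : ℝ) ≤ P := by exact_mod_cast hP1
    have hP0 : (0 : ℝ) < P := by linarith
    have hYc := Y_pos (kap d) P u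
    set Yc := ((W.Y (Qs (kap d) P) u).card : ℝ) with hYcd
    have hl : 0 < Yc ^ 2 * (P : ℝ) ^ (-((d : ℝ) + 1) + τ) := by positivity
    have h2 := markov (W.Y (Qs (kap d) P) u ×ˢ W.Y (Qs (kap d) P) u)
      (fun p => {α | |SF (pv (d + 1) (fun i => c i α)) p.1 - SF (pv (d + 1) (fun i => c i α)) p.2| ≤ K₀}) I measurableSet_Icc
      (by rw [hI, Real.volume_Icc]; exact ENNReal.ofReal_ne_top)
      (by
        intro p _
        apply IsClosed.measurableSet
        have c0 : ∀ x : ℝ, Continuous fun α => pv (d + 1) (fun i => c i α) x := by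
          intro x
          unfold pv
          exact continuous_finsetSum _ fun i _ => (hcont i).mul continuous_const
        have c1 : ∀ y : Fin u → ℕ × ℕ, Continuous fun α => SF (pv (d + 1) (fun i => c i α)) y := by
          intro y
          unfold SF
          exact continuous_finsetSum _ fun i _ => (c0 _).add (c0 _)
        exact isClosed_le ((c1 _).sub (c1 _)).abs continuous_const)
      _ hl (fun α => EnV d (fun i => c i α) K₀ P u)
      (by
        intro α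
        unfold EnV
        rw [card_filter]
        push_cast
        apply sum_congr rfl
        intro p _
        by_cases h : |SF (pv (d + 1) (fun i => c i α)) p.1 - SF (pv (d + 1) (fun i => c i α)) p.2| ≤ K₀
        · rw [if_pos h, Set.indicator_of_mem (show α ∈ {α | |SF (pv (d + 1) (fun i => c i α)) p.1 -
            SF (pv (d + 1) (fun i => c i α)) p.2| ≤ K₀} from h)]
        · rw [if_neg h, Set.indicator_of_notMem (show α ∉ {α | |SF (pv (d + 1) (fun i => c i α)) p.1 -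
            SF (pv (d + 1) (fun i => c i α)) p.2| ≤ K₀} from h)])
    have hsj : s j = {α | α ∈ I ∧ Yc ^ 2 * (P : ℝ) ^ (-((d : ℝ) + 1) + τ) ≤ EnV d (fun i => c i α) K₀ P u} := by
      simp only [hs, hYcd, hP]
    rw [hsj]
    refine h2.trans (ENNReal.ofReal_le_ofReal ?_)
    rw [div_le_iff₀ hl]
    have h2j : ((2 : ℝ) ^ (-(τ / 2))) ^ j = (P : ℝ) ^ (-(τ / 2)) := by
      rw [hP]
      push_cast
      rw [← Real.rpow_natCast, ← Real.rpow_natCast, ← Real.rpow_mul (by norm_num), ← Real.rpow_mul (by norm_num)]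
      congr 1
      ring
    rw [h2j]
    have hPd : 0 < (P : ℝ) ^ (d + 1) := by positivity
    have h3 : (P : ℝ) ^ (-(τ / 2)) * (P : ℝ) ^ (-((d : ℝ) + 1) + τ) * (P : ℝ) ^ (d + 1) = (P : ℝ) ^ (τ / 2) := by
      have : (P : ℝ) ^ (d + 1) = (P : ℝ) ^ ((d : ℝ) + 1) := by
        rw [← Real.rpow_natCast]; congr 1; push_cast; ring
      rw [this, ← Real.rpow_add hP0, ← Real.rpow_add hP0]
      congr 1
      ring
    have h4 : C * (Real.log (4 * P) + 1) * Yc ^ 2 ≤ C * (P : ℝ) ^ (τ / 2) * Yc ^ 2 := by gcongr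
    have h5 : (∑ p ∈ W.Y (Qs (kap d) P) u ×ˢ W.Y (Qs (kap d) P) u, volume.real (I ∩
        {α | |SF (pv (d + 1) (fun i => c i α)) p.1 - SF (pv (d + 1) (fun i => c i α)) p.2| ≤ K₀})) * (P : ℝ) ^ (d + 1) ≤
        (C * (P : ℝ) ^ (-(τ / 2)) * (Yc ^ 2 * (P : ℝ) ^ (-((d : ℝ) + 1) + τ))) * (P : ℝ) ^ (d + 1) := by
      refine (h1.trans h4).trans (le_of_eq ?_)
      rw [← h3]; ring
    exact le_of_mul_le_mul_right h5 hPd
  -- the summation
  set t : ℕ → Set ℝ := fun j => s (j₀ + j) with ht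
  have hsum : ∑' j, volume (t j) ≠ ⊤ := by
    have hq0 : (0 : ℝ) < (2 : ℝ) ^ (-(τ / 2)) := by positivity
    have hq1 : (2 : ℝ) ^ (-(τ / 2)) < 1 := Real.rpow_lt_one_of_one_lt_of_neg (by norm_num) (by linarith)
    have hle : ∀ j, volume (t j) ≤ ENNReal.ofReal (C * ((2 : ℝ) ^ (-(τ / 2))) ^ j) := by
      intro j
      refine (hmeas (j₀ + j) (by omega)).trans (ENNReal.ofReal_le_ofReal ?_)
      apply mul_le_mul_of_nonneg_left _ (by linarith)
      exact pow_le_pow_of_le_one hq0.le hq1.le (by omega)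
    refine ne_top_of_le_ne_top ?_ (ENNReal.tsum_le_tsum hle)
    have hsm : Summable fun j : ℕ => C * ((2 : ℝ) ^ (-(τ / 2))) ^ j :=
      (summable_geometric_of_lt_one hq0.le hq1).mul_left C
    exact hsm.tsum_ofReal_ne_top
  filter_upwards [ae_eventually_notMem hsum] with α hα hαI
  obtain ⟨j₁, hj₁⟩ := eventually_atTop.1 hα
  rw [eventually_atTop]
  refine ⟨j₀ + j₁, fun j hj => ?_⟩
  have h1 := hj₁ (j - j₀) (by omega)
  simp only [ht, hs, show j₀ + (j - j₀) = j by omega, Set.mem_ofPred_eq, not_and, not_le] at h1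
  exact (h1 hαI).le

/-- the conditions on a family of polynomials whose coefficients are polynomials of the parameter -/
structure Fam (d e : ℕ) (c : ℕ → Polynomial ℝ) : Prop where
  lt : e < d
  lead : ∃ l : ℝ, 0 < l ∧ c (d + 1) = Polynomial.C l
  const : ∀ i, e + 1 < i → i ≤ d + 1 → (c i).derivative = 0
  var : (c (e + 1)).derivative ≠ 0

lemma bdd (f : Polynomial ℝ) (a b : ℝ) : ∃ B : ℝ, ∀ x ∈ Set.Icc a b, |f.eval x| ≤ B := by
  obtain ⟨B, hB⟩ := isCompact_Icc.exists_bound_of_continuousOn (s := Set.Icc a b) (f := fun x => f.eval x)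
    (Polynomial.continuous f).continuousOn
  exact ⟨B, fun x hx => by simpa using hB x hx⟩

/-- the energy for almost all parameters -/
theorem ae_energy (d e : ℕ) (c : ℕ → Polynomial ℝ) (hc : Fam d e c) (u : ℕ) (hu : 1 ≤ u) (K₀ : ℝ) (hK₀ : 0 ≤ K₀)
    (hκu : 2 * ((d : ℝ) + 1) * kap d ^ u ≤ e + 1) :
    ∀ᵐ α : ℝ, ∀ τ : ℝ, 0 < τ → ∀ᶠ j : ℕ in atTop, EnV d (fun i => (c i).eval α) K₀ (2 ^ j) u ≤
      ((W.Y (Qs (kap d) (2 ^ j)) u).card : ℝ) ^ 2 * ((2 ^ j : ℕ) : ℝ) ^ (-((d : ℝ) + 1) + τ) := by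
  have h1 : ∀ᵐ α : ℝ, ∀ (q₁ q₂ : ℚ) (m : ℕ), (q₁ : ℝ) ≤ q₂ → (q₂ : ℝ) ≤ q₁ + 1 →
      (∀ x ∈ Set.Icc (q₁ : ℝ) q₂, (c (e + 1)).derivative.eval x ≠ 0) → α ∈ Set.Icc (q₁ : ℝ) q₂ →
      ∀ᶠ j : ℕ in atTop, EnV d (fun i => (c i).eval α) K₀ (2 ^ j) u ≤
      ((W.Y (Qs (kap d) (2 ^ j)) u).card : ℝ) ^ 2 * ((2 ^ j : ℕ) : ℝ) ^ (-((d : ℝ) + 1) + 1 / ((m : ℝ) + 1)) := by
    rw [ae_all_iff]
    intro q₁
    rw [ae_all_iff]
    intro q₂
    rw [ae_all_iff]
    intro m
    by_cases hq : (q₁ : ℝ) ≤ q₂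
    · by_cases hq1 : (q₂ : ℝ) ≤ q₁ + 1
      · by_cases h : ∀ x ∈ Set.Icc (q₁ : ℝ) q₂, (c (e + 1)).derivative.eval x ≠ 0
        · obtain ⟨l, hl, hcl⟩ := hc.lead
          choose B0 hB0 using fun i => bdd (c i) q₁ q₂
          choose B1 hB1 using fun i => bdd (c i).derivative q₁ q₂
          choose B2 hB2 using fun i => bdd (c i).derivative.derivative q₁ q₂
          obtain ⟨x₀, hx₀, hmin⟩ := isCompact_Icc.exists_isMinOn (Set.nonempty_Icc.2 hq)
            (f := fun x => |(c (e + 1)).derivative.eval x|) (Polynomial.continuous _).abs.continuousOn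
          obtain ⟨B, hB⟩ : ∃ B : ℝ, B = 1 + ∑ i ∈ range (d + 2), (|B0 i| + |B1 i| + |B2 i|) := ⟨_, rfl⟩
          have hBi : ∀ i, i ≤ d + 1 → |B0 i| + |B1 i| + |B2 i| ≤ B := by
            intro i hi
            have := single_le_sum (f := fun i => |B0 i| + |B1 i| + |B2 i|) (s := range (d + 2))
              (fun i _ => by positivity) (mem_range.2 (show i < d + 2 by omega))
            linarith
          have hBpos : 0 < B := by
            rw [hB]
            have : 0 ≤ ∑ i ∈ range (d + 2), (|B0 i| + |B1 i| + |B2 i|) := sum_nonneg fun i _ => by positivity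
            linarith
          have hlt := hc.lt
          have hfam : FamI d e (q₁ : ℝ) q₂ l (|(c (e + 1)).derivative.eval x₀|) B (fun i x => (c i).eval x)
              (fun i x => (c i).derivative.eval x) (fun i x => (c i).derivative.derivative.eval x) := by
            refine ⟨fun i _ α _ => (c i).hasDerivAt α, fun i _ α _ => (c i).derivative.hasDerivAt α, ?_, ?_, ?_, ?_, ?_, ?_⟩
            · intro i h1 h2 α _
              rw [hc.const i h1 h2]; simp
            · intro i hi α hα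
              have := hB0 i α hα
              have := hBi i hi
              linarith [le_abs_self (B0 i), abs_nonneg (B1 i), abs_nonneg (B2 i)]
            · intro i hi α hα
              have := hB1 i α hα
              have := hBi i (by omega)
              linarith [le_abs_self (B1 i), abs_nonneg (B0 i), abs_nonneg (B2 i)]
            · intro i hi α hα
              have := hB2 i α hα
              have := hBi i (by omega)
              linarith [le_abs_self (B2 i), abs_nonneg (B0 i), abs_nonneg (B1 i)]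
            · intro α _
              rw [hcl]; simp
            · intro α hα
              exact hmin hα
          filter_upwards [ae_local d e hlt q₁ q₂ l _ B hq hq1 hl (abs_pos.2 (h x₀ hx₀)) hBpos _ _ _ hfam
            (fun i => Polynomial.continuous _) u hu K₀ hK₀ hκu (1 / ((m : ℝ) + 1)) (by positivity)] with α hα _ _ _ hI
          exact hα hI
        · exact ae_of_all _ fun α _ _ h2 => absurd h2 h
      · exact ae_of_all _ fun α _ h2 => absurd h2 hq1
    · exact ae_of_all _ fun α h2 => absurd h2 hq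
  filter_upwards [h1, ae_ne _ hc.var] with α hα hα2 τ hτ
  obtain ⟨m, hm⟩ : ∃ m : ℕ, 1 / ((m : ℝ) + 1) < τ := exists_nat_one_div_lt hτ
  obtain ⟨q₁, q₂, h3, h4, h5, h6⟩ := local_int (fun x => (c (e + 1)).derivative.eval x) (Polynomial.continuous _) α hα2
  filter_upwards [hα q₁ q₂ m (h3.trans h4).le h5 h6 ⟨h3.le, h4.le⟩] with j hj
  refine hj.trans ?_
  apply mul_le_mul_of_nonneg_left _ (by positivity)
  apply Real.rpow_le_rpow_of_exponent_le
  · exact_mod_cast Nat.one_le_two_pow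
  · linarith

end Pool.Agent.Zk40.V
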