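import Pool.Agent.Zk40.V.Both
import Pool.Agent.Zk40.V.AEp
import Pool.Agent.Zk40.W.Final

/-!
Waring's problem for almost all polynomials: one scale.
-/

namespace Pool.Agent.Zk40.V

open Finset Filter Topology MeasureTheory
open Pool.Agent.Zk40.W (ES ES_triv ES_neg comb Qs Qs_one Qs_le ev_pow ev_log Y_pos window circle)

/-- many values in a window -/
lemma many_z (f : ℕ → ℝ) (w : ℕ → ℕ) (hw : ∀ z, w z = ⌊f z⌋₊) (M W : ℕ) (hM : 1 ≤ M) (hW : 1 ≤ W) (a : ℤ) (D : ℝ)
    (hD0 : 0 < D) (hpos : ∀ z, M ≤ z → 0 ≤ f z) (hinc : ∀ z, M ≤ z → f z + 1 ≤ f (z + 1))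
    (hstep : ∀ z, M ≤ z → z < 5 * M → f (z + 1) - f z ≤ D)
    (h1 : f M + W ≤ a) (h2 : (a : ℝ) < f (4 * M)) (h3 : 2 * D ≤ W) (h4 : (W : ℝ) ≤ M * D) :
    (W : ℝ) / (2 * D) ≤ (((Ioc M (4 * M)).filter (fun z => a - W < (w z : ℤ) ∧ (w z : ℤ) ≤ a)).card : ℝ) := by
  have hM1 : (1 : ℝ) ≤ M := by exact_mod_cast hM
  have hW1 : (1 : ℝ) ≤ W := by exact_mod_cast hW
  have hmono : ∀ z k, M ≤ z → f z + k ≤ f (z + k) := by
    intro z k hz
    induction k with
    | zero => simp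
    | succ k ih =>
      have := hinc (z + k) (by omega)
      push_cast
      rw [show z + (k + 1) = z + k + 1 by ring]
      linarith
  have hsteps : ∀ k z, M ≤ z → z + k ≤ 5 * M → f (z + k) - f z ≤ k * D := by
    intro k
    induction k with
    | zero => intro z _ _; simp
    | succ k ih =>
      intro z hz hzk
      have e1 := ih z hz (by omega)
      have e2 := hstep (z + k) (by omega) (by omega)
      push_cast
      rw [show z + (k + 1) = z + k + 1 by ring]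
      linarith
  -- the least `z ≥ M` with `f z ≥ a - W + 1`
  have hex : ∃ z : ℕ, M ≤ z ∧ (a : ℝ) - W + 1 ≤ f z := ⟨4 * M, by omega, by linarith⟩
  classical
  obtain ⟨z₀, hz₀⟩ : ∃ z₀, z₀ = Nat.find hex := ⟨_, rfl⟩
  have hz1 : M ≤ z₀ ∧ (a : ℝ) - W + 1 ≤ f z₀ := by rw [hz₀]; exact Nat.find_spec hex
  have hz2 : M < z₀ := by
    rcases hz1.1.eq_or_lt with h | h
    · rw [← h] at hz1
      linarith [hz1.2]
    · exact h
  have hz3 : f (z₀ - 1) < (a : ℝ) - W + 1 := by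
    have := Nat.find_min hex (show z₀ - 1 < Nat.find hex by rw [← hz₀]; omega)
    push Not at this
    exact this (by omega)
  have hz4 : z₀ ≤ 4 * M := by
    rw [hz₀]
    apply Nat.find_min'
    exact ⟨by omega, by linarith⟩
  set K := ⌊(W : ℝ) / D⌋₊ with hK
  have hK1 : (K : ℝ) * D ≤ W := by
    have := Nat.floor_le (show 0 ≤ (W : ℝ) / D by positivity)
    rwa [le_div_iff₀ hD0] at this
  have hK2 : (W : ℝ) < (K + 1) * D := by
    have := Nat.lt_floor_add_one ((W : ℝ) / D)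
    rwa [div_lt_iff₀ hD0] at this
  have hKM : K ≤ M := by
    have : (K : ℝ) ≤ M := by
      have h5 : (K : ℝ) * D ≤ M * D := hK1.trans h4
      exact le_of_mul_le_mul_right h5 hD0
    exact_mod_cast this
  have hsub : (range K).image (fun k => z₀ + k) ⊆
      (Ioc M (4 * M)).filter (fun z => a - W < (w z : ℤ) ∧ (w z : ℤ) ≤ a) := by
    intro z hz
    rw [mem_image] at hz
    obtain ⟨k, hk, rfl⟩ := hz
    rw [mem_range] at hk
    have hk1 : ((k : ℝ) + 1) ≤ K := by exact_mod_cast hk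
    have hup : f (z₀ + k) < a + 1 := by
      have e1 := hsteps (k + 1) (z₀ - 1) (by omega) (by omega)
      rw [show z₀ - 1 + (k + 1) = z₀ + k by omega] at e1
      have e4 : ((k : ℝ) + 1) * D ≤ K * D := mul_le_mul_of_nonneg_right hk1 hD0.le
      push_cast at e1
      linarith
    have hlow : (a : ℝ) - W + 1 ≤ f (z₀ + k) := by
      have := hmono z₀ k hz1.1
      have : (0 : ℝ) ≤ k := Nat.cast_nonneg _
      linarith [hz1.2]
    have hle : z₀ + k ≤ 4 * M := by
      by_contra hcon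
      push Not at hcon
      obtain ⟨r, hr⟩ : ∃ r, z₀ + k = 4 * M + (r + 1) := ⟨z₀ + k - 4 * M - 1, by omega⟩
      have := hmono (4 * M) (r + 1) (by omega)
      rw [← hr] at this
      push_cast at this
      have : (0 : ℝ) ≤ r := Nat.cast_nonneg _
      linarith
    have hfl : (⌊f (z₀ + k)⌋ : ℤ) = (w (z₀ + k) : ℤ) := by
      rw [hw]
      exact (Int.natCast_floor_eq_floor (hpos (z₀ + k) (by omega))).symm
    rw [mem_filter, mem_Ioc]
    refine ⟨⟨by omega, hle⟩, ?_, ?_⟩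
    · have e1 : (a - W + 1 : ℤ) ≤ ⌊f (z₀ + k)⌋ := by
        apply Int.le_floor.2
        push_cast
        exact hlow
      omega
    · have e1 : ⌊f (z₀ + k)⌋ < a + 1 := by
        apply Int.floor_lt.2
        push_cast
        exact hup
      omega
  have hcard : K ≤ ((Ioc M (4 * M)).filter (fun z => a - W < (w z : ℤ) ∧ (w z : ℤ) ≤ a)).card := by
    calc K = ((range K).image (fun k => z₀ + k)).card := by
          rw [card_image_of_injective _ (add_right_injective z₀), card_range]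
      _ ≤ _ := card_le_card hsub
  have hcard' : (K : ℝ) ≤ (((Ioc M (4 * M)).filter (fun z => a - W < (w z : ℤ) ∧ (w z : ℤ) ≤ a)).card : ℝ) := by
    exact_mod_cast hcard
  refine le_trans ?_ hcard'
  rw [div_le_iff₀ (by positivity)]
  nlinarith

/-- the integer value of a vector of pairs -/
noncomputable def Vp (d : ℕ) (a : ℕ → ℝ) {n : ℕ} (y : Fin n → ℕ × ℕ) : ℕ := ∑ i, (wp d a (y i).1 + wp d a (y i).2)

lemma wp_near (d : ℕ) (a : ℕ → ℝ) (z : ℕ) (h : 0 ≤ pv (d + 1) a z) :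
    (wp d a z : ℝ) ≤ pv (d + 1) a z ∧ pv (d + 1) a z ≤ wp d a z + 1 :=
  ⟨Nat.floor_le h, (Nat.lt_floor_add_one _).le⟩

lemma Vp_near (d : ℕ) (a : ℕ → ℝ) {n : ℕ} (y : Fin n → ℕ × ℕ)
    (h : ∀ i, 0 ≤ pv (d + 1) a ((y i).1 : ℝ) ∧ 0 ≤ pv (d + 1) a ((y i).2 : ℝ)) :
    (Vp d a y : ℝ) ≤ SF (pv (d + 1) a) y ∧ SF (pv (d + 1) a) y ≤ Vp d a y + 2 * n := by
  unfold Vp SF
  push_cast
  constructor
  · apply sum_le_sum
    intro i _
    linarith [(wp_near d a _ (h i).1).1, (wp_near d a _ (h i).2).1]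
  · have h1 : ∑ i, (pv (d + 1) a ((y i).1 : ℝ) + pv (d + 1) a ((y i).2 : ℝ)) ≤
        ∑ i, (((wp d a (y i).1 : ℝ) + wp d a (y i).2) + 2) := by
      apply sum_le_sum
      intro i _
      linarith [(wp_near d a _ (h i).1).2, (wp_near d a _ (h i).2).2]
    refine h1.trans (le_of_eq ?_)
    rw [sum_add_distrib, sum_const, card_univ, Fintype.card_fin, nsmul_eq_mul]
    ring

end Pool.Agent.Zk40.V
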