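import Pool.Agent.Zk40.V.Inv3
import Pool.Agent.Zk40.V.Dio
import Pool.Agent.Zk40.W.Exps

/-!
Waring's problem for almost all polynomials: Weyl sums whose coefficients have a badly approximable ratio.
-/

namespace Pool.Agent.Zk40.V

open Finset Filter Topology
open Pool.Agent.Helper602.MK (ee)
open Pool.Agent.Helper602.MK.N_J5b (ee_eq)
open Pool.Agent.H469R2.NK (e norm_e e_add)

lemma ee_e (x : ℝ) : ee x = e x := ee_eq x

lemma pv_mul (n : ℕ) (a : ℕ → ℝ) (t x : ℝ) : t * pv n a x = pv n (fun i => t * a i) x := by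
  unfold pv
  rw [mul_sum]
  apply sum_congr rfl
  intro i _
  ring

/-- Weyl sums over initial segments -/
theorem weyl (D j : ℕ) (hj : 1 ≤ j) (hjD : j ≤ D) (a : ℕ → ℝ) (ha : 0 < a D) (hdp : Dp (a j / a D)) :
    ∃ σ : ℝ, 0 < σ ∧ σ ≤ 1 ∧ ∀ᶠ M : ℕ in atTop, ∀ t : ℝ, (M : ℝ) ^ ((1 : ℝ) / 2 - D) ≤ |t| → |t| ≤ (M : ℝ) ^ ((1 : ℝ) / 10) →
      ‖∑ n ∈ range M, e (t * pv D a n)‖ ≤ (M : ℝ) ^ (1 - σ) := by
  obtain ⟨c, m, hc, hinv⟩ := inv_all D
  obtain ⟨c₀, hc₀, hdp⟩ := hdp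
  have hcr : (1 : ℝ) ≤ c := by exact_mod_cast hc
  obtain ⟨l, hl⟩ : ∃ l : ℝ, l = a D := ⟨_, rfl⟩
  obtain ⟨g, hg⟩ : ∃ g : ℝ, g = a j := ⟨_, rfl⟩
  rw [← hl] at ha
  rw [← hl, ← hg] at hdp
  obtain ⟨σ, hσ⟩ : ∃ σ : ℝ, σ = 1 / (10 * ((m : ℝ) + 1)) := ⟨_, rfl⟩
  have hσ0 : 0 < σ := by rw [hσ]; positivity
  have hσm : σ * m ≤ 1 / 10 := by
    rw [hσ, div_mul_eq_mul_div, one_mul, div_le_div_iff₀ (by positivity) (by norm_num)]
    linarith
  have hσ1 : σ ≤ 1 := by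
    rw [hσ, div_le_one (by positivity)]
    have : (0 : ℝ) ≤ m := Nat.cast_nonneg _
    linarith
  obtain ⟨K, hK⟩ : ∃ K : ℝ, K = (|g / l| + 1) * c * (c * (l + 1)) ^ 2 := ⟨_, rfl⟩
  have hK0 : 0 < K := by rw [hK]; positivity
  have hnat : Tendsto (fun M : ℕ => (M : ℝ)) atTop atTop := tendsto_natCast_atTop_atTop
  have ev1 : ∀ᶠ M : ℕ in atTop, c / l < (M : ℝ) ^ ((4 : ℝ) / 10) :=
    ((tendsto_rpow_atTop (by norm_num)).comp hnat).eventually_gt_atTop _
  have ev2 : ∀ᶠ M : ℕ in atTop, K / c₀ < (M : ℝ) ^ ((1 : ℝ) / 2) :=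
    ((tendsto_rpow_atTop (by norm_num)).comp hnat).eventually_gt_atTop _
  refine ⟨σ, hσ0, hσ1, ?_⟩
  filter_upwards [ev1, ev2, eventually_ge_atTop 1] with M k1 k2 hM t ht1 ht2
  have hMr : (1 : ℝ) ≤ M := by exact_mod_cast hM
  have hM0 : (0 : ℝ) < M := by linarith
  by_contra hcon
  push Not at hcon
  have hS : (M : ℝ) ≤ (M : ℝ) ^ σ * ‖∑ n ∈ range M, ee (pv D (fun i => t * a i) n)‖ := by
    have h1 : ∑ n ∈ range M, ee (pv D (fun i => t * a i) n) = ∑ n ∈ range M, e (t * pv D a n) := by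
      apply sum_congr rfl
      intro n _
      rw [ee_e, pv_mul]
    rw [h1]
    calc (M : ℝ) = (M : ℝ) ^ σ * (M : ℝ) ^ (1 - σ) := by
          rw [← Real.rpow_add hM0, add_sub_cancel, Real.rpow_one]
      _ ≤ _ := mul_le_mul_of_nonneg_left hcon.le (by positivity)
  obtain ⟨q, hq, hqu, hb⟩ := hinv M ((M : ℝ) ^ σ) (fun i => t * a i) hM (Real.one_le_rpow hMr hσ0.le) hS
  have hqr : (1 : ℝ) ≤ q := by exact_mod_cast hq
  obtain ⟨X, hX⟩ : ∃ X : ℝ, X = (M : ℝ) ^ ((1 : ℝ) / 10) := ⟨_, rfl⟩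
  have hX1 : 1 ≤ X := by rw [hX]; exact Real.one_le_rpow hMr (by norm_num)
  have hum : (c : ℝ) * ((M : ℝ) ^ σ) ^ m ≤ c * X := by
    apply mul_le_mul_of_nonneg_left _ (by linarith)
    rw [hX, ← Real.rpow_natCast, ← Real.rpow_mul hM0.le]
    exact Real.rpow_le_rpow_of_exponent_le hMr hσm
  obtain ⟨bD, hbD⟩ := hb D (hj.trans hjD) le_rfl
  obtain ⟨bj, hbj⟩ := hb j hj hjD
  rw [← hl] at hbD
  rw [← hg] at hbj
  have hbD' : |(q : ℝ) * (t * l) - bD| ≤ c * X / (M : ℝ) ^ D :=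
    hbD.trans (div_le_div_of_nonneg_right hum (by positivity))
  have hbj' : |(q : ℝ) * (t * g) - bj| ≤ c * X / M := by
    refine hbj.trans ?_
    calc c * ((M : ℝ) ^ σ) ^ m / (M : ℝ) ^ j ≤ c * X / (M : ℝ) ^ j := div_le_div_of_nonneg_right hum (by positivity)
      _ ≤ c * X / M := by
        apply div_le_div_of_nonneg_left (by positivity) hM0
        exact le_self_pow₀ hMr (by omega)
  have hMD : (M : ℝ) ≤ (M : ℝ) ^ D := le_self_pow₀ hMr (by omega)
  by_cases h0 : bD = 0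
  · rw [h0, Int.cast_zero, sub_zero, le_div_iff₀ (by positivity)] at hbD'
    have e1 : |t| * l ≤ |(q : ℝ) * (t * l)| := by
      rw [abs_mul, abs_mul, abs_of_pos ha, abs_of_pos (by linarith : (0 : ℝ) < q)]
      exact le_mul_of_one_le_left (by positivity) hqr
    have e2 : (M : ℝ) ^ ((1 : ℝ) / 2 - D) * l * (M : ℝ) ^ D ≤ c * X := by
      refine le_trans ?_ hbD'
      apply mul_le_mul_of_nonneg_right _ (by positivity)
      exact (mul_le_mul_of_nonneg_right ht1 ha.le).trans e1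
    have e3 : (M : ℝ) ^ ((1 : ℝ) / 2 - D) * (M : ℝ) ^ D = (M : ℝ) ^ ((4 : ℝ) / 10) * X := by
      rw [hX, ← Real.rpow_natCast, ← Real.rpow_add hM0, ← Real.rpow_add hM0]
      congr 1
      ring
    have e4 : ((M : ℝ) ^ ((4 : ℝ) / 10) * l) * X ≤ c * X := by
      refine le_trans (le_of_eq ?_) e2
      rw [mul_right_comm, mul_right_comm _ l, e3]
    have e5 := le_of_mul_le_mul_right e4 (by linarith)
    rw [div_lt_iff₀ ha] at k1
    linarith
  · have e1 : |(bD : ℝ)| ≤ c * (l + 1) * X ^ 2 := by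
      have f1 : |(bD : ℝ)| ≤ |(q : ℝ) * (t * l)| + |(q : ℝ) * (t * l) - bD| := by
        have := abs_sub_abs_le_abs_sub (bD : ℝ) ((q : ℝ) * (t * l))
        rw [abs_sub_comm] at this
        linarith
      have f2 : |(q : ℝ) * (t * l)| ≤ (c * X) * (X * l) := by
        rw [abs_mul, abs_mul, abs_of_pos ha, abs_of_pos (by linarith : (0 : ℝ) < q)]
        apply mul_le_mul (hqu.trans hum) _ (by positivity) (by positivity)
        rw [← hX] at ht2
        exact mul_le_mul_of_nonneg_right ht2 ha.le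
      have f3 : c * X / (M : ℝ) ^ D ≤ c * X ^ 2 := by
        calc c * X / (M : ℝ) ^ D ≤ c * X := div_le_self (by positivity) (by linarith)
          _ ≤ c * X ^ 2 := by
            apply mul_le_mul_of_nonneg_left _ (by linarith)
            nlinarith
      calc |(bD : ℝ)| ≤ (c * X) * (X * l) + c * X ^ 2 := by linarith
        _ = _ := by ring
    have e2 : |(bD : ℝ) * (g / l) - bj| ≤ (|g / l| + 1) * (c * X / M) := by
      have f1 : (bD : ℝ) * (g / l) - bj = ((q : ℝ) * (t * g) - bj) - ((q : ℝ) * (t * l) - bD) * (g / l) := by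
        field_simp
        ring
      rw [f1]
      refine (abs_sub _ _).trans ?_
      rw [abs_mul]
      have f2 : |(q : ℝ) * (t * l) - bD| * |g / l| ≤ (c * X / M) * |g / l| := by
        apply mul_le_mul_of_nonneg_right _ (abs_nonneg _)
        exact hbD'.trans (div_le_div_of_nonneg_left (by positivity) hM0 hMD)
      linarith
    have e3 := hdp bD h0 bj
    have e4 : c₀ ≤ (|g / l| + 1) * (c * X / M) * (c * (l + 1) * X ^ 2) ^ 2 := by
      refine e3.trans ?_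
      apply mul_le_mul e2 _ (by positivity) (by positivity)
      exact pow_le_pow_left₀ (abs_nonneg _) e1 2
    have e5 : (|g / l| + 1) * (c * X / M) * (c * (l + 1) * X ^ 2) ^ 2 = K * (X ^ 5 / M) := by
      rw [hK]; ring
    have e6 : X ^ 5 / M = 1 / (M : ℝ) ^ ((1 : ℝ) / 2) := by
      rw [hX, ← Real.rpow_natCast, ← Real.rpow_mul hM0.le, div_eq_div_iff (by positivity) (by positivity),
        ← Real.rpow_add hM0]
      norm_num
    rw [e5, e6, mul_one_div, le_div_iff₀ (by positivity)] at e4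
    rw [div_lt_iff₀ hc₀] at k2
    linarith

end Pool.Agent.Zk40.V
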