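import Pool.Agent.Zk40.V.One

/-!
Waring's problem for almost all polynomials: every large integer is represented.
-/

namespace Pool.Agent.Zk40.V

open Finset Filter Topology MeasureTheory
open Pool.Agent.Zk40.W (ES Qs)

/-- all large integers -/
theorem all_large (d : ℕ) (hd : 1 ≤ d) (a : ℕ → ℝ) (ha : 0 < a (d + 1))
    (hw : ∃ C σ : ℝ, 0 < C ∧ 0 < σ ∧ σ ≤ 1 ∧ ∀ᶠ x : ℕ in atTop, ∀ β : ℝ, 0 < β → β ≤ 1 / 2 →
      ‖ES (Ioc x (2 * x)) (wp d a) β‖ ≤ C * ((x : ℝ) ^ (1 - ((d : ℝ) + 1)) / β + (x : ℝ) ^ (1 - σ)))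
    (u X : ℕ)
    (hE : ∀ τ : ℝ, 0 < τ → ∀ᶠ j : ℕ in atTop, EnV d a (2 * u) (2 ^ j) u ≤
      ((W.Y (Qs (kap d) (2 ^ j)) u).card : ℝ) ^ 2 * ((2 ^ j : ℕ) : ℝ) ^ (-((d : ℝ) + 1) + τ)) :
    ∃ N₀ : ℕ, ∀ N ≥ N₀, ∃ (x y : Fin u → ℕ × ℕ) (z₁ z₂ : ℕ),
      (∀ i, (X ≤ (x i).1 ∧ X ≤ (x i).2) ∧ (X ≤ (y i).1 ∧ X ≤ (y i).2)) ∧
        X ≤ z₁ ∧ X ≤ z₂ ∧ Vp d a x + Vp d a y + (wp d a z₁ + wp d a z₂) = N := by
  classical
  obtain ⟨C₁, hC₁, hev⟩ := one_scale d hd a ha hw u X hE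
  obtain ⟨j₀, hj₀⟩ := eventually_atTop.1 hev
  obtain ⟨c₁, c₂, hc₁, hc₂, z₀, hz₀, hbig⟩ := big d hd a ha
  have hC₁r : (1 : ℝ) ≤ C₁ := by exact_mod_cast hC₁
  set f : ℕ → ℝ := fun j => pv (d + 1) a ((2 * (C₁ * 2 ^ j) : ℕ) : ℝ) with hf
  have hunb : ∀ N : ℕ, ∃ j, j₀ ≤ j ∧ (N : ℝ) < f (j + 1) := by
    intro N
    obtain ⟨m, hm⟩ := pow_unbounded_of_one_lt ((N : ℝ) / c₁) (show (1 : ℝ) < 2 by norm_num)
    refine ⟨j₀ + m + z₀, by omega, ?_⟩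
    obtain ⟨y, hy⟩ : ∃ y : ℝ, y = ((2 * (C₁ * 2 ^ (j₀ + m + z₀ + 1)) : ℕ) : ℝ) := ⟨_, rfl⟩
    have h1 : ∀ i, i ≤ j₀ + m + z₀ + 1 → (2 : ℝ) ^ i ≤ y := by
      intro i hi
      have e1 : (2 : ℝ) ^ i ≤ 2 ^ (j₀ + m + z₀ + 1) := pow_le_pow_right₀ (by norm_num) hi
      rw [hy]
      push_cast
      have : (0 : ℝ) < 2 ^ (j₀ + m + z₀ + 1) := by positivity
      nlinarith
    have h2 : (z₀ : ℝ) ≤ y := by
      have : (z₀ : ℝ) < 2 ^ z₀ := by exact_mod_cast Nat.lt_two_pow_self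
      linarith [h1 z₀ (by omega)]
    have h3 := (hbig y h2).1.1
    have hy1 : 1 ≤ y := by
      have : (1 : ℝ) ≤ z₀ := by exact_mod_cast hz₀
      linarith
    have h4 : y ≤ y ^ (d + 1) := le_self_pow₀ hy1 (by omega)
    rw [div_lt_iff₀ hc₁] at hm
    have h5 := h1 m (by omega)
    show (N : ℝ) < pv (d + 1) a ((2 * (C₁ * 2 ^ (j₀ + m + z₀ + 1)) : ℕ) : ℝ)
    rw [← hy]
    calc (N : ℝ) < 2 ^ m * c₁ := hm
      _ ≤ y ^ (d + 1) * c₁ := mul_le_mul_of_nonneg_right (h5.trans h4) hc₁.le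
      _ ≤ _ := by linarith
  refine ⟨⌈f j₀⌉₊, fun N hN => ?_⟩
  have hN' : f j₀ ≤ N := Nat.ceil_le.1 hN
  obtain ⟨j, hj⟩ : ∃ j, j = Nat.find (hunb N) := ⟨_, rfl⟩
  have hj1 : j₀ ≤ j ∧ (N : ℝ) < f (j + 1) := by rw [hj]; exact Nat.find_spec (hunb N)
  have hj2 : f j ≤ N := by
    rcases hj1.1.eq_or_lt with h | h
    · rw [← h]; exact hN'
    · have := Nat.find_min (hunb N) (show j - 1 < Nat.find (hunb N) by rw [← hj]; omega)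
      push Not at this
      have h2 := this (by omega)
      rwa [show j - 1 + 1 = j by omega] at h2
  apply hj₀ j hj1.1 N hj2
  refine hj1.2.trans_le (le_of_eq ?_)
  simp only [hf]
  congr 2
  ring

/-- the vectors as a single vector -/
lemma one_vector (d : ℕ) (a : ℕ → ℝ) (u X : ℕ) (x y : Fin u → ℕ × ℕ) (z₁ z₂ : ℕ)
    (h : ∀ i, (X ≤ (x i).1 ∧ X ≤ (x i).2) ∧ (X ≤ (y i).1 ∧ X ≤ (y i).2)) (h1 : X ≤ z₁) (h2 : X ≤ z₂) :
    ∃ t : Fin (4 * u + 2) → ℕ, (∀ i, X ≤ t i) ∧ ∑ i, wp d a (t i) = Vp d a x + Vp d a y + (wp d a z₁ + wp d a z₂) := by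
  obtain ⟨f, hf⟩ : ∃ f : ((Fin u ⊕ Fin u) ⊕ (Fin u ⊕ Fin u)) ⊕ (Unit ⊕ Unit) → ℕ,
    f = Sum.elim (Sum.elim (Sum.elim (fun i => (x i).1) (fun i => (x i).2)) (Sum.elim (fun i => (y i).1) (fun i => (y i).2)))
      (Sum.elim (fun _ => z₁) (fun _ => z₂)) := ⟨_, rfl⟩
  have hcard : Fintype.card (((Fin u ⊕ Fin u) ⊕ (Fin u ⊕ Fin u)) ⊕ (Unit ⊕ Unit)) = 4 * u + 2 := by simp; ring
  obtain ⟨e, he⟩ : ∃ e : Fin (4 * u + 2) ≃ ((Fin u ⊕ Fin u) ⊕ (Fin u ⊕ Fin u)) ⊕ (Unit ⊕ Unit), True :=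
    ⟨(Fintype.equivFinOfCardEq hcard).symm, trivial⟩
  refine ⟨fun i => f (e i), ?_, ?_⟩
  · have hall : ∀ s, X ≤ f s := by
      intro s
      rw [hf]
      rcases s with ((s | s) | (s | s)) | (s | s)
      · exact (h s).1.1
      · exact (h s).1.2
      · exact (h s).2.1
      · exact (h s).2.2
      · exact h1
      · exact h2
    exact fun i => hall _
  · rw [Equiv.sum_comp e (fun s => wp d a (f s)), hf]
    simp only [Fintype.sum_sum_type, Sum.elim_inl, Sum.elim_inr, univ_unique, sum_singleton]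
    unfold Vp
    rw [sum_add_distrib, sum_add_distrib]

/-- the master theorem -/
theorem master (d e : ℕ) (c : ℕ → Polynomial ℝ) (hc : Fam d e c) (u : ℕ) (hu : 1 ≤ u)
    (hκu : 2 * ((d : ℝ) + 1) * kap d ^ u ≤ e + 1) :
    ∀ᵐ α : ℝ, ∀ X : ℕ, ∃ N₀ : ℕ, ∀ N ≥ N₀, ∃ t : Fin (4 * u + 2) → ℕ,
      (∀ i, X ≤ t i ∧ 0 ≤ pv (d + 1) (fun i => (c i).eval α) (t i)) ∧
      ∑ i, wp d (fun i => (c i).eval α) (t i) = N := by
  obtain ⟨l, hl, hcl⟩ := hc.lead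
  have hlt := hc.lt
  have hd : 1 ≤ d := by omega
  have h1 : ∀ᵐ α : ℝ, Dp ((c (e + 1) * Polynomial.C (1 / l)).eval α) := by
    apply ae_poly _ _ Dp ae_dp
    rw [Polynomial.derivative_mul, Polynomial.derivative_C, mul_zero, add_zero]
    apply mul_ne_zero hc.var
    rw [Polynomial.C_ne_zero]
    positivity
  filter_upwards [h1, ae_energy d e c hc u hu (2 * u) (by positivity) hκu] with α hα hE X
  obtain ⟨a, haα⟩ : ∃ a : ℕ → ℝ, a = fun i => (c i).eval α := ⟨_, rfl⟩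
  rw [← haα] at hE ⊢
  have hlead : a (d + 1) = l := by rw [haα]; simp [hcl]
  have ha : 0 < a (d + 1) := by rw [hlead]; exact hl
  have hdp : Dp (a (e + 1) / a (d + 1)) := by
    have : a (e + 1) / a (d + 1) = (c (e + 1) * Polynomial.C (1 / l)).eval α := by
      rw [hlead, haα]
      simp [div_eq_mul_inv]
    rw [this]; exact hα
  have hw := exp_pos d (e + 1) hd (by omega) (by omega) a ha hdp
  obtain ⟨c₁, c₂, hc₁, hc₂, z₀, hz₀, hbig⟩ := big d hd a ha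
  obtain ⟨N₀, hN₀⟩ := all_large d hd a ha hw u (X + z₀) hE
  refine ⟨N₀, fun N hN => ?_⟩
  obtain ⟨x, y, z₁, z₂, g1, g2, g3, g4⟩ := hN₀ N hN
  obtain ⟨t, ht1, ht2⟩ := one_vector d a u (X + z₀) x y z₁ z₂ g1 g2 g3
  refine ⟨t, fun i => ⟨by have := ht1 i; omega, ?_⟩, by rw [ht2, g4]⟩
  have h3 : (z₀ : ℝ) ≤ (t i : ℝ) := by
    have := ht1 i
    have : z₀ ≤ t i := by omega
    exact_mod_cast this
  exact le_trans (by positivity) (hbig _ h3).1.1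

/-- the number of pairs -/
lemma u_ok (d e : ℕ) : 2 * ((d : ℝ) + 1) * kap d ^ ⌈((d : ℝ) + 1) * Real.log (2 * ((d : ℝ) + 1) / (e + 1))⌉₊ ≤ e + 1 := by
  have hd0 : (0 : ℝ) < (d : ℝ) + 1 := by positivity
  have he0 : (0 : ℝ) < (e : ℝ) + 1 := by positivity
  obtain ⟨R, hR⟩ : ∃ R : ℝ, R = 2 * ((d : ℝ) + 1) / (e + 1) := ⟨_, rfl⟩
  rw [← hR]
  have hR0 : 0 < R := by rw [hR]; positivity
  obtain ⟨u, hu⟩ : ∃ u : ℕ, u = ⌈((d : ℝ) + 1) * Real.log R⌉₊ := ⟨_, rfl⟩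
  rw [← hu]
  have hu1 : ((d : ℝ) + 1) * Real.log R ≤ u := by rw [hu]; exact Nat.le_ceil _
  have h1 : kap d ≤ Real.exp (-(1 / ((d : ℝ) + 1))) := by
    have := Real.add_one_le_exp (-(1 / ((d : ℝ) + 1)))
    unfold kap
    linarith
  have h0 : 0 ≤ kap d := by
    unfold kap
    rw [sub_nonneg, div_le_one hd0]
    have : (0 : ℝ) ≤ d := Nat.cast_nonneg _
    linarith
  have h2 : kap d ^ u ≤ 1 / R := by
    calc kap d ^ u ≤ (Real.exp (-(1 / ((d : ℝ) + 1)))) ^ u := pow_le_pow_left₀ h0 h1 u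
      _ = Real.exp (-(u / ((d : ℝ) + 1))) := by
        rw [← Real.exp_nat_mul]; congr 1; ring
      _ ≤ Real.exp (-Real.log R) := by
        apply Real.exp_le_exp.2
        have : Real.log R ≤ u / ((d : ℝ) + 1) := by rw [le_div_iff₀ hd0]; linarith
        linarith
      _ = 1 / R := by rw [Real.exp_neg, Real.exp_log hR0, one_div]
  calc 2 * ((d : ℝ) + 1) * kap d ^ u ≤ 2 * ((d : ℝ) + 1) * (1 / R) := mul_le_mul_of_nonneg_left h2 (by positivity)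
    _ = e + 1 := by rw [hR]; field_simp

end Pool.Agent.Zk40.V
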