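import Pool.Agent.Zk40.V.Ex
import Pool.Agent.Zk40.W.Main

/-!
Waring's problem for almost all polynomials: the exponential sums over the two sets of variables.
-/

namespace Pool.Agent.Zk40.V

open Finset Filter Topology MeasureTheory
open Pool.Agent.Zk40.W (ES ES_triv ES_neg comb)

/-- the exponential sums over the two sets of variables -/
theorem exp_both (θ : ℝ) (h1 : 1 < θ) (w : ℕ → ℕ) (hw : ∃ C σ : ℝ, 0 < C ∧ 0 < σ ∧ σ ≤ 1 ∧ ∀ᶠ x : ℕ in atTop,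
    ∀ β : ℝ, 0 < β → β ≤ 1 / 2 → ‖ES (Ioc x (2 * x)) w β‖ ≤ C * ((x : ℝ) ^ (1 - θ) / β + (x : ℝ) ^ (1 - σ)))
    (C₁ : ℕ) (hC₁ : 1 ≤ C₁) : ∃ C σ : ℝ, 1 ≤ C ∧ 0 < σ ∧ σ ≤ 1 ∧
    ∀ᶠ P : ℕ in atTop, ∀ β : ℝ, |β| ≤ 1 / 2 →
    ‖ES (Ioc (C₁ * P) (4 * (C₁ * P))) w β‖ ≤ C * P / (1 + (P : ℝ) ^ θ * |β|) + C * (P : ℝ) ^ (1 - σ) ∧
    ‖ES (Ioc P (2 * P)) w β‖ ≤ C * P / (1 + (P : ℝ) ^ θ * |β|) + C * (P : ℝ) ^ (1 - σ) := by
  obtain ⟨C, σ, hC, hσ, hσ1, hev⟩ := hw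
  have hC₁r : (1 : ℝ) ≤ C₁ := by exact_mod_cast hC₁
  refine ⟨2 * (3 * C₁ + 3 * C * C₁), σ, by nlinarith [mul_pos hC (by linarith : (0 : ℝ) < C₁)], hσ, hσ1, ?_⟩
  have t1 : Tendsto (fun x : ℕ => C₁ * x) atTop atTop := tendsto_id.const_mul_atTop' (by omega)
  have t2 : Tendsto (fun x : ℕ => 2 * (C₁ * x)) atTop atTop := t1.const_mul_atTop' (by norm_num)
  filter_upwards [hev, t1.eventually hev, t2.eventually hev, eventually_ge_atTop 1] with P k1 k2 k3 hP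
  have hPr : (1 : ℝ) ≤ P := by exact_mod_cast hP
  have hP0 : (0 : ℝ) < P := by linarith
  have hN : 0 < (P : ℝ) ^ θ := by positivity
  have hPσ : 0 < (P : ℝ) ^ (1 - σ) := by positivity
  have hCC : 0 < C * C₁ := by positivity
  have hCC1 : C ≤ C * C₁ := le_mul_of_one_le_right hC.le hC₁r
  have hC₁0 : (0 : ℝ) < C₁ := by linarith
  have u1 : 2 * C ≤ 3 * C₁ + 3 * C * C₁ := by nlinarith
  have u2 : C ≤ 3 * C₁ + 3 * C * C₁ := by nlinarith
  have u3 : C ≤ 2 * (3 * C₁ + 3 * C * C₁) := by nlinarith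
  have u4 : 3 * C * C₁ ≤ 2 * (3 * C₁ + 3 * C * C₁) := by nlinarith
  -- monotonicity in the frequency sign
  have key : ∀ β : ℝ, 0 < β → β ≤ 1 / 2 →
      ‖ES (Ioc (C₁ * P) (4 * (C₁ * P))) w β‖ ≤ 2 * (3 * C₁ + 3 * C * C₁) * P / (1 + (P : ℝ) ^ θ * β) + 2 * (3 * C₁ + 3 * C * C₁) * (P : ℝ) ^ (1 - σ) ∧
      ‖ES (Ioc P (2 * P)) w β‖ ≤ 2 * (3 * C₁ + 3 * C * C₁) * P / (1 + (P : ℝ) ^ θ * β) + 2 * (3 * C₁ + 3 * C * C₁) * (P : ℝ) ^ (1 - σ) := by
    intro β hβ hβ2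
    have a1 := k1 β hβ hβ2
    have a2 := k2 β hβ hβ2
    have a3 := k3 β hβ hβ2
    have hPθ : (P : ℝ) ^ (1 - θ) / β = P / ((P : ℝ) ^ θ * β) := by
      rw [Real.rpow_sub hP0, Real.rpow_one]
      field_simp
    have hden : 0 < 1 + (P : ℝ) ^ θ * β := by positivity
    have hmono : ∀ y : ℕ, P ≤ y → (y : ℝ) ^ (1 - θ) ≤ (P : ℝ) ^ (1 - θ) := fun y hy =>
      Real.rpow_le_rpow_of_nonpos hP0 (by exact_mod_cast hy) (by linarith)
    have hup : ∀ c : ℝ, 1 ≤ c → (c * P) ^ (1 - σ) ≤ c * (P : ℝ) ^ (1 - σ) := by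
      intro c hc
      rw [Real.mul_rpow (by linarith) hP0.le]
      apply mul_le_mul_of_nonneg_right _ hPσ.le
      calc c ^ (1 - σ) ≤ c ^ (1 : ℝ) := Real.rpow_le_rpow_of_exponent_le hc (by linarith)
        _ = c := Real.rpow_one c
    have hPc : P ≤ C₁ * P := Nat.le_mul_of_pos_left P hC₁
    have hT : 0 < P / ((P : ℝ) ^ θ * β) := by positivity
    constructor
    · have hsplit : ES (Ioc (C₁ * P) (4 * (C₁ * P))) w β =
          ES (Ioc (C₁ * P) (2 * (C₁ * P))) w β + ES (Ioc (2 * (C₁ * P)) (2 * (2 * (C₁ * P)))) w β := by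
        unfold ES
        rw [← sum_union]
        · congr 1
          ext n; simp only [mem_union, mem_Ioc]; omega
        · rw [disjoint_left]
          intro n b1 b2
          simp only [mem_Ioc] at b1 b2
          omega
      have hb : ‖ES (Ioc (C₁ * P) (4 * (C₁ * P))) w β‖ ≤
          (2 * C * (P : ℝ)) / ((P : ℝ) ^ θ * β) + 3 * C * C₁ * (P : ℝ) ^ (1 - σ) := by
        rw [hsplit]
        refine (norm_add_le _ _).trans ((add_le_add a2 a3).trans ?_)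
        have b1 : ((C₁ * P : ℕ) : ℝ) ^ (1 - θ) / β ≤ P / ((P : ℝ) ^ θ * β) := by
          rw [← hPθ]
          exact div_le_div_of_nonneg_right (hmono _ hPc) hβ.le
        have b2 : ((2 * (C₁ * P) : ℕ) : ℝ) ^ (1 - θ) / β ≤ P / ((P : ℝ) ^ θ * β) := by
          rw [← hPθ]
          exact div_le_div_of_nonneg_right (hmono _ (by omega)) hβ.le
        have b3 : ((C₁ * P : ℕ) : ℝ) ^ (1 - σ) ≤ C₁ * (P : ℝ) ^ (1 - σ) := by
          push_cast; exact hup C₁ hC₁r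
        have b4 : ((2 * (C₁ * P) : ℕ) : ℝ) ^ (1 - σ) ≤ 2 * C₁ * (P : ℝ) ^ (1 - σ) := by
          push_cast
          rw [← mul_assoc]
          exact hup (2 * C₁) (by linarith)
        calc C * (((C₁ * P : ℕ) : ℝ) ^ (1 - θ) / β + ((C₁ * P : ℕ) : ℝ) ^ (1 - σ)) +
            C * (((2 * (C₁ * P) : ℕ) : ℝ) ^ (1 - θ) / β + ((2 * (C₁ * P) : ℕ) : ℝ) ^ (1 - σ))
            ≤ C * (P / ((P : ℝ) ^ θ * β) + C₁ * (P : ℝ) ^ (1 - σ)) +
              C * (P / ((P : ℝ) ^ θ * β) + 2 * C₁ * (P : ℝ) ^ (1 - σ)) := by gcongr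
          _ = _ := by ring
      have htriv : ‖ES (Ioc (C₁ * P) (4 * (C₁ * P))) w β‖ ≤ (3 * C₁ + 3 * C * C₁) * P := by
        refine (ES_triv _ _ _).trans ?_
        rw [Nat.card_Ioc, show 4 * (C₁ * P) - C₁ * P = 3 * (C₁ * P) by omega]
        push_cast
        nlinarith
      have := comb ((3 * C₁ + 3 * C * C₁) * P) ((P : ℝ) ^ θ) β _ (by positivity) hN hβ
        (2 * (3 * C₁ + 3 * C * C₁) * (P : ℝ) ^ (1 - σ)) (by positivity) htriv (by
          refine hb.trans (add_le_add ?_ ?_)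
          · exact div_le_div_of_nonneg_right (mul_le_mul_of_nonneg_right u1 hP0.le) (by positivity)
          · exact mul_le_mul_of_nonneg_right u4 hPσ.le)
      refine this.trans (le_of_eq ?_)
      ring
    · have htriv : ‖ES (Ioc P (2 * P)) w β‖ ≤ (3 * C₁ + 3 * C * C₁) * P := by
        refine (ES_triv _ _ _).trans ?_
        rw [Nat.card_Ioc, show 2 * P - P = P by omega]
        nlinarith
      have := comb ((3 * C₁ + 3 * C * C₁) * P) ((P : ℝ) ^ θ) β _ (by positivity) hN hβ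
        (2 * (3 * C₁ + 3 * C * C₁) * (P : ℝ) ^ (1 - σ)) (by positivity) htriv (by
          refine a1.trans ?_
          rw [hPθ, mul_add, mul_div_assoc']
          refine add_le_add ?_ ?_
          · exact div_le_div_of_nonneg_right (mul_le_mul_of_nonneg_right u2 hP0.le) (by positivity)
          · exact mul_le_mul_of_nonneg_right u3 hPσ.le)
      refine this.trans (le_of_eq ?_)
      ring
  intro β hβ
  rcases lt_trichotomy β 0 with h | h | h
  · have := key (-β) (by linarith) (by rw [abs_of_neg h] at hβ; exact hβ)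
    rw [ES_neg, ES_neg] at this
    rw [abs_of_neg h]
    exact this
  · rw [h, abs_zero, mul_zero, add_zero, div_one]
    constructor
    · refine (ES_triv _ _ _).trans ?_
      rw [Nat.card_Ioc, show 4 * (C₁ * P) - C₁ * P = 3 * (C₁ * P) by omega]
      push_cast
      nlinarith [mul_pos hCC hPσ, mul_pos hCC hP0]
    · refine (ES_triv _ _ _).trans ?_
      rw [Nat.card_Ioc, show 2 * P - P = P by omega]
      nlinarith [mul_pos hCC hPσ, mul_pos hCC hP0]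
  · rw [abs_of_pos h]
    exact key β h (by rw [abs_of_pos h] at hβ; exact hβ)

end Pool.Agent.Zk40.V
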