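import Pool.Agent.Zk40.V.Lev
import Pool.Agent.Zk40.W.Free
import Pool.Agent.Zk40.W.Count

/-!
Waring's problem for almost all polynomials: the number of the pairs of vectors with close values.
-/

namespace Pool.Agent.Zk40.V

open Finset
open Pool.Agent.Zk40.W (card_fib card_Y box_card)

/-- one more free pair -/
lemma free_step (F G : ℝ → ℝ) (Q : ℕ → ℕ) (n : ℕ) (R R' M : ℝ)
    (ih : ∀ c d : ℝ, ∀ S ⊆ W.Y Q n, (∀ y ∈ S, |SF F y - c| ≤ R) → (∀ y ∈ S, |SF G y - d| ≤ R') → (S.card : ℝ) ≤ M) :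
    ∀ c d : ℝ, ∀ S ⊆ W.Y Q (n + 1), (∀ y ∈ S, |SF F y - c| ≤ R) → (∀ y ∈ S, |SF G y - d| ≤ R') →
      (S.card : ℝ) ≤ M * ((W.box (Q n)).card : ℝ) := by
  intro c d S hS h1 h2
  have hM : 0 ≤ M := by
    have := ih 0 0 ∅ (empty_subset _) (by simp) (by simp)
    simpa using this
  have hfib := card_fib S (fun y : Fin (n + 1) → ℕ × ℕ => y (Fin.last n)) M (by
    intro p hp
    have hinj : Set.InjOn (fun (y : Fin (n + 1) → ℕ × ℕ) (j : Fin n) => y j.castSucc)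
        ((S.filter (fun y => y (Fin.last n) = p) : Finset _) : Set (Fin (n + 1) → ℕ × ℕ)) := by
      intro x hx y hy hxy
      have hx' := (mem_filter.1 (mem_coe.1 hx)).2
      have hy' := (mem_filter.1 (mem_coe.1 hy)).2
      funext j
      refine Fin.lastCases ?_ ?_ j
      · rw [hx', hy']
      · intro j'
        exact congrFun hxy j'
    rw [← card_image_of_injOn hinj]
    apply ih (c - (F (p.1 : ℝ) + F (p.2 : ℝ))) (d - (G (p.1 : ℝ) + G (p.2 : ℝ)))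
    · intro z hz
      rw [mem_image] at hz
      obtain ⟨y, hy, rfl⟩ := hz
      have := Fintype.mem_piFinset.1 (hS (mem_filter.1 hy).1)
      apply Fintype.mem_piFinset.2
      intro j
      exact this j.castSucc
    · intro z hz
      rw [mem_image] at hz
      obtain ⟨y, hy, rfl⟩ := hz
      have e1 := h1 y (mem_filter.1 hy).1
      rw [SF_succ, (mem_filter.1 hy).2] at e1
      have e3 : SF F (fun j : Fin n => y j.castSucc) - (c - (F (p.1 : ℝ) + F (p.2 : ℝ))) =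
        SF F (fun j : Fin n => y j.castSucc) + (F (p.1 : ℝ) + F (p.2 : ℝ)) - c := by ring
      rw [e3]; exact e1
    · intro z hz
      rw [mem_image] at hz
      obtain ⟨y, hy, rfl⟩ := hz
      have e1 := h2 y (mem_filter.1 hy).1
      rw [SF_succ, (mem_filter.1 hy).2] at e1
      have e3 : SF G (fun j : Fin n => y j.castSucc) - (d - (G (p.1 : ℝ) + G (p.2 : ℝ))) =
        SF G (fun j : Fin n => y j.castSucc) + (G (p.1 : ℝ) + G (p.2 : ℝ)) - d := by ring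
      rw [e3]; exact e1)
  refine hfib.trans ?_
  have himg : ((S.image (fun y : Fin (n + 1) → ℕ × ℕ => y (Fin.last n))).card : ℝ) ≤ ((W.box (Q n)).card : ℝ) := by
    have : S.image (fun y : Fin (n + 1) → ℕ × ℕ => y (Fin.last n)) ⊆ W.box (Q n) := by
      intro p hp
      rw [mem_image] at hp
      obtain ⟨y, hy, rfl⟩ := hp
      have := Fintype.mem_piFinset.1 (hS hy) (Fin.last n)
      simpa using this
    exact_mod_cast card_le_card this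
  exact mul_le_mul_of_nonneg_left himg hM

/-- the number of the vectors with free last pairs -/
theorem level_free (d e : ℕ) (hde : e ≤ d) (c₁ c₂ c₃ Λ : ℝ) (h1 : 0 < c₁) (h3 : 0 < c₃) (hΛ : 1 ≤ Λ) (i u : ℕ)
    (hiu : i < u) (K : ℝ) (hK : 1 ≤ K) : ∃ C : ℝ, 1 ≤ C ∧ ∀ (Q₀ : ℕ) (F G F' G' : ℝ → ℝ), Dat d e c₁ c₂ c₃ Q₀ F G F' G' →
    ∀ (Q : ℕ → ℕ), Sc d Q₀ u Λ Q → ∀ Tm Tn c c' : ℝ, (Q i : ℝ) ^ d ≤ Tm → Tm ≤ K * (Q i : ℝ) ^ (d + 1) →
    Tm * (Q i : ℝ) ^ e ≤ Tn * (Q i : ℝ) ^ d → ∀ S ⊆ W.Y Q u, (∀ y ∈ S, |SF F y - c| ≤ Tm) →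
    (∀ y ∈ S, |SF G y - c'| ≤ Tn) →
    (S.card : ℝ) * ((Q 0 : ℝ) ^ (d + 1) * (Q 0 : ℝ) ^ (e + 1)) ≤ C * Tm * Tn * (W.Y Q u).card := by
  obtain ⟨C, hC, hI⟩ := level d e hde c₁ c₂ c₃ Λ h1 h3 hΛ i K hK
  refine ⟨C, hC, ?_⟩
  intro Q₀ F G F' G' D Q hs Tm Tn c c' t1 t2 t3 S hS hF hG
  have hq0 : (1 : ℝ) ≤ Q 0 := by exact_mod_cast hs.one 0
  have hqi : (1 : ℝ) ≤ Q i := by exact_mod_cast hs.one i
  have hTm0 : 0 < Tm := lt_of_lt_of_le (by positivity) t1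
  have hTn0 : 0 < Tn := by
    have : 0 < Tn * (Q i : ℝ) ^ d := lt_of_lt_of_le (by positivity) t3
    exact pos_of_mul_pos_left this (by positivity)
  obtain ⟨X, hX⟩ : ∃ X : ℝ, X = (Q 0 : ℝ) ^ (d + 1) * (Q 0 : ℝ) ^ (e + 1) := ⟨_, rfl⟩
  have hX0 : 0 < X := by rw [hX]; positivity
  have main : ∀ n, i + 1 ≤ n → ∀ c c' : ℝ, ∀ S ⊆ W.Y Q n, (∀ y ∈ S, |SF F y - c| ≤ Tm) → (∀ y ∈ S, |SF G y - c'| ≤ Tn) →
      (S.card : ℝ) ≤ (C * Tm * Tn * ∏ l ∈ range (i + 1), (Q l : ℝ) ^ 2) / X * ∏ l ∈ Ico (i + 1) n, ((W.box (Q l)).card : ℝ) := by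
    intro n hn
    induction n, hn using Nat.le_induction with
    | base =>
      intro c c' S hS hF hG
      rw [Ico_self, prod_empty, mul_one, le_div_iff₀ hX0, hX]
      exact hI Q₀ F G F' G' D u Q hs hiu Tm Tn c c' t1 t2 t3 S hS hF hG
    | succ n hn ih =>
      intro c c' S hS hF hG
      rw [prod_Ico_succ_top hn, ← mul_assoc]
      exact free_step F G Q n _ _ _ ih c c' S hS hF hG
  have hfin := main u (by omega) c c' S hS hF hG
  rw [← hX]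
  have hprod : (∏ l ∈ range (i + 1), (Q l : ℝ) ^ 2) * ∏ l ∈ Ico (i + 1) u, ((W.box (Q l)).card : ℝ) ≤ (W.Y Q u).card := by
    rw [card_Y, ← prod_range_mul_prod_Ico _ (show i + 1 ≤ u by omega)]
    apply mul_le_mul_of_nonneg_right _ (by positivity)
    apply prod_le_prod
    · intro l _; positivity
    · intro l _
      rw [box_card]
      have : (0 : ℝ) ≤ Q l := Nat.cast_nonneg _
      nlinarith
  calc (S.card : ℝ) * X ≤ ((C * Tm * Tn * ∏ l ∈ range (i + 1), (Q l : ℝ) ^ 2) / X *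
        ∏ l ∈ Ico (i + 1) u, ((W.box (Q l)).card : ℝ)) * X := mul_le_mul_of_nonneg_right hfin hX0.le
    _ = C * Tm * Tn * ((∏ l ∈ range (i + 1), (Q l : ℝ) ^ 2) * ∏ l ∈ Ico (i + 1) u, ((W.box (Q l)).card : ℝ)) := by
      field_simp
    _ ≤ _ := mul_le_mul_of_nonneg_left hprod (by positivity)

/-- the number of the pairs of vectors with close values -/
theorem pairs_count (d e : ℕ) (hde : e ≤ d) (c₁ c₂ c₃ Λ : ℝ) (h1 : 0 < c₁) (h3 : 0 < c₃) (hΛ : 1 ≤ Λ) (u : ℕ)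
    (hu : 1 ≤ u) (K₁ K₂ : ℝ) (hK₁ : 1 ≤ K₁) (hK₂ : 1 ≤ K₂) : ∃ C : ℝ, 1 ≤ C ∧ ∀ (Q₀ : ℕ) (F G F' G' : ℝ → ℝ),
    Dat d e c₁ c₂ c₃ Q₀ F G F' G' → ∀ (Q : ℕ → ℕ), Sc d Q₀ u Λ Q → ∀ T : ℝ, (Q (u - 1) : ℝ) ^ d ≤ T →
    T ≤ K₂ * (Q 0 : ℝ) ^ (d + 1) →
    (((W.Y Q u ×ˢ W.Y Q u).filter (fun p => |SF F p.1 - SF F p.2| ≤ K₁ * T ∧ |SF G p.1 - SF G p.2| ≤ K₁ * T)).card : ℝ) *
      ((Q 0 : ℝ) ^ (d + 1) * (Q 0 : ℝ) ^ (e + 1)) ≤ C * T ^ 2 * ((W.Y Q u).card : ℝ) ^ 2 := by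
  classical
  obtain ⟨K, hK⟩ : ∃ K : ℝ, K = K₁ * (K₂ + Λ) := ⟨_, rfl⟩
  have hK1 : 1 ≤ K := by rw [hK]; nlinarith
  choose! C hC hI using fun (i : ℕ) (hi : i < u) => level_free d e hde c₁ c₂ c₃ Λ h1 h3 hΛ i u hi K hK1
  have hC0 : ∀ i ∈ range u, 0 ≤ C i := fun i hi => le_trans (by norm_num) (hC i (mem_range.1 hi))
  refine ⟨1 + (∑ i ∈ range u, C i) * K₁ ^ 2, ?_, ?_⟩
  · have : 0 ≤ (∑ i ∈ range u, C i) * K₁ ^ 2 := mul_nonneg (sum_nonneg hC0) (sq_nonneg _)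
    linarith
  intro Q₀ F G F' G' D Q hs T hT1 hT2
  have hQ : ∀ l, (1 : ℝ) ≤ Q l := fun l => by exact_mod_cast hs.one l
  have hT0 : 0 < T := by
    have : (0 : ℝ) < Q (u - 1) := by linarith [hQ (u - 1)]
    exact lt_of_lt_of_le (by positivity) hT1
  -- the choice of the level
  have hex : ∃ i : ℕ, (Q i : ℝ) ^ d ≤ T := ⟨u - 1, hT1⟩
  set i := Nat.find hex with hi
  have hi1 : (Q i : ℝ) ^ d ≤ T := Nat.find_spec hex
  have hiu : i < u := by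
    have := Nat.find_min' hex hT1
    omega
  have hTup : T ≤ (K₂ + Λ) * (Q i : ℝ) ^ (d + 1) := by
    have hp : 0 < (Q i : ℝ) ^ (d + 1) := by
      have := hQ i
      positivity
    rcases Nat.eq_zero_or_pos i with h0 | h0
    · rw [h0] at hp ⊢
      nlinarith
    · have h1 := Nat.find_min hex (show i - 1 < i by omega)
      push Not at h1
      have h2 := hs.up (i - 1)
      rw [show i - 1 + 1 = i by omega] at h2
      nlinarith
  have hone : ∀ y ∈ W.Y Q u, (((W.Y Q u).filter (fun x => |SF F x - SF F y| ≤ K₁ * T ∧ |SF G x - SF G y| ≤ K₁ * T)).card : ℝ) *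
      ((Q 0 : ℝ) ^ (d + 1) * (Q 0 : ℝ) ^ (e + 1)) ≤ (1 + (∑ i ∈ range u, C i) * K₁ ^ 2) * T ^ 2 * ((W.Y Q u).card : ℝ) := by
    intro y _
    have h1 := hI i hiu Q₀ F G F' G' D Q hs (K₁ * T) (K₁ * T) (SF F y) (SF G y)
      (hi1.trans (le_mul_of_one_le_left hT0.le hK₁))
      (by
        rw [hK, mul_assoc]
        exact mul_le_mul_of_nonneg_left hTup (by linarith))
      (by
        apply mul_le_mul_of_nonneg_left _ (by positivity)
        exact pow_le_pow_right₀ (hQ i) hde)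
      ((W.Y Q u).filter (fun x => |SF F x - SF F y| ≤ K₁ * T ∧ |SF G x - SF G y| ≤ K₁ * T)) (filter_subset _ _)
      (by intro x hx; exact (mem_filter.1 hx).2.1)
      (by intro x hx; exact (mem_filter.1 hx).2.2)
    refine h1.trans ?_
    have hCi : C i ≤ ∑ i ∈ range u, C i := single_le_sum hC0 (mem_range.2 hiu)
    have : C i * K₁ ^ 2 ≤ 1 + (∑ i ∈ range u, C i) * K₁ ^ 2 := by
      have := mul_le_mul_of_nonneg_right hCi (sq_nonneg K₁)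
      linarith
    calc C i * (K₁ * T) * (K₁ * T) * ((W.Y Q u).card : ℝ) = (C i * K₁ ^ 2) * T ^ 2 * ((W.Y Q u).card : ℝ) := by ring
      _ ≤ _ := by gcongr
  have hcard : (((W.Y Q u ×ˢ W.Y Q u).filter (fun p => |SF F p.1 - SF F p.2| ≤ K₁ * T ∧ |SF G p.1 - SF G p.2| ≤ K₁ * T)).card : ℝ) =
      ∑ y ∈ W.Y Q u, (((W.Y Q u).filter (fun x => |SF F x - SF F y| ≤ K₁ * T ∧ |SF G x - SF G y| ≤ K₁ * T)).card : ℝ) := by
    rw [card_filter, sum_product_right]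
    push_cast
    apply sum_congr rfl
    intro y _
    rw [card_filter]
    push_cast
    rfl
  rw [hcard, sum_mul]
  calc _ ≤ ∑ _y ∈ W.Y Q u, (1 + (∑ i ∈ range u, C i) * K₁ ^ 2) * T ^ 2 * ((W.Y Q u).card : ℝ) := sum_le_sum hone
    _ = _ := by rw [sum_const, nsmul_eq_mul]; ring

end Pool.Agent.Zk40.V
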