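import Pool.Agent.Zk40.V.Cnt

/-!
Waring's problem for almost all polynomials: the conditions on the two functions hold for polynomials.
-/

namespace Pool.Agent.Zk40.V

open Finset

/-- a polynomial of degree at most `n` with coefficients `a` -/
noncomputable def pv (n : ℕ) (a : ℕ → ℝ) (x : ℝ) : ℝ := ∑ i ∈ range (n + 1), a i * x ^ i

/-- its derivative -/
noncomputable def pd (n : ℕ) (a : ℕ → ℝ) (x : ℝ) : ℝ := ∑ i ∈ range (n + 1), a i * (i * x ^ (i - 1))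

lemma pv_der (n : ℕ) (a : ℕ → ℝ) (x : ℝ) : HasDerivAt (pv n a) (pd n a x) x := by
  unfold pv pd
  have := HasDerivAt.fun_sum (u := range (n + 1)) (x := x) (A := fun i (x : ℝ) => a i * x ^ i)
    (A' := fun i => a i * (i * x ^ (i - 1))) (fun i _ => (hasDerivAt_pow i x).const_mul (a i))
  exact this

lemma pv_tail (n : ℕ) (a : ℕ → ℝ) (B x : ℝ) (hx : 1 ≤ x) (ha : ∀ i, i ≤ n → |a i| ≤ B) :
    |pv n a x - a n * x ^ n| * x ≤ n * B * x ^ n := by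
  unfold pv
  rw [sum_range_succ, add_sub_cancel_right]
  have hB : 0 ≤ B := (abs_nonneg _).trans (ha 0 (Nat.zero_le _))
  calc |∑ i ∈ range n, a i * x ^ i| * x ≤ (∑ i ∈ range n, |a i * x ^ i|) * x :=
        mul_le_mul_of_nonneg_right (abs_sum_le_sum_abs _ _) (by linarith)
    _ = ∑ i ∈ range n, |a i| * (x ^ i * x) := by
        rw [sum_mul]
        apply sum_congr rfl
        intro i _
        rw [abs_mul, abs_of_nonneg (show 0 ≤ x ^ i by positivity)]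
        ring
    _ ≤ ∑ _i ∈ range n, B * x ^ n := by
        apply sum_le_sum
        intro i hi
        rw [mem_range] at hi
        have : x ^ i * x ≤ x ^ n := by
          rw [← pow_succ]
          exact pow_le_pow_right₀ hx (by omega)
        exact mul_le_mul (ha i hi.le) this (by positivity) hB
    _ = n * B * x ^ n := by rw [sum_const, card_range, nsmul_eq_mul]; ring

lemma pv_abs (n : ℕ) (a : ℕ → ℝ) (B x : ℝ) (hx : 1 ≤ x) (ha : ∀ i, i ≤ n → |a i| ≤ B) :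
    |pv n a x| ≤ (n + 1) * B * x ^ n := by
  unfold pv
  have hB : 0 ≤ B := (abs_nonneg _).trans (ha 0 (Nat.zero_le _))
  calc |∑ i ∈ range (n + 1), a i * x ^ i| ≤ ∑ i ∈ range (n + 1), |a i * x ^ i| := abs_sum_le_sum_abs _ _
    _ ≤ ∑ _i ∈ range (n + 1), B * x ^ n := by
        apply sum_le_sum
        intro i hi
        rw [mem_range] at hi
        rw [abs_mul, abs_of_nonneg (show 0 ≤ x ^ i by positivity)]
        exact mul_le_mul (ha i (by omega)) (pow_le_pow_right₀ hx (by omega)) (by positivity) hB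
    _ = _ := by rw [sum_const, card_range, nsmul_eq_mul]; push_cast; ring

lemma pd_tail (n : ℕ) (a : ℕ → ℝ) (B x : ℝ) (hx : 1 ≤ x) (ha : ∀ i, i ≤ n + 1 → |a i| ≤ B) :
    |pd (n + 1) a x - a (n + 1) * ((n + 1) * x ^ n)| * x ≤ (n + 1) ^ 2 * B * x ^ n := by
  unfold pd
  rw [sum_range_succ]
  simp only [Nat.add_sub_cancel]
  have hB : 0 ≤ B := (abs_nonneg _).trans (ha 0 (Nat.zero_le _))
  have h1 : ∑ i ∈ range (n + 1), a i * (↑i * x ^ (i - 1)) + a (n + 1) * (((n + 1 : ℕ) : ℝ) * x ^ n) -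
      a (n + 1) * ((n + 1) * x ^ n) = ∑ i ∈ range (n + 1), a i * (↑i * x ^ (i - 1)) := by
    push_cast; ring
  rw [h1]
  calc |∑ i ∈ range (n + 1), a i * (↑i * x ^ (i - 1))| * x ≤ (∑ i ∈ range (n + 1), |a i * (↑i * x ^ (i - 1))|) * x :=
        mul_le_mul_of_nonneg_right (abs_sum_le_sum_abs _ _) (by linarith)
    _ = ∑ i ∈ range (n + 1), |a i| * (↑i * (x ^ (i - 1) * x)) := by
        rw [sum_mul]
        apply sum_congr rfl
        intro i _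
        rw [abs_mul, abs_of_nonneg (show 0 ≤ (i : ℝ) * x ^ (i - 1) by positivity)]
        ring
    _ ≤ ∑ _i ∈ range (n + 1), B * ((n + 1) * x ^ n) := by
        apply sum_le_sum
        intro i hi
        rw [mem_range] at hi
        apply mul_le_mul (ha i (by omega)) _ (by positivity) hB
        rcases Nat.eq_zero_or_pos i with h0 | h0
        · rw [h0]; simp; positivity
        · have e1 : x ^ (i - 1) * x ≤ x ^ n := by
            rw [← pow_succ]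
            exact pow_le_pow_right₀ hx (by omega)
          have e2 : (i : ℝ) ≤ n + 1 := by
            have : i ≤ n + 1 := by omega
            exact_mod_cast this
          exact mul_le_mul e2 e1 (by positivity) (by positivity)
    _ = _ := by rw [sum_const, card_range, nsmul_eq_mul]; push_cast; ring

lemma pd_abs (n : ℕ) (a : ℕ → ℝ) (B x : ℝ) (hx : 1 ≤ x) (ha : ∀ i, i ≤ n + 1 → |a i| ≤ B) :
    |pd (n + 1) a x| ≤ 2 * (n + 1) ^ 2 * B * x ^ n := by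
  have hB : 0 ≤ B := (abs_nonneg _).trans (ha 0 (Nat.zero_le _))
  have h1 := pd_tail n a B x hx ha
  have h2 : |pd (n + 1) a x - a (n + 1) * ((n + 1) * x ^ n)| ≤ (n + 1) ^ 2 * B * x ^ n := by
    refine le_trans ?_ h1
    exact le_mul_of_one_le_right (abs_nonneg _) hx
  have h3 : |a (n + 1) * ((n + 1) * x ^ n)| ≤ (n + 1) ^ 2 * B * x ^ n := by
    rw [abs_mul, abs_of_nonneg (show 0 ≤ ((n : ℝ) + 1) * x ^ n by positivity)]
    calc |a (n + 1)| * (((n : ℝ) + 1) * x ^ n) ≤ B * (((n : ℝ) + 1) * x ^ n) :=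
          mul_le_mul_of_nonneg_right (ha _ le_rfl) (by positivity)
      _ ≤ (n + 1) ^ 2 * B * x ^ n := by
        have e1 : (1 : ℝ) ≤ (n : ℝ) + 1 := by linarith [show (0 : ℝ) ≤ n from Nat.cast_nonneg n]
        have e2 : 0 ≤ B * (((n : ℝ) + 1) * x ^ n) := by positivity
        nlinarith
  have h4 := abs_add_le (pd (n + 1) a x - a (n + 1) * ((n + 1) * x ^ n)) (a (n + 1) * ((n + 1) * x ^ n))
  rw [sub_add_cancel] at h4
  linarith

lemma pow_gap (a b : ℝ) (m : ℕ) (ha : 0 ≤ a) (hab : 3 * a ≤ 2 * b) : b ^ (m + 1) / 3 ≤ b ^ (m + 1) - a ^ (m + 1) := by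
  have hb : 0 ≤ b := by linarith
  have h1 : a ^ (m + 1) ≤ a * b ^ m := by
    rw [pow_succ, mul_comm]
    exact mul_le_mul_of_nonneg_left (pow_le_pow_left₀ ha (by linarith) m) ha
  have h2 : b ^ (m + 1) = b * b ^ m := by rw [pow_succ, mul_comm]
  have h3 : 0 ≤ b ^ m := by positivity
  rw [h2]
  nlinarith

/-- the conditions for two polynomials -/
theorem dat_pol (d e : ℕ) (hde : e < d) (l₀ b₀ B : ℝ) (hl₀ : 0 < l₀) (hb₀ : 0 < b₀) (hB : 0 < B) :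
    ∃ c₁ c₂ c₃ : ℝ, 0 < c₁ ∧ 0 < c₂ ∧ 0 < c₃ ∧ ∃ Q₀ : ℕ, 1 ≤ Q₀ ∧ ∀ a b : ℕ → ℝ, (∀ i, i ≤ d + 1 → |a i| ≤ B) →
    (∀ i, i ≤ e + 1 → |b i| ≤ B) → l₀ ≤ a (d + 1) → b₀ ≤ |b (e + 1)| →
    Dat d e c₁ c₂ c₃ Q₀ (pv (d + 1) a) (pv (e + 1) b) (pd (d + 1) a) (pd (e + 1) b) := by
  obtain ⟨R, hR⟩ : ∃ R : ℝ, R = ((d : ℝ) + 1) ^ 2 * B := ⟨_, rfl⟩
  have hR0 : 0 < R := by rw [hR]; positivity
  obtain ⟨c₁, hc₁⟩ : ∃ c₁ : ℝ, c₁ = ((d : ℝ) + 1) * l₀ / 2 := ⟨_, rfl⟩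
  obtain ⟨c₂, hc₂⟩ : ∃ c₂ : ℝ, c₂ = (2 * ((d : ℝ) + 1) ^ 2 + (d + 2)) * B * 4 ^ (d + 1) := ⟨_, rfl⟩
  obtain ⟨m₀, hm₀⟩ : ∃ m₀ : ℝ, m₀ = ((d : ℝ) + 1) * (e + 1) * l₀ * b₀ := ⟨_, rfl⟩
  have hm₀0 : 0 < m₀ := by rw [hm₀]; positivity
  have hc₂0 : 0 < c₂ := by rw [hc₂]; positivity
  obtain ⟨Q₀, hQ₀⟩ : ∃ Q₀ : ℕ, Q₀ = ⌈2 * R / (((d : ℝ) + 1) * l₀)⌉₊ + ⌈24 * c₂ * R * 4 ^ (d + 1) / m₀⌉₊ + 1 := ⟨_, rfl⟩
  have hQa : 2 * R / (((d : ℝ) + 1) * l₀) ≤ Q₀ := by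
    rw [hQ₀]; push_cast
    have := Nat.le_ceil (2 * R / (((d : ℝ) + 1) * l₀))
    have : (0 : ℝ) ≤ (⌈24 * c₂ * R * 4 ^ (d + 1) / m₀⌉₊ : ℝ) := Nat.cast_nonneg _
    linarith
  have hQb : 24 * c₂ * R * 4 ^ (d + 1) / m₀ ≤ Q₀ := by
    rw [hQ₀]; push_cast
    have := Nat.le_ceil (24 * c₂ * R * 4 ^ (d + 1) / m₀)
    have : (0 : ℝ) ≤ (⌈2 * R / (((d : ℝ) + 1) * l₀)⌉₊ : ℝ) := Nat.cast_nonneg _
    linarith
  have hQ1 : 1 ≤ Q₀ := by omega
  refine ⟨c₁, c₂, m₀ / 6, by rw [hc₁]; positivity, hc₂0, by positivity, Q₀, hQ1, ?_⟩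
  intro a b ha hb hal hbb
  have hQge : ∀ Q : ℕ, Q₀ ≤ Q → (1 : ℝ) ≤ Q := fun Q hQ => by exact_mod_cast hQ1.trans hQ
  have h4d : ∀ m : ℕ, m ≤ d + 1 → (4 : ℝ) ^ m ≤ 4 ^ (d + 1) := fun m hm => pow_le_pow_right₀ (by norm_num) hm
  have hdr : (0 : ℝ) ≤ d := Nat.cast_nonneg _
  have her : (0 : ℝ) ≤ e := Nat.cast_nonneg _
  have hed : (e : ℝ) + 1 ≤ d + 1 := by
    have : e + 1 ≤ d + 1 := by omega
    exact_mod_cast this
  have hR2 : ((e : ℝ) + 1) ^ 2 * B ≤ R := by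
    rw [hR]
    apply mul_le_mul_of_nonneg_right _ hB.le
    exact pow_le_pow_left₀ (by linarith) hed 2
  have hxpow : ∀ (Q : ℕ), Q₀ ≤ Q → ∀ x : ℝ, (Q : ℝ) ≤ x → x ≤ 4 * Q → ∀ m : ℕ, m ≤ d + 1 →
      (Q : ℝ) ^ m ≤ x ^ m ∧ x ^ m ≤ 4 ^ (d + 1) * (Q : ℝ) ^ m := by
    intro Q hQ x hx1 hx2 m hm
    have := hQge Q hQ
    refine ⟨pow_le_pow_left₀ (by linarith) hx1 m, ?_⟩
    calc x ^ m ≤ (4 * (Q : ℝ)) ^ m := pow_le_pow_left₀ (by linarith) hx2 m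
      _ = 4 ^ m * (Q : ℝ) ^ m := mul_pow _ _ _
      _ ≤ _ := mul_le_mul_of_nonneg_right (h4d m hm) (by positivity)
  have hFabs : ∀ (Q : ℕ), Q₀ ≤ Q → ∀ x : ℝ, (Q : ℝ) ≤ x → x ≤ 4 * Q → |pd (d + 1) a x| ≤ c₂ * (Q : ℝ) ^ d := by
    intro Q hQ x hx1 hx2
    have h1 := pd_abs d a B x (by linarith [hQge Q hQ]) ha
    have h2 := (hxpow Q hQ x hx1 hx2 d (by omega)).2
    refine h1.trans ?_
    calc 2 * ((d : ℝ) + 1) ^ 2 * B * x ^ d ≤ 2 * ((d : ℝ) + 1) ^ 2 * B * (4 ^ (d + 1) * (Q : ℝ) ^ d) := by gcongr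
      _ ≤ c₂ * (Q : ℝ) ^ d := by
        rw [hc₂]
        have : 0 ≤ ((d : ℝ) + 2) * B * 4 ^ (d + 1) * (Q : ℝ) ^ d := by positivity
        linarith
  have hGabs : ∀ (Q : ℕ), Q₀ ≤ Q → ∀ x : ℝ, (Q : ℝ) ≤ x → x ≤ 4 * Q → |pd (e + 1) b x| ≤ c₂ * (Q : ℝ) ^ e := by
    intro Q hQ x hx1 hx2
    have h1 := pd_abs e b B x (by linarith [hQge Q hQ]) hb
    have h2 := (hxpow Q hQ x hx1 hx2 e (by omega)).2
    have hx0 : 0 ≤ x := by linarith [hQge Q hQ]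
    refine h1.trans ?_
    calc 2 * ((e : ℝ) + 1) ^ 2 * B * x ^ e ≤ 2 * ((d : ℝ) + 1) ^ 2 * B * (4 ^ (d + 1) * (Q : ℝ) ^ e) := by gcongr
      _ ≤ c₂ * (Q : ℝ) ^ e := by
        rw [hc₂]
        have : 0 ≤ ((d : ℝ) + 2) * B * 4 ^ (d + 1) * (Q : ℝ) ^ e := by positivity
        linarith
  refine ⟨pv_der _ _, pv_der _ _, ?_, hGabs, ?_, ?_, ?_⟩
  · -- the derivative of `F`
    intro Q hQ x hx1 hx2
    have hx : 1 ≤ x := by linarith [hQge Q hQ]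
    refine ⟨?_, (le_abs_self _).trans (hFabs Q hQ x hx1 hx2)⟩
    have h1 := pd_tail d a B x hx ha
    rw [← hR] at h1
    have h2 : |pd (d + 1) a x - a (d + 1) * ((d + 1) * x ^ d)| * x ≤ (((d : ℝ) + 1) * l₀ / 2 * x ^ d) * x := by
      refine h1.trans ?_
      have e1 : R ≤ ((d : ℝ) + 1) * l₀ / 2 * x := by
        rw [div_le_iff₀ (by positivity)] at hQa
        have e2 : (Q₀ : ℝ) ≤ x := by
          have : (Q₀ : ℝ) ≤ Q := by exact_mod_cast hQ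
          linarith
        have e3 : (Q₀ : ℝ) * (((d : ℝ) + 1) * l₀) ≤ x * (((d : ℝ) + 1) * l₀) :=
          mul_le_mul_of_nonneg_right e2 (by positivity)
        linarith
      have := mul_le_mul_of_nonneg_right e1 (show 0 ≤ x ^ d by positivity)
      linarith
    have h3 := le_of_mul_le_mul_right h2 (by linarith)
    rw [abs_le] at h3
    have h4 : l₀ * ((d + 1) * x ^ d) ≤ a (d + 1) * ((d + 1) * x ^ d) := mul_le_mul_of_nonneg_right hal (by positivity)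
    have h5 := mul_le_mul_of_nonneg_left (hxpow Q hQ x hx1 hx2 d (by omega)).1 (show 0 ≤ ((d : ℝ) + 1) * l₀ / 2 by positivity)
    rw [hc₁]
    linarith [h3.1]
  · -- separation
    intro Q hQ p q hp1 hp2 hq1 hq2
    have hQ1' := hQge Q hQ
    have hQ0 : (0 : ℝ) < Q := by linarith
    have hp : 1 ≤ p := by linarith
    have hq : 1 ≤ q := by linarith
    -- the remainders
    have rF : ∀ x : ℝ, (Q : ℝ) ≤ x → x ≤ 4 * Q →
        |pd (d + 1) a x - a (d + 1) * ((d + 1) * x ^ d)| * Q ≤ R * 4 ^ (d + 1) * (Q : ℝ) ^ d := by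
      intro x h1 h2
      have h3 := pd_tail d a B x (by linarith) ha
      rw [← hR] at h3
      have h4 : |pd (d + 1) a x - a (d + 1) * ((d + 1) * x ^ d)| * Q ≤
          |pd (d + 1) a x - a (d + 1) * ((d + 1) * x ^ d)| * x := mul_le_mul_of_nonneg_left h1 (abs_nonneg _)
      have h5 := mul_le_mul_of_nonneg_left (hxpow Q hQ x h1 h2 d (by omega)).2 hR0.le
      linarith
    have rG : ∀ x : ℝ, (Q : ℝ) ≤ x → x ≤ 4 * Q →
        |pd (e + 1) b x - b (e + 1) * ((e + 1) * x ^ e)| * Q ≤ R * 4 ^ (d + 1) * (Q : ℝ) ^ e := by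
      intro x h1 h2
      have h3 := pd_tail e b B x (by linarith) hb
      have h4 : |pd (e + 1) b x - b (e + 1) * ((e + 1) * x ^ e)| * Q ≤
          |pd (e + 1) b x - b (e + 1) * ((e + 1) * x ^ e)| * x := mul_le_mul_of_nonneg_left h1 (abs_nonneg _)
      have h5 := mul_le_mul_of_nonneg_left (hxpow Q hQ x h1 h2 e (by omega)).2 hR0.le
      have hx0 : 0 ≤ x := by linarith
      have h6 : ((e : ℝ) + 1) ^ 2 * B * x ^ e ≤ R * x ^ e := mul_le_mul_of_nonneg_right hR2 (by positivity)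
      linarith
    have mF : ∀ x : ℝ, (Q : ℝ) ≤ x → x ≤ 4 * Q → |a (d + 1) * ((d + 1) * x ^ d)| ≤ c₂ * (Q : ℝ) ^ d := by
      intro x h1 h2
      have h5 := (hxpow Q hQ x h1 h2 d (by omega)).2
      have hx0 : 0 ≤ x := by linarith
      rw [abs_mul, abs_of_nonneg (show 0 ≤ ((d : ℝ) + 1) * x ^ d by positivity)]
      calc |a (d + 1)| * (((d : ℝ) + 1) * x ^ d) ≤ B * (((d : ℝ) + 1) * (4 ^ (d + 1) * (Q : ℝ) ^ d)) := by
            gcongr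
            exact ha _ le_rfl
        _ ≤ c₂ * (Q : ℝ) ^ d := by
            rw [hc₂]
            have : 0 ≤ (2 * ((d : ℝ) + 1) ^ 2 + 1) * B * 4 ^ (d + 1) * (Q : ℝ) ^ d := by positivity
            linarith
    have mG : ∀ x : ℝ, (Q : ℝ) ≤ x → x ≤ 4 * Q → |b (e + 1) * ((e + 1) * x ^ e)| ≤ c₂ * (Q : ℝ) ^ e := by
      intro x h1 h2
      have h5 := (hxpow Q hQ x h1 h2 e (by omega)).2
      have hx0 : 0 ≤ x := by linarith
      rw [abs_mul, abs_of_nonneg (show 0 ≤ ((e : ℝ) + 1) * x ^ e by positivity)]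
      calc |b (e + 1)| * (((e : ℝ) + 1) * x ^ e) ≤ B * (((d : ℝ) + 1) * (4 ^ (d + 1) * (Q : ℝ) ^ e)) := by
            gcongr
            exact hb _ le_rfl
        _ ≤ c₂ * (Q : ℝ) ^ e := by
            rw [hc₂]
            have : 0 ≤ (2 * ((d : ℝ) + 1) ^ 2 + 1) * B * 4 ^ (d + 1) * (Q : ℝ) ^ e := by positivity
            linarith
    obtain ⟨φp, hφp⟩ : ∃ φp : ℝ, φp = a (d + 1) * ((d + 1) * p ^ d) := ⟨_, rfl⟩
    obtain ⟨φq, hφq⟩ : ∃ φq : ℝ, φq = a (d + 1) * ((d + 1) * q ^ d) := ⟨_, rfl⟩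
    obtain ⟨ψp, hψp⟩ : ∃ ψp : ℝ, ψp = b (e + 1) * ((e + 1) * p ^ e) := ⟨_, rfl⟩
    obtain ⟨ψq, hψq⟩ : ∃ ψq : ℝ, ψq = b (e + 1) * ((e + 1) * q ^ e) := ⟨_, rfl⟩
    have p2 : p ≤ 4 * Q := by linarith
    have q1 : (Q : ℝ) ≤ q := by linarith
    have r1 := rF p hp1 p2
    have r2 := rF q q1 hq2
    have r3 := rG p hp1 p2
    have r4 := rG q q1 hq2
    have m3 := mG p hp1 p2
    have m4 := mG q q1 hq2
    have f1 := hFabs Q hQ p hp1 p2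
    have f2 := hFabs Q hQ q q1 hq2
    rw [← hφp] at r1
    rw [← hφq] at r2
    rw [← hψp] at r3 m3
    rw [← hψq] at r4 m4
    obtain ⟨Fp, hFp⟩ : ∃ Fp : ℝ, Fp = pd (d + 1) a p := ⟨_, rfl⟩
    obtain ⟨Fq, hFq⟩ : ∃ Fq : ℝ, Fq = pd (d + 1) a q := ⟨_, rfl⟩
    obtain ⟨Gp, hGp⟩ : ∃ Gp : ℝ, Gp = pd (e + 1) b p := ⟨_, rfl⟩
    obtain ⟨Gq, hGq⟩ : ∃ Gq : ℝ, Gq = pd (e + 1) b q := ⟨_, rfl⟩
    rw [← hFp] at r1 f1 ⊢
    rw [← hFq] at r2 f2 ⊢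
    rw [← hGp] at r3 ⊢
    rw [← hGq] at r4 ⊢
    -- the main term
    have hmain : m₀ / 3 * (Q : ℝ) ^ (d + e) ≤ |ψq * φp - ψp * φq| := by
      obtain ⟨m, hm⟩ : ∃ m, d = e + (m + 1) := ⟨d - e - 1, by omega⟩
      have e1 : ψq * φp - ψp * φq = -(a (d + 1) * b (e + 1) * ((d + 1) * (e + 1)) * (p ^ e * q ^ e * (q ^ (m + 1) - p ^ (m + 1)))) := by
        rw [hψq, hφp, hψp, hφq]
        have e2 : ∀ z : ℝ, z ^ d = z ^ e * z ^ (m + 1) := fun z => by rw [hm, pow_add]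
        rw [e2 p, e2 q]
        ring
      have e3 := pow_gap p q m (by linarith) (by linarith)
      have e4 : 0 ≤ q ^ (m + 1) - p ^ (m + 1) := le_trans (by positivity) e3
      have e5 : 0 ≤ a (d + 1) := by linarith
      rw [e1, abs_neg, abs_mul, abs_mul, abs_mul, abs_of_nonneg e5,
        abs_of_nonneg (show 0 ≤ ((d : ℝ) + 1) * (e + 1) by positivity),
        abs_of_nonneg (show 0 ≤ p ^ e * q ^ e * (q ^ (m + 1) - p ^ (m + 1)) from mul_nonneg (by positivity) e4)]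
      have e6 : (Q : ℝ) ^ (d + e) / 3 ≤ p ^ e * q ^ e * (q ^ (m + 1) - p ^ (m + 1)) := by
        have e7 : (Q : ℝ) ^ (d + e) = (Q : ℝ) ^ e * (Q : ℝ) ^ e * (Q : ℝ) ^ (m + 1) := by
          rw [hm, ← pow_add, ← pow_add]; congr 1; ring
        calc (Q : ℝ) ^ (d + e) / 3 = (Q : ℝ) ^ e * (Q : ℝ) ^ e * ((Q : ℝ) ^ (m + 1) / 3) := by rw [e7]; ring
          _ ≤ p ^ e * q ^ e * (q ^ (m + 1) / 3) := by gcongr
          _ ≤ _ := mul_le_mul_of_nonneg_left e3 (by positivity)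
      have e8 : l₀ * b₀ ≤ a (d + 1) * |b (e + 1)| := mul_le_mul hal hbb hb₀.le e5
      calc m₀ / 3 * (Q : ℝ) ^ (d + e) = (l₀ * b₀ * (((d : ℝ) + 1) * (e + 1))) * ((Q : ℝ) ^ (d + e) / 3) := by rw [hm₀]; ring
        _ ≤ (a (d + 1) * |b (e + 1)| * (((d : ℝ) + 1) * (e + 1))) * (p ^ e * q ^ e * (q ^ (m + 1) - p ^ (m + 1))) := by
          apply mul_le_mul _ e6 (by positivity) (by positivity)
          exact mul_le_mul_of_nonneg_right e8 (by positivity)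
    -- the error
    have herr : |(Gq * Fp - Gp * Fq) - (ψq * φp - ψp * φq)| * Q ≤ 4 * c₂ * R * 4 ^ (d + 1) * (Q : ℝ) ^ (d + e) := by
      have e1 : (Gq * Fp - Gp * Fq) - (ψq * φp - ψp * φq) =
          ψq * (Fp - φp) + (Gq - ψq) * Fp - (ψp * (Fq - φq) + (Gp - ψp) * Fq) := by ring
      have e2 : |(Gq * Fp - Gp * Fq) - (ψq * φp - ψp * φq)| ≤
          |ψq| * |Fp - φp| + |Gq - ψq| * |Fp| + (|ψp| * |Fq - φq| + |Gp - ψp| * |Fq|) := by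
        rw [e1]
        refine (abs_sub _ _).trans (add_le_add ((abs_add_le _ _).trans ?_) ((abs_add_le _ _).trans ?_))
        · rw [abs_mul, abs_mul]
        · rw [abs_mul, abs_mul]
      have hQd : 0 ≤ (Q : ℝ) ^ d := by positivity
      have hQe : 0 ≤ (Q : ℝ) ^ e := by positivity
      have k1 : |ψq| * (|Fp - φp| * Q) ≤ (c₂ * (Q : ℝ) ^ e) * (R * 4 ^ (d + 1) * (Q : ℝ) ^ d) :=
        mul_le_mul m4 r1 (by positivity) (by positivity)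
      have k2 : (|Gq - ψq| * Q) * |Fp| ≤ (R * 4 ^ (d + 1) * (Q : ℝ) ^ e) * (c₂ * (Q : ℝ) ^ d) :=
        mul_le_mul r4 f1 (abs_nonneg _) (by positivity)
      have k3 : |ψp| * (|Fq - φq| * Q) ≤ (c₂ * (Q : ℝ) ^ e) * (R * 4 ^ (d + 1) * (Q : ℝ) ^ d) :=
        mul_le_mul m3 r2 (by positivity) (by positivity)
      have k4 : (|Gp - ψp| * Q) * |Fq| ≤ (R * 4 ^ (d + 1) * (Q : ℝ) ^ e) * (c₂ * (Q : ℝ) ^ d) :=
        mul_le_mul r3 f2 (abs_nonneg _) (by positivity)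
      have e3 := mul_le_mul_of_nonneg_right e2 hQ0.le
      have e4 : (Q : ℝ) ^ (d + e) = (Q : ℝ) ^ d * (Q : ℝ) ^ e := pow_add _ _ _
      rw [e4]
      linarith
    have h6 : |(Gq * Fp - Gp * Fq) - (ψq * φp - ψp * φq)| ≤ m₀ / 6 * (Q : ℝ) ^ (d + e) := by
      have e1 : |(Gq * Fp - Gp * Fq) - (ψq * φp - ψp * φq)| * Q ≤ (m₀ / 6 * (Q : ℝ) ^ (d + e)) * Q := by
        refine herr.trans ?_
        have e2 : 24 * c₂ * R * 4 ^ (d + 1) ≤ Q * m₀ := by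
          rw [div_le_iff₀ hm₀0] at hQb
          have e3 : (Q₀ : ℝ) ≤ Q := by exact_mod_cast hQ
          have := mul_le_mul_of_nonneg_right e3 hm₀0.le
          linarith
        have e4 := mul_le_mul_of_nonneg_right e2 (show 0 ≤ (Q : ℝ) ^ (d + e) / 6 by positivity)
        linarith
      exact le_of_mul_le_mul_right e1 hQ0
    have h7 := abs_sub_abs_le_abs_sub (ψq * φp - ψp * φq) (Gq * Fp - Gp * Fq)
    have h8 := abs_sub_comm (ψq * φp - ψp * φq) (Gq * Fp - Gp * Fq)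
    have h9 : m₀ / 3 * (Q : ℝ) ^ (d + e) = m₀ / 6 * (Q : ℝ) ^ (d + e) + m₀ / 6 * (Q : ℝ) ^ (d + e) := by ring
    linarith
  · -- the size of `F`
    intro Q hQ x hx1 hx2
    have h1 := pv_abs (d + 1) a B x (by linarith [hQge Q hQ]) ha
    have h2 := (hxpow Q hQ x hx1 hx2 (d + 1) le_rfl).2
    refine h1.trans ?_
    push_cast
    calc ((d : ℝ) + 1 + 1) * B * x ^ (d + 1) ≤ ((d : ℝ) + 1 + 1) * B * (4 ^ (d + 1) * (Q : ℝ) ^ (d + 1)) := by gcongr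
      _ ≤ c₂ * (Q : ℝ) ^ (d + 1) := by
        rw [hc₂]
        have : 0 ≤ 2 * ((d : ℝ) + 1) ^ 2 * B * 4 ^ (d + 1) * (Q : ℝ) ^ (d + 1) := by positivity
        linarith
  · -- the size of `G`
    intro Q hQ x hx1 hx2
    have h1 := pv_abs (e + 1) b B x (by linarith [hQge Q hQ]) hb
    have h2 := (hxpow Q hQ x hx1 hx2 (e + 1) (by omega)).2
    have hx0 : 0 ≤ x := by linarith [hQge Q hQ]
    refine h1.trans ?_
    push_cast
    calc ((e : ℝ) + 1 + 1) * B * x ^ (e + 1) ≤ ((d : ℝ) + 1 + 1) * B * (4 ^ (d + 1) * (Q : ℝ) ^ (e + 1)) := by gcongr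
      _ ≤ c₂ * (Q : ℝ) ^ (e + 1) := by
        rw [hc₂]
        have : 0 ≤ 2 * ((d : ℝ) + 1) ^ 2 * B * 4 ^ (d + 1) * (Q : ℝ) ^ (e + 1) := by positivity
        linarith

end Pool.Agent.Zk40.V
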