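import Pool.Agent.Zk40.V.Cnt
import Pool.Agent.Zk40.V.Pol
import Pool.Agent.Zk40.W.AE

/-!
Waring's problem for almost all polynomials: the mean value of the energy over an interval of parameters.
-/

namespace Pool.Agent.Zk40.V

open Finset MeasureTheory Filter
open Pool.Agent.Zk40.W (Qs Qs_one Qs_step Qs_step_low Qs_pow Qs_le family_meas markov)

lemma Qs_tendsto {κ : ℝ} (hκ : 0 < κ) (i : ℕ) : Tendsto (fun P : ℕ => Qs κ P i) atTop atTop := by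
  induction i with
  | zero => exact tendsto_id
  | succ i ih =>
    have h1 : Tendsto (fun P : ℕ => ((Qs κ P i : ℕ) : ℝ) ^ κ) atTop atTop :=
      (tendsto_rpow_atTop hκ).comp (tendsto_natCast_atTop_atTop.comp ih)
    exact tendsto_nat_floor_atTop.comp h1

/-- the ratio of the exponents of the scales -/
noncomputable def kap (d : ℕ) : ℝ := 1 - 1 / ((d : ℝ) + 1)

lemma kap_mul (d : ℕ) : kap d * ((d : ℝ) + 1) = d := by
  unfold kap; field_simp; ring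

lemma kap_pos (d : ℕ) (hd : 1 ≤ d) : 0 < kap d := by
  have h1 := kap_mul d
  have h2 : (1 : ℝ) ≤ d := by exact_mod_cast hd
  by_contra hcon
  push Not at hcon
  nlinarith

lemma kap_le (d : ℕ) : kap d ≤ 1 := by
  unfold kap
  have : 0 ≤ 1 / ((d : ℝ) + 1) := by positivity
  linarith

lemma sc (d : ℕ) (hd : 1 ≤ d) (Q₀ u : ℕ) : ∀ᶠ P : ℕ in atTop, Sc d Q₀ u (2 ^ (d + 1)) (Qs (kap d) P) := by
  have hκ := kap_pos d hd
  have h1 : ∀ᶠ P : ℕ in atTop, ∀ i ∈ range u, Q₀ ≤ Qs (kap d) P i := by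
    rw [Filter.eventually_all_finset]
    intro i _
    exact (Qs_tendsto hκ i).eventually_ge_atTop Q₀
  filter_upwards [h1, eventually_ge_atTop 1] with P hP hP1
  have hone := Qs_one (κ := kap d) hκ.le hP1
  have hpow : ∀ i, ((Qs (kap d) P i : ℝ) ^ (kap d)) ^ (d + 1) = (Qs (kap d) P i : ℝ) ^ d := by
    intro i
    rw [← Real.rpow_natCast, ← Real.rpow_mul (Nat.cast_nonneg _), ← Real.rpow_natCast]
    congr 1
    push_cast
    exact kap_mul d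
  refine ⟨one_le_pow₀ (by norm_num), fun i hi => hP i (mem_range.2 hi), hone, ?_, ?_⟩
  · intro i
    rw [← hpow]
    exact pow_le_pow_left₀ (Nat.cast_nonneg _) (Qs_step i) _
  · intro i
    rw [← hpow, ← mul_pow]
    apply pow_le_pow_left₀ (by positivity)
    linarith [Qs_step_low (κ := kap d) hκ.le hP1 i]

/-- the data of the family of polynomials -/
structure FamI (d e : ℕ) (a b l₀ b₀ B : ℝ) (c c' c'' : ℕ → ℝ → ℝ) : Prop where
  d1 : ∀ i, i ≤ d + 1 → ∀ α ∈ Set.Icc a b, HasDerivAt (c i) (c' i α) α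
  d2 : ∀ i, i ≤ e + 1 → ∀ α ∈ Set.Icc a b, HasDerivAt (c' i) (c'' i α) α
  z : ∀ i, e + 1 < i → i ≤ d + 1 → ∀ α ∈ Set.Icc a b, c' i α = 0
  b0 : ∀ i, i ≤ d + 1 → ∀ α ∈ Set.Icc a b, |c i α| ≤ B
  b1 : ∀ i, i ≤ e + 1 → ∀ α ∈ Set.Icc a b, |c' i α| ≤ B
  b2 : ∀ i, i ≤ e + 1 → ∀ α ∈ Set.Icc a b, |c'' i α| ≤ B
  l : ∀ α ∈ Set.Icc a b, l₀ ≤ c (d + 1) α
  g : ∀ α ∈ Set.Icc a b, b₀ ≤ |c' (e + 1) α|

lemma pv_dpar (n : ℕ) (c c' : ℕ → ℝ → ℝ) (α x : ℝ) (h : ∀ i, i ≤ n → HasDerivAt (c i) (c' i α) α) :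
    HasDerivAt (fun α => pv n (fun i => c i α) x) (pv n (fun i => c' i α) x) α := by
  unfold pv
  apply HasDerivAt.fun_sum
  intro i hi
  rw [mem_range] at hi
  exact (h i (by omega)).mul_const _

lemma SF_dpar {u : ℕ} (n : ℕ) (c c' : ℕ → ℝ → ℝ) (α : ℝ) (h : ∀ i, i ≤ n → HasDerivAt (c i) (c' i α) α)
    (y : Fin u → ℕ × ℕ) :
    HasDerivAt (fun α => SF (pv n (fun i => c i α)) y) (SF (pv n (fun i => c' i α)) y) α := by
  unfold SF
  apply HasDerivAt.fun_sum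
  intro i _
  exact (pv_dpar n c c' α _ h).add (pv_dpar n c c' α _ h)

lemma pv_cut (n m : ℕ) (hnm : n ≤ m) (a : ℕ → ℝ) (x : ℝ) (h : ∀ i, n < i → i ≤ m → a i = 0) : pv m a x = pv n a x := by
  unfold pv
  symm
  apply sum_subset (range_subset_range.2 (by omega))
  intro i hi hi2
  rw [mem_range] at hi hi2
  rw [h i (by omega) (by omega), zero_mul]

lemma SF_abs {u : ℕ} (n : ℕ) (a : ℕ → ℝ) (B : ℝ) (ha : ∀ i, i ≤ n → |a i| ≤ B) (Q : ℕ → ℕ) (hQ1 : ∀ i, 1 ≤ Q i) (P : ℕ)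
    (hP : ∀ i, Q i ≤ P) (y : Fin u → ℕ × ℕ) (hy : y ∈ W.Y Q u) :
    |SF (pv n a) y| ≤ 2 * u * ((n + 1) * B * (4 * (P : ℝ)) ^ n) := by
  have hB : 0 ≤ B := (abs_nonneg _).trans (ha 0 (Nat.zero_le _))
  have hmem := Fintype.mem_piFinset.1 hy
  have key : ∀ z : ℕ, 1 ≤ z → z ≤ 4 * P → |pv n a (z : ℝ)| ≤ (n + 1) * B * (4 * (P : ℝ)) ^ n := by
    intro z hz1 hz2
    have hz1' : (1 : ℝ) ≤ z := by exact_mod_cast hz1
    have hz2' : (z : ℝ) ≤ 4 * P := by exact_mod_cast hz2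
    refine (pv_abs n a B z hz1' ha).trans ?_
    apply mul_le_mul_of_nonneg_left _ (by positivity)
    exact pow_le_pow_left₀ (by linarith) hz2' _
  unfold SF
  calc |∑ i, (pv n a ((y i).1 : ℝ) + pv n a ((y i).2 : ℝ))| ≤ ∑ i, |pv n a ((y i).1 : ℝ) + pv n a ((y i).2 : ℝ)| :=
        abs_sum_le_sum_abs _ _
    _ ≤ ∑ _i : Fin u, 2 * ((n + 1) * B * (4 * (P : ℝ)) ^ n) := by
      apply sum_le_sum
      intro i _
      have h1 := hmem i
      simp only [W.box, mem_product, mem_Icc] at h1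
      have h2 := hQ1 i
      have h3 := hP i
      have e1 := key (y i).1 (by omega) (by omega)
      have e2 := key (y i).2 (by omega) (by omega)
      have e3 := abs_add_le (pv n a ((y i).1 : ℝ)) (pv n a ((y i).2 : ℝ))
      linarith
    _ = _ := by rw [sum_const, card_univ, Fintype.card_fin, nsmul_eq_mul]; ring

/-- the mean value of the energy -/
theorem energy (d e : ℕ) (hde : e < d) (a b l₀ b₀ B : ℝ) (hab : a ≤ b) (hab1 : b ≤ a + 1) (hl₀ : 0 < l₀) (hb₀ : 0 < b₀)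
    (hB : 0 < B) (c c' c'' : ℕ → ℝ → ℝ) (hF : FamI d e a b l₀ b₀ B c c' c'') (u : ℕ) (hu : 1 ≤ u) (K₀ : ℝ) (hK₀ : 0 ≤ K₀)
    (hκu : 2 * ((d : ℝ) + 1) * kap d ^ u ≤ e + 1) : ∃ C : ℝ, 1 ≤ C ∧ ∀ᶠ P : ℕ in atTop,
    (∑ p ∈ W.Y (Qs (kap d) P) u ×ˢ W.Y (Qs (kap d) P) u, volume.real (Set.Icc a b ∩
      {α | |SF (pv (d + 1) (fun i => c i α)) p.1 - SF (pv (d + 1) (fun i => c i α)) p.2| ≤ K₀})) * (P : ℝ) ^ (d + 1) ≤
      C * (Real.log (4 * P) + 1) * ((W.Y (Qs (kap d) P) u).card : ℝ) ^ 2 := by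
  classical
  have hd : 1 ≤ d := by omega
  have hκ := kap_pos d hd
  have hκ1 := kap_le d
  have hur : (1 : ℝ) ≤ u := by exact_mod_cast hu
  obtain ⟨c₁, c₂, c₃, hc₁, hc₂, hc₃, Q₀, hQ₀, hdat⟩ := dat_pol d e hde l₀ b₀ B hl₀ hb₀ hB
  obtain ⟨CM, hCM⟩ : ∃ CM : ℝ, CM = 4 * u * ((e + 2) * B * 4 ^ (e + 1)) + 1 := ⟨_, rfl⟩
  have hCM1 : 1 ≤ CM := by
    rw [hCM]
    have : 0 ≤ 4 * u * (((e : ℝ) + 2) * B * 4 ^ (e + 1)) := by positivity
    linarith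
  obtain ⟨C₁, hC₁, hcount⟩ := pairs_count d e hde.le c₁ c₂ c₃ (2 ^ (d + 1)) hc₁ hc₃ (one_le_pow₀ (by norm_num)) u hu
    (K₀ + 3) CM (by linarith) hCM1
  obtain ⟨CJ, hCJ⟩ : ∃ CJ : ℝ, CJ = 2 * (Real.log CM + (e + 1)) := ⟨_, rfl⟩
  have hlogM : 0 ≤ Real.log CM := Real.log_nonneg hCM1
  have hCJ0 : 0 ≤ CJ := by rw [hCJ]; positivity
  refine ⟨C₁ * (1 + 24 * K₀ * CJ * CM), ?_, ?_⟩
  · have : 0 ≤ 24 * K₀ * CJ * CM := by positivity
    nlinarith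
  filter_upwards [sc d hd Q₀ u, eventually_ge_atTop 1] with P hs hP
  have hPr : (1 : ℝ) ≤ P := by exact_mod_cast hP
  have hP0 : (0 : ℝ) < P := by linarith
  have hone := hs.one
  have hQP : ∀ i, Qs (kap d) P i ≤ P := fun i => Qs_le hκ.le hκ1 hP i
  have hQ0P : Qs (kap d) P 0 = P := rfl
  have hQpow := Qs_pow (κ := kap d) (P := P) hκ.le (u - 1)
  set Q := Qs (kap d) P with hQ
  obtain ⟨Yc, hYc⟩ : ∃ Yc : ℝ, Yc = ((W.Y Q u).card : ℝ) := ⟨_, rfl⟩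
  have hYc0 : 0 ≤ Yc := by rw [hYc]; positivity
  rw [← hYc]
  obtain ⟨M, hM⟩ : ∃ M : ℝ, M = CM * (P : ℝ) ^ (e + 1) := ⟨_, rfl⟩
  have hPe : 1 ≤ (P : ℝ) ^ (e + 1) := one_le_pow₀ hPr
  have hM0 : 0 < M := by rw [hM]; positivity
  obtain ⟨T₀, hT₀⟩ : ∃ T₀ : ℝ, T₀ = (Q (u - 1) : ℝ) ^ d := ⟨_, rfl⟩
  have hQu : (1 : ℝ) ≤ Q (u - 1) := by exact_mod_cast hone (u - 1)
  have hT₀1 : 1 ≤ T₀ := by rw [hT₀]; exact one_le_pow₀ hQu
  have hT₀0 : 0 < T₀ := by linarith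
  have hT₀sq : T₀ ^ 2 ≤ (P : ℝ) ^ (e + 1) := by
    have e1 : T₀ ^ 2 ≤ ((P : ℝ) ^ (kap d ^ (u - 1))) ^ (2 * d) := by
      rw [hT₀, ← pow_mul, mul_comm d 2]
      exact pow_le_pow_left₀ (by linarith) hQpow _
    refine e1.trans ?_
    have f1 : ((P : ℝ) ^ (kap d ^ (u - 1))) ^ (2 * d) = (P : ℝ) ^ (kap d ^ (u - 1) * ((2 * d : ℕ) : ℝ)) := by
      rw [Real.rpow_mul hP0.le, Real.rpow_natCast]
    have f2 : (P : ℝ) ^ (e + 1) = (P : ℝ) ^ (((e + 1 : ℕ) : ℝ)) := (Real.rpow_natCast _ _).symm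
    rw [f1, f2]
    apply Real.rpow_le_rpow_of_exponent_le hPr
    have e2 : kap d ^ u = kap d ^ (u - 1) * kap d := by rw [← pow_succ]; congr 1; omega
    have e3 := kap_mul d
    rw [e2] at hκu
    push_cast
    have e4 : kap d ^ (u - 1) * (2 * (d : ℝ)) = 2 * ((d : ℝ) + 1) * (kap d ^ (u - 1) * kap d) := by
      linear_combination (-(2 * kap d ^ (u - 1))) * e3
    rw [e4]
    exact hκu
  have hT₀M : T₀ ≤ M := by
    have e1 : T₀ ≤ T₀ ^ 2 := by nlinarith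
    rw [hM]
    nlinarith
  obtain ⟨J, hJ⟩ : ∃ J : ℕ, J = Nat.log 2 ⌊M / T₀⌋₊ := ⟨_, rfl⟩
  have hfl1 : 1 ≤ ⌊M / T₀⌋₊ := by
    apply Nat.le_floor
    push_cast
    rw [one_le_div hT₀0]
    exact hT₀M
  have hJ1 : (2 : ℝ) ^ J * T₀ ≤ M := by
    have h1 : 2 ^ J ≤ ⌊M / T₀⌋₊ := by rw [hJ]; exact Nat.pow_log_le_self 2 (by omega)
    have h2 : (2 : ℝ) ^ J ≤ M / T₀ := by
      calc (2 : ℝ) ^ J = ((2 ^ J : ℕ) : ℝ) := by push_cast; ring
        _ ≤ (⌊M / T₀⌋₊ : ℝ) := by exact_mod_cast h1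
        _ ≤ _ := Nat.floor_le (by positivity)
    rwa [le_div_iff₀ hT₀0] at h2
  have hJ2 : M ≤ (2 : ℝ) ^ (J + 1) * T₀ := by
    have h1 : ⌊M / T₀⌋₊ < 2 ^ (J + 1) := by rw [hJ]; exact Nat.lt_pow_succ_log_self (by norm_num) _
    have h2 : M / T₀ < ((2 ^ (J + 1) : ℕ) : ℝ) := (Nat.floor_lt (by positivity)).1 h1
    rw [div_lt_iff₀ hT₀0] at h2
    push_cast at h2
    exact h2.le
  obtain ⟨Λ, hΛ⟩ : ∃ Λ : ℝ, Λ = Real.log (4 * P) + 1 := ⟨_, rfl⟩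
  rw [← hΛ]
  have hΛ1 : 1 ≤ Λ := by
    rw [hΛ]
    have : 0 ≤ Real.log (4 * (P : ℝ)) := Real.log_nonneg (by linarith)
    linarith
  have hlogP : Real.log P ≤ Λ := by
    have := Real.log_le_log hP0 (show (P : ℝ) ≤ 4 * P by linarith)
    rw [hΛ]; linarith
  have hJΛ : (J : ℝ) ≤ CJ * Λ := by
    have h1 : (2 : ℝ) ^ J ≤ CM * (P : ℝ) ^ (e + 1) := by
      have : (2 : ℝ) ^ J ≤ (2 : ℝ) ^ J * T₀ := le_mul_of_one_le_right (by positivity) hT₀1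
      rw [← hM]; linarith
    have h2 := Real.log_le_log (by positivity) h1
    rw [Real.log_pow, Real.log_mul (by positivity) (by positivity), Real.log_pow] at h2
    have h4 : (1 : ℝ) / 2 ≤ Real.log 2 := by linarith [Real.log_two_gt_d9]
    have h5 : Real.log CM ≤ Real.log CM * Λ := le_mul_of_one_le_right hlogM hΛ1
    have h6 : ((e : ℝ) + 1) * Real.log P ≤ ((e : ℝ) + 1) * Λ := mul_le_mul_of_nonneg_left hlogP (by positivity)
    have h7 : (J : ℝ) * (1 / 2) ≤ J * Real.log 2 := mul_le_mul_of_nonneg_left h4 (Nat.cast_nonneg _)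
    rw [hCJ]
    push_cast at h2
    nlinarith
  obtain ⟨D, hD⟩ : ∃ D : ℝ, D = C₁ * Yc ^ 2 / ((P : ℝ) ^ (d + 1) * (P : ℝ) ^ (e + 1)) := ⟨_, rfl⟩
  have hD0 : 0 ≤ D := by rw [hD]; positivity
  have hbd : ∀ (f : ℕ → ℝ), (∀ i, i ≤ e + 1 → |f i| ≤ B) → ∀ y ∈ W.Y Q u, |SF (pv (e + 1) f) y| ≤ M / 2 := by
    intro f hf y hy
    refine (SF_abs (e + 1) f B hf Q hone P hQP y hy).trans ?_
    rw [hM, hCM, mul_pow]
    push_cast
    have : 0 ≤ (P : ℝ) ^ (e + 1) := by positivity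
    nlinarith
  have hcut : ∀ α ∈ Set.Icc a b, ∀ y : Fin u → ℕ × ℕ, SF (pv (d + 1) (fun i => c' i α)) y = SF (pv (e + 1) (fun i => c' i α)) y := by
    intro α hα y
    have : ∀ x, pv (d + 1) (fun i => c' i α) x = pv (e + 1) (fun i => c' i α) x := fun x =>
      pv_cut (e + 1) (d + 1) (by omega) _ x fun i h1 h2 => hF.z i h1 h2 α hα
    unfold SF
    simp only [this]
  have key := family_meas (W.Y Q u ×ˢ W.Y Q u)
    (fun p α => SF (pv (d + 1) (fun i => c i α)) p.1 - SF (pv (d + 1) (fun i => c i α)) p.2)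
    (fun p α => SF (pv (e + 1) (fun i => c' i α)) p.1 - SF (pv (e + 1) (fun i => c' i α)) p.2)
    a b M K₀ D T₀ J hT₀1 hab hab1 hM0.le hK₀
    (by
      intro p _ α hα
      rw [← hcut α hα, ← hcut α hα]
      exact (SF_dpar (d + 1) c c' α (fun i hi => hF.d1 i hi α hα) p.1).sub
        (SF_dpar (d + 1) c c' α (fun i hi => hF.d1 i hi α hα) p.2))
    (by
      intro p hp x hx y hy
      rw [mem_product] at hp
      obtain ⟨z, hz, hz2⟩ := W.cell_mvt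
        (fun α => SF (pv (e + 1) (fun i => c' i α)) p.1 - SF (pv (e + 1) (fun i => c' i α)) p.2)
        (fun α => SF (pv (e + 1) (fun i => c'' i α)) p.1 - SF (pv (e + 1) (fun i => c'' i α)) p.2) a b
        (fun α hα => (SF_dpar (e + 1) c' c'' α (fun i hi => hF.d2 i hi α hα) p.1).sub
          (SF_dpar (e + 1) c' c'' α (fun i hi => hF.d2 i hi α hα) p.2)) x y hx hy
      rw [hz2, abs_mul]
      apply mul_le_mul_of_nonneg_right _ (abs_nonneg _)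
      have b1 := hbd _ (fun i hi => hF.b2 i hi z hz) p.1 hp.1
      have b2 := hbd _ (fun i hi => hF.b2 i hi z hz) p.2 hp.2
      exact (abs_sub _ _).trans (by linarith))
    (by
      intro p hp x hx
      rw [mem_product] at hp
      have b1 := hbd _ (fun i hi => hF.b1 i hi x hx) p.1 hp.1
      have b2 := hbd _ (fun i hi => hF.b1 i hi x hx) p.2 hp.2
      exact (abs_sub _ _).trans (by linarith))
    (by
      intro t ht α hα
      have h2t : (2 : ℝ) ^ t * T₀ ≤ 2 ^ J * T₀ := by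
        apply mul_le_mul_of_nonneg_right _ hT₀0.le
        exact pow_le_pow_right₀ (by norm_num) ht
      have h2tge : T₀ ≤ (2 : ℝ) ^ t * T₀ := le_mul_of_one_le_left hT₀0.le (one_le_pow₀ (by norm_num))
      have hc := hcount Q₀ _ _ _ _ (hdat (fun i => c i α) (fun i => c' i α) (fun i hi => hF.b0 i hi α hα)
        (fun i hi => hF.b1 i hi α hα) (hF.l α hα) (hF.g α hα)) Q hs (2 ^ t * T₀)
        (by rw [← hT₀]; exact h2tge)
        (by
          rw [hQ0P]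
          calc (2 : ℝ) ^ t * T₀ ≤ M := h2t.trans hJ1
            _ = CM * (P : ℝ) ^ (e + 1) := hM
            _ ≤ CM * (P : ℝ) ^ (d + 1) := by
              apply mul_le_mul_of_nonneg_left _ (by linarith)
              exact pow_le_pow_right₀ hPr (by omega))
      rw [hQ0P, ← hYc, ← le_div_iff₀ (by positivity)] at hc
      refine hc.trans (le_of_eq ?_)
      rw [hD]; ring)
  have hfin : D * T₀ ^ 2 + 8 * K₀ * D * J * (2 * M + 2 ^ J * T₀) ≤ D * ((1 + 24 * K₀ * CJ * CM) * Λ * (P : ℝ) ^ (e + 1)) := by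
    have e1 : 2 * M + 2 ^ J * T₀ ≤ 3 * (CM * (P : ℝ) ^ (e + 1)) := by rw [← hM]; linarith
    have e2 : 8 * K₀ * D * J * (2 * M + 2 ^ J * T₀) ≤ 8 * K₀ * D * (CJ * Λ) * (3 * (CM * (P : ℝ) ^ (e + 1))) := by
      gcongr
    have e3 : D * T₀ ^ 2 ≤ D * (Λ * (P : ℝ) ^ (e + 1)) := by
      apply mul_le_mul_of_nonneg_left _ hD0
      refine hT₀sq.trans ?_
      exact le_mul_of_one_le_left (by linarith) hΛ1
    calc _ ≤ D * (Λ * (P : ℝ) ^ (e + 1)) + 8 * K₀ * D * (CJ * Λ) * (3 * (CM * (P : ℝ) ^ (e + 1))) := by linarith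
      _ = _ := by ring
  have hfin2 := mul_le_mul_of_nonneg_right (key.trans hfin) (show 0 ≤ (P : ℝ) ^ (d + 1) by positivity)
  refine hfin2.trans (le_of_eq ?_)
  rw [hD]
  field_simp

end Pool.Agent.Zk40.V
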