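import Pool.Agent.Zk40.V.Wy

/-!
Waring's problem for almost all polynomials: exponential sums over the integer parts of a polynomial.
-/

namespace Pool.Agent.Zk40.V

open Finset Filter Topology
open Pool.Agent.H469R2.NK (e norm_e e_add)
open Pool.Agent.Zk40.W (ES ES_triv ES_neg)

/-- the coefficients of the derivative -/
noncomputable def da (a : ℕ → ℝ) (i : ℕ) : ℝ := ((i : ℝ) + 1) * a (i + 1)

lemma pd_eq (n : ℕ) (a : ℕ → ℝ) (x : ℝ) : pd (n + 1) a x = pv n (da a) x := by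
  unfold pd pv da
  rw [sum_range_succ']
  simp only [Nat.cast_zero, zero_mul, mul_zero, add_zero]
  apply sum_congr rfl
  intro i _
  rw [Nat.add_sub_cancel]
  push_cast
  ring

lemma pv_big (n : ℕ) (a : ℕ → ℝ) (ha : 0 < a n) : ∃ z₀ : ℕ, 1 ≤ z₀ ∧ ∀ x : ℝ, (z₀ : ℝ) ≤ x →
    a n / 2 * x ^ n ≤ pv n a x ∧ pv n a x ≤ 2 * a n * x ^ n := by
  obtain ⟨B, hB⟩ : ∃ B : ℝ, B = ∑ i ∈ range (n + 1), |a i| := ⟨_, rfl⟩
  have hBi : ∀ i, i ≤ n → |a i| ≤ B := by
    intro i hi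
    rw [hB]
    exact single_le_sum (f := fun i => |a i|) (fun i _ => abs_nonneg _) (mem_range.2 (by omega))
  have hB0 : 0 ≤ B := (abs_nonneg _).trans (hBi 0 (Nat.zero_le _))
  refine ⟨⌈2 * (n * B) / a n⌉₊ + 1, by omega, fun x hx => ?_⟩
  push_cast at hx
  have h1 := Nat.le_ceil (2 * (n * B) / a n)
  have hx1 : 1 ≤ x := by
    have : (0 : ℝ) ≤ (⌈2 * (n * B) / a n⌉₊ : ℝ) := Nat.cast_nonneg _
    linarith
  have h2 : 2 * (n * B) ≤ x * a n := by
    have : 2 * (n * B) / a n ≤ x := by linarith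
    rwa [div_le_iff₀ ha] at this
  have h3 := pv_tail n a B x hx1 hBi
  have hxn : 0 ≤ x ^ n := by positivity
  have h4 : |pv n a x - a n * x ^ n| * x ≤ (a n / 2 * x ^ n) * x := by
    refine h3.trans ?_
    have := mul_le_mul_of_nonneg_right h2 hxn
    linarith
  have h5 := le_of_mul_le_mul_right h4 (by linarith)
  rw [abs_le] at h5
  have h6 : 0 ≤ a n * x ^ n := by positivity
  constructor <;> linarith [h5.1, h5.2]

/-- the size of a polynomial and of its derivatives -/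
theorem big (d : ℕ) (hd : 1 ≤ d) (a : ℕ → ℝ) (ha : 0 < a (d + 1)) : ∃ c₁ c₂ : ℝ, 0 < c₁ ∧ 0 < c₂ ∧ ∃ z₀ : ℕ, 1 ≤ z₀ ∧
    ∀ x : ℝ, (z₀ : ℝ) ≤ x → (c₁ * x ^ (d + 1) ≤ pv (d + 1) a x ∧ pv (d + 1) a x ≤ c₂ * x ^ (d + 1)) ∧
      (c₁ * x ^ d ≤ pv d (da a) x ∧ pv d (da a) x ≤ c₂ * x ^ d) ∧ 0 ≤ pv (d - 1) (da (da a)) x := by
  have ha1 : 0 < da a d := by unfold da; positivity
  have ha2 : 0 < da (da a) (d - 1) := by
    have : da (da a) (d - 1) = (((d - 1 : ℕ) : ℝ) + 1) * da a d := by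
      unfold da
      rw [show d - 1 + 1 = d by omega]
    rw [this]
    positivity
  obtain ⟨z1, hz1, h1⟩ := pv_big (d + 1) a ha
  obtain ⟨z2, hz2, h2⟩ := pv_big d (da a) ha1
  obtain ⟨z3, hz3, h3⟩ := pv_big (d - 1) (da (da a)) ha2
  refine ⟨min (a (d + 1) / 2) (da a d / 2), max (2 * a (d + 1)) (2 * da a d), lt_min (by linarith) (by linarith),
    lt_max_of_lt_left (by linarith), z1 + z2 + z3, by omega, fun x hx => ?_⟩
  push_cast at hx
  have n1 : (0 : ℝ) ≤ z1 := Nat.cast_nonneg _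
  have n2 : (0 : ℝ) ≤ z2 := Nat.cast_nonneg _
  have n3 : (0 : ℝ) ≤ z3 := Nat.cast_nonneg _
  have hx0 : 0 ≤ x := by linarith
  obtain ⟨a1, a2⟩ := h1 x (by linarith)
  obtain ⟨b1, b2⟩ := h2 x (by linarith)
  obtain ⟨c1, _⟩ := h3 x (by linarith)
  refine ⟨⟨le_trans ?_ a1, a2.trans ?_⟩, ⟨le_trans ?_ b1, b2.trans ?_⟩, le_trans (by positivity) c1⟩
  · exact mul_le_mul_of_nonneg_right (min_le_left _ _) (by positivity)
  · exact mul_le_mul_of_nonneg_right (le_max_left _ _) (by positivity)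
  · exact mul_le_mul_of_nonneg_right (min_le_right _ _) (by positivity)
  · exact mul_le_mul_of_nonneg_right (le_max_right _ _) (by positivity)

lemma pv_mvt (n : ℕ) (a : ℕ → ℝ) (x y : ℝ) (hxy : x < y) : ∃ z, x < z ∧ z < y ∧
    pv (n + 1) a y - pv (n + 1) a x = (y - x) * pv n (da a) z := by
  obtain ⟨z, hz, hz2⟩ := exists_hasDerivAt_eq_slope (pv (n + 1) a) (pd (n + 1) a) hxy
    (fun w _ => (pv_der (n + 1) a w).continuousAt.continuousWithinAt) (fun w _ => pv_der (n + 1) a w)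
  refine ⟨z, hz.1, hz.2, ?_⟩
  rw [← pd_eq, hz2]
  have : y - x ≠ 0 := by linarith
  field_simp

/-- the integer part of the value -/
noncomputable def wp (d : ℕ) (a : ℕ → ℝ) (z : ℕ) : ℕ := ⌊pv (d + 1) a z⌋₊

lemma wp_floor (d : ℕ) (a : ℕ → ℝ) (z : ℕ) (h : 0 ≤ pv (d + 1) a z) :
    ((⌊pv (d + 1) a z⌋ : ℤ) : ℝ) = (wp d a z : ℝ) := by
  unfold wp
  rw [← natCast_floor_eq_intCast_floor h]

/-- the bound for positive frequencies -/
theorem exp_pos (d j : ℕ) (hd : 1 ≤ d) (hj : 1 ≤ j) (hjd : j ≤ d + 1) (a : ℕ → ℝ) (ha : 0 < a (d + 1))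
    (hdp : Dp (a j / a (d + 1))) : ∃ C σ : ℝ, 0 < C ∧ 0 < σ ∧ σ ≤ 1 ∧ ∀ᶠ x : ℕ in atTop,
    ∀ β : ℝ, 0 < β → β ≤ 1 / 2 →
    ‖ES (Ioc x (2 * x)) (wp d a) β‖ ≤ C * ((x : ℝ) ^ (1 - ((d : ℝ) + 1)) / β + (x : ℝ) ^ (1 - σ)) := by
  obtain ⟨c₁, c₂, hc₁, hc₂, z₀, hz₀, hbig⟩ := big d hd a ha
  obtain ⟨σ₁, hσ₁, hσ₁1, hweyl⟩ := weyl (d + 1) j hj hjd a ha hdp
  obtain ⟨ρ, hρ⟩ : ∃ ρ : ℝ, ρ = min σ₁ (1 / 10) / 6 := ⟨_, rfl⟩
  have hm0 : 0 < min σ₁ (1 / 10) := lt_min hσ₁ (by norm_num)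
  have hρ0 : 0 < ρ := by rw [hρ]; positivity
  have hρ1 : 6 * ρ ≤ σ₁ := by rw [hρ]; linarith [min_le_left σ₁ (1 / 10)]
  have hρ2 : 6 * ρ ≤ 1 / 10 := by rw [hρ]; linarith [min_le_right σ₁ (1 / 10)]
  refine ⟨2 / c₁ + 7 + 1000, ρ, by positivity, hρ0, by linarith, ?_⟩
  have hnat : Tendsto (fun M : ℕ => (M : ℝ)) atTop atTop := tendsto_natCast_atTop_atTop
  have t1 : Tendsto (fun x : ℕ => x + 1) atTop atTop := tendsto_add_atTop_nat 1
  have t2 : Tendsto (fun x : ℕ => 2 * x + 1) atTop atTop :=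
    (tendsto_add_atTop_nat 1).comp (tendsto_id.const_mul_atTop' (by norm_num : 0 < 2))
  have ev1 : ∀ᶠ x : ℕ in atTop, 2 * (c₂ * 4 ^ d) ≤ (x : ℝ) ^ ((1 : ℝ) / 2) :=
    ((tendsto_rpow_atTop (by norm_num)).comp hnat).eventually_ge_atTop _
  have ev2 : ∀ᶠ x : ℕ in atTop, 128 ≤ (x : ℝ) ^ ((1 : ℝ) / 20) :=
    ((tendsto_rpow_atTop (by norm_num)).comp hnat).eventually_ge_atTop _
  filter_upwards [t1.eventually hweyl, t2.eventually hweyl, ev1, ev2, eventually_ge_atTop (z₀ + 2)] with x k1 k2 k3 k4 hx β hβ hβ2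
  have hx1 : 1 ≤ x := by omega
  have hxr : (1 : ℝ) ≤ x := by exact_mod_cast hx1
  have hx0 : (0 : ℝ) < x := by linarith
  have hxz : (z₀ : ℝ) ≤ x := by
    have : z₀ ≤ x := by omega
    exact_mod_cast this
  have hmono : ∀ s t : ℝ, s ≤ t → (x : ℝ) ^ s ≤ (x : ℝ) ^ t := fun s t h => Real.rpow_le_rpow_of_exponent_le hxr h
  have hX : 0 < (x : ℝ) ^ (1 - ρ) := by positivity
  have hone : 1 ≤ (x : ℝ) ^ (1 - ρ) := Real.one_le_rpow hxr (by linarith)
  have hX1 : 0 < (x : ℝ) ^ (1 - ((d : ℝ) + 1)) / β := by positivity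
  have hfpos : ∀ z : ℕ, x ≤ z → 0 ≤ pv (d + 1) a z := by
    intro z hz
    have hz' : (x : ℝ) ≤ z := by exact_mod_cast hz
    have := (hbig z (hxz.trans hz')).1.1
    exact le_trans (by positivity) this
  rcases le_or_gt β ((x : ℝ) ^ ((1 : ℝ) / 2 - ((d : ℝ) + 1))) with hc | hc
  · -- small frequencies
    have hxd : (x : ℝ) ^ d = (x : ℝ) ^ (d : ℝ) := (Real.rpow_natCast _ _).symm
    have hsmall : β * (c₂ * (4 * (x : ℝ)) ^ d) ≤ 1 / 2 := by
      have e1 : (x : ℝ) ^ ((1 : ℝ) / 2 - ((d : ℝ) + 1)) * (x : ℝ) ^ d * (x : ℝ) ^ ((1 : ℝ) / 2) = 1 := by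
        rw [hxd, ← Real.rpow_add hx0, ← Real.rpow_add hx0]
        rw [show (1 : ℝ) / 2 - ((d : ℝ) + 1) + d + 1 / 2 = 0 by ring, Real.rpow_zero]
      have e2 : 0 < (x : ℝ) ^ ((1 : ℝ) / 2 - ((d : ℝ) + 1)) * (x : ℝ) ^ d := by positivity
      calc β * (c₂ * (4 * (x : ℝ)) ^ d) ≤ (x : ℝ) ^ ((1 : ℝ) / 2 - ((d : ℝ) + 1)) * (c₂ * (4 * (x : ℝ)) ^ d) :=
            mul_le_mul_of_nonneg_right hc (by positivity)
        _ = ((x : ℝ) ^ ((1 : ℝ) / 2 - ((d : ℝ) + 1)) * (x : ℝ) ^ d) * (c₂ * 4 ^ d) := by rw [mul_pow]; ring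
        _ ≤ ((x : ℝ) ^ ((1 : ℝ) / 2 - ((d : ℝ) + 1)) * (x : ℝ) ^ d) * ((x : ℝ) ^ ((1 : ℝ) / 2) / 2) := by
          apply mul_le_mul_of_nonneg_left _ e2.le
          linarith
        _ = 1 / 2 := by
          linear_combination (1 / 2) * e1
    obtain ⟨θ, hθ⟩ : ∃ θ : ℝ, θ = β * (c₁ * (x : ℝ) ^ d) := ⟨_, rfl⟩
    have hθ0 : 0 < θ := by rw [hθ]; positivity
    have hder : ∀ z : ℕ, x + 1 ≤ z → z ≤ 2 * x + 1 → ∃ ξ : ℝ, (z : ℝ) < ξ ∧ ξ < z + 1 ∧
        β * pv (d + 1) a ((z : ℝ) + 1) - β * pv (d + 1) a z = β * pv d (da a) ξ ∧ θ ≤ β * pv d (da a) ξ ∧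
        β * pv d (da a) ξ ≤ 1 / 2 := by
      intro z hz1 hz2
      have hz1' : (x : ℝ) + 1 ≤ z := by exact_mod_cast hz1
      have hz2' : (z : ℝ) ≤ 2 * x + 1 := by exact_mod_cast hz2
      obtain ⟨ξ, h1, h2, h3⟩ := pv_mvt d a z (z + 1) (by linarith)
      refine ⟨ξ, h1, h2, ?_, ?_, ?_⟩
      · rw [← mul_sub, h3]; ring
      · rw [hθ]
        apply mul_le_mul_of_nonneg_left _ hβ.le
        refine le_trans ?_ (hbig ξ (by linarith)).2.1.1
        apply mul_le_mul_of_nonneg_left _ hc₁.le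
        exact pow_le_pow_left₀ hx0.le (by linarith) _
      · refine le_trans ?_ hsmall
        apply mul_le_mul_of_nonneg_left _ hβ.le
        refine (hbig ξ (by linarith)).2.1.2.trans ?_
        apply mul_le_mul_of_nonneg_left _ hc₂.le
        have hx2 : (2 : ℝ) ≤ x := by
          have : 2 ≤ x := by omega
          exact_mod_cast this
        exact pow_le_pow_left₀ (by linarith) (by linarith) _
    have hθ2 : θ ≤ 1 / 2 := by
      obtain ⟨ξ, _, _, _, h4, h5⟩ := hder (x + 1) le_rfl (by omega)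
      linarith
    have h2 := Pool.Agent.H469R2.NK.kusmin_landau_mono (fun n => β * pv (d + 1) a ((x + 1 + n : ℕ) : ℝ)) x hθ0
      (by
        intro n hn
        obtain ⟨ξ, _, _, h3, h4, h5⟩ := hder (x + 1 + n) (by omega) (by omega)
        have e1 : ((x + 1 + (n + 1) : ℕ) : ℝ) = ((x + 1 + n : ℕ) : ℝ) + 1 := by push_cast; ring
        simp only [e1]
        rw [h3]; exact h4)
      (by
        intro n hn
        obtain ⟨ξ, _, _, h3, h4, h5⟩ := hder (x + 1 + n) (by omega) (by omega)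
        have e1 : ((x + 1 + (n + 1) : ℕ) : ℝ) = ((x + 1 + n : ℕ) : ℝ) + 1 := by push_cast; ring
        simp only [e1]
        rw [h3]; linarith)
      (by
        intro n hn
        obtain ⟨ξ, a1, a2, h3, _, _⟩ := hder (x + 1 + n) (by omega) (by omega)
        obtain ⟨ζ, b1, b2, g3, _, _⟩ := hder (x + 1 + n + 1) (by omega) (by omega)
        have e1 : ((x + 1 + (n + 1) : ℕ) : ℝ) = ((x + 1 + n : ℕ) : ℝ) + 1 := by push_cast; ring
        have e2 : ((x + 1 + (n + 2) : ℕ) : ℝ) = ((x + 1 + n + 1 : ℕ) : ℝ) + 1 := by push_cast; ring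
        have e3 : ((x + 1 + n + 1 : ℕ) : ℝ) = ((x + 1 + n : ℕ) : ℝ) + 1 := by push_cast; ring
        have e5 : ((x + 1 + (n + 1) : ℕ) : ℝ) = ((x + 1 + n + 1 : ℕ) : ℝ) := by push_cast; ring
        simp only [e2]
        rw [e5, g3, e3, h3]
        apply mul_le_mul_of_nonneg_left _ hβ.le
        rw [e3] at b1
        have hξζ : ξ < ζ := by linarith
        obtain ⟨y, y1, y2, y3⟩ := pv_mvt (d - 1) (da a) ξ ζ hξζ
        rw [show d - 1 + 1 = d by omega] at y3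
        have hy : (z₀ : ℝ) ≤ y := by
          have : (x : ℝ) ≤ ((x + 1 + n : ℕ) : ℝ) := by push_cast; linarith [(Nat.cast_nonneg n : (0 : ℝ) ≤ n)]
          linarith
        have := mul_nonneg (show 0 ≤ ζ - ξ by linarith) (hbig y hy).2.2
        linarith)
    have h3 : ES (Ioc x (2 * x)) (wp d a) β = ∑ n ∈ range x, e (β * wp d a (x + 1 + n)) := by
      unfold ES
      have hI : Ioc x (2 * x) = Ico (x + 1) (2 * x + 1) := by
        ext n; simp only [mem_Ioc, mem_Ico]; omega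
      rw [hI, sum_Ico_eq_sum_range]
      congr 1
      congr 1
      omega
    have h4 : ‖∑ n ∈ range x, e (β * wp d a (x + 1 + n)) - ∑ n ∈ range x, e (β * pv (d + 1) a ((x + 1 + n : ℕ) : ℝ))‖ ≤
        7 * (x * β) := by
      rw [← sum_sub_distrib]
      refine (norm_sum_le _ _).trans ?_
      calc ∑ n ∈ range x, ‖e (β * wp d a (x + 1 + n)) - e (β * pv (d + 1) a ((x + 1 + n : ℕ) : ℝ))‖
          ≤ ∑ _n ∈ range x, 7 * β := by
            apply sum_le_sum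
            intro n _
            refine (Pool.Agent.N193.PS.e_sub_le _ _).trans ?_
            apply mul_le_mul_of_nonneg_left _ (by norm_num)
            rw [← mul_sub, abs_mul, abs_of_pos hβ, ← wp_floor d a _ (hfpos _ (by omega))]
            have h5 : |((⌊pv (d + 1) a ((x + 1 + n : ℕ) : ℝ)⌋ : ℤ) : ℝ) - pv (d + 1) a ((x + 1 + n : ℕ) : ℝ)| ≤ 1 := by
              rw [abs_le]
              constructor
              · linarith [Int.lt_floor_add_one (pv (d + 1) a ((x + 1 + n : ℕ) : ℝ))]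
              · linarith [Int.floor_le (pv (d + 1) a ((x + 1 + n : ℕ) : ℝ))]
            calc β * |_| ≤ β * 1 := mul_le_mul_of_nonneg_left h5 hβ.le
              _ = β := mul_one _
        _ = 7 * (x * β) := by rw [sum_const, card_range, nsmul_eq_mul]; ring
    have h5 : ‖ES (Ioc x (2 * x)) (wp d a) β‖ ≤ 7 * (x * β) + 2 / θ := by
      rw [h3]
      have := norm_add_le (∑ n ∈ range x, e (β * wp d a (x + 1 + n)) - ∑ n ∈ range x, e (β * pv (d + 1) a ((x + 1 + n : ℕ) : ℝ)))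
        (∑ n ∈ range x, e (β * pv (d + 1) a ((x + 1 + n : ℕ) : ℝ)))
      rw [sub_add_cancel] at this
      linarith
    have h6 : 2 / θ = 2 / c₁ * ((x : ℝ) ^ (1 - ((d : ℝ) + 1)) / β) := by
      have e1 : (x : ℝ) ^ (1 - ((d : ℝ) + 1)) = 1 / (x : ℝ) ^ d := by
        rw [show 1 - ((d : ℝ) + 1) = -(d : ℝ) by ring, Real.rpow_neg hx0.le, Real.rpow_natCast, one_div]
      rw [hθ, e1]
      field_simp
    have h7 : x * β ≤ (x : ℝ) ^ (1 - ρ) := by
      calc x * β ≤ x * (x : ℝ) ^ ((1 : ℝ) / 2 - ((d : ℝ) + 1)) := mul_le_mul_of_nonneg_left hc hx0.le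
        _ = (x : ℝ) ^ (1 + ((1 : ℝ) / 2 - ((d : ℝ) + 1))) := by rw [Real.rpow_add hx0, Real.rpow_one]
        _ ≤ _ := by
          apply hmono
          have : (1 : ℝ) ≤ d := by exact_mod_cast hd
          linarith
    rw [h6] at h5
    have g1 : 0 < 2 / c₁ := by positivity
    calc ‖ES (Ioc x (2 * x)) (wp d a) β‖ ≤ 7 * (x : ℝ) ^ (1 - ρ) + 2 / c₁ * ((x : ℝ) ^ (1 - ((d : ℝ) + 1)) / β) := by linarith
      _ ≤ _ := by nlinarith [mul_pos g1 hX, mul_pos g1 hX1]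
  · -- large frequencies
    obtain ⟨Q, hQ⟩ : ∃ Q : ℕ, Q = ⌊(x : ℝ) ^ ρ⌋₊ := ⟨_, rfl⟩
    have hxρ : 1 ≤ (x : ℝ) ^ ρ := Real.one_le_rpow hxr hρ0.le
    have hQ1 : 1 ≤ Q := by rw [hQ]; exact Nat.le_floor (by exact_mod_cast hxρ)
    have hQr : (1 : ℝ) ≤ Q := by exact_mod_cast hQ1
    have hQup : (Q : ℝ) ≤ (x : ℝ) ^ ρ := by rw [hQ]; exact Nat.floor_le (by positivity)
    have hQlow : (x : ℝ) ^ ρ ≤ 2 * Q := by
      have : (x : ℝ) ^ ρ < Q + 1 := by rw [hQ]; exact Nat.lt_floor_add_one _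
      linarith
    have hQ3 : (Q : ℝ) ^ 3 ≤ (x : ℝ) ^ (3 * ρ) := by
      calc (Q : ℝ) ^ 3 ≤ ((x : ℝ) ^ ρ) ^ 3 := pow_le_pow_left₀ (by linarith) hQup 3
        _ = _ := by rw [← Real.rpow_natCast, ← Real.rpow_mul hx0.le]; congr 1; push_cast; ring
    have h128 : 128 * (Q : ℝ) ^ 3 ≤ (x : ℝ) ^ ((1 : ℝ) / 10) := by
      calc 128 * (Q : ℝ) ^ 3 ≤ (x : ℝ) ^ ((1 : ℝ) / 20) * (x : ℝ) ^ (3 * ρ) := mul_le_mul k4 hQ3 (by positivity) (by positivity)
        _ = (x : ℝ) ^ ((1 : ℝ) / 20 + 3 * ρ) := (Real.rpow_add hx0 _ _).symm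
        _ ≤ _ := hmono _ _ (by linarith)
    obtain ⟨E, hE⟩ : ∃ E : ℝ, E = 5 * (x : ℝ) ^ (1 - σ₁) := ⟨_, rfl⟩
    have hE0 : 0 ≤ E := by rw [hE]; positivity
    have hblk : ∀ t : ℝ, (x : ℝ) ^ ((1 : ℝ) / 2 - ((d : ℝ) + 1)) ≤ |t| → |t| ≤ (x : ℝ) ^ ((1 : ℝ) / 10) →
        ‖∑ n ∈ Ioc x (2 * x), e (t * pv (d + 1) a n)‖ ≤ E := by
      intro t ht1 ht2
      have e1 := k1 t (by
        refine le_trans ?_ ht1
        push_cast
        have : (0 : ℝ) ≤ d := Nat.cast_nonneg _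
        exact Real.rpow_le_rpow_of_nonpos hx0 (by linarith) (by linarith)) (ht2.trans (by
        apply Real.rpow_le_rpow hx0.le _ (by norm_num)
        push_cast; linarith))
      have e2 := k2 t (by
        refine le_trans ?_ ht1
        push_cast
        have : (0 : ℝ) ≤ d := Nat.cast_nonneg _
        exact Real.rpow_le_rpow_of_nonpos hx0 (by linarith) (by linarith)) (ht2.trans (by
        apply Real.rpow_le_rpow hx0.le _ (by norm_num)
        push_cast; linarith))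
      have hsplit : ∑ n ∈ Ioc x (2 * x), e (t * pv (d + 1) a n) = ∑ n ∈ range (2 * x + 1), e (t * pv (d + 1) a n) -
          ∑ n ∈ range (x + 1), e (t * pv (d + 1) a n) := by
        rw [eq_sub_iff_add_eq, add_comm]
        have hU : range (2 * x + 1) = range (x + 1) ∪ Ioc x (2 * x) := by
          ext n; simp only [mem_union, mem_range, mem_Ioc]; omega
        rw [hU, sum_union]
        rw [disjoint_left]
        intro n h1 h2
        simp only [mem_range, mem_Ioc] at h1 h2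
        omega
      have hup : ∀ (M : ℕ) (c : ℝ), 1 ≤ c → (M : ℝ) ≤ c * x → (M : ℝ) ^ (1 - σ₁) ≤ c * (x : ℝ) ^ (1 - σ₁) := by
        intro M c hc1 hM
        calc (M : ℝ) ^ (1 - σ₁) ≤ (c * x) ^ (1 - σ₁) := Real.rpow_le_rpow (Nat.cast_nonneg _) hM (by linarith)
          _ = c ^ (1 - σ₁) * (x : ℝ) ^ (1 - σ₁) := Real.mul_rpow (by linarith) hx0.le
          _ ≤ _ := by
            apply mul_le_mul_of_nonneg_right _ (by positivity)
            calc c ^ (1 - σ₁) ≤ c ^ (1 : ℝ) := Real.rpow_le_rpow_of_exponent_le hc1 (by linarith)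
              _ = c := Real.rpow_one c
      have e3 := hup (x + 1) 2 (by norm_num) (by push_cast; linarith)
      have e4 := hup (2 * x + 1) 3 (by norm_num) (by push_cast; linarith)
      rw [hsplit, hE]
      refine (norm_sub_le _ _).trans ?_
      linarith
    have hfl := Pool.Agent.N193.PS.floor_sum (Ioc x (2 * x)) (fun n : ℕ => pv (d + 1) a (n : ℝ)) Q hQ1 β
      (by rw [abs_of_pos hβ]; linarith) E hE0
      (by
        intro m hm
        have hm' : |(m : ℝ)| ≤ 128 * (Q : ℝ) ^ 3 - 1 := by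
          have h1 : |m| + 1 ≤ ((128 * Q ^ 3 : ℕ) : ℤ) := hm
          have h2 : |(m : ℝ)| + 1 ≤ 128 * (Q : ℝ) ^ 3 := by exact_mod_cast h1
          linarith
        apply hblk
        · by_cases h0 : m = 0
          · rw [h0, Int.cast_zero, add_zero, abs_of_pos hβ]
            exact hc.le
          · have h1 : (1 : ℝ) ≤ |(m : ℝ)| := by
              have := Int.one_le_abs h0
              exact_mod_cast this
            have h2 : |(m : ℝ)| ≤ |β + m| + β := by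
              have := abs_sub_abs_le_abs_sub (m : ℝ) (-β)
              rw [abs_neg, abs_of_pos hβ] at this
              have h3 : |(m : ℝ) - -β| = |β + m| := by congr 1; ring
              rw [h3] at this
              linarith
            linarith
        · have h2 : |β + m| ≤ |β| + |(m : ℝ)| := abs_add_le _ _
          rw [abs_of_pos hβ] at h2
          linarith)
      (by
        intro m hm0 hm
        have h1 : (1 : ℝ) ≤ |(m : ℝ)| := by
          have := Int.one_le_abs hm0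
          exact_mod_cast this
        have h2 : |(m : ℝ)| ≤ Q := by
          have : |m| ≤ (Q : ℤ) := hm.le
          exact_mod_cast this
        apply hblk
        · refine le_trans ?_ h1
          apply Real.rpow_le_one_of_one_le_of_nonpos hxr
          have : (0 : ℝ) ≤ d := Nat.cast_nonneg _
          linarith
        · refine h2.trans (le_trans ?_ h128)
          have : (Q : ℝ) ≤ (Q : ℝ) ^ 3 := le_self_pow₀ hQr (by norm_num)
          nlinarith)
    have hES : ES (Ioc x (2 * x)) (wp d a) β = ∑ n ∈ Ioc x (2 * x), e (β * ⌊pv (d + 1) a (n : ℝ)⌋) := by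
      unfold ES
      apply sum_congr rfl
      intro n hn
      rw [mem_Ioc] at hn
      rw [wp_floor d a n (hfpos n hn.1.le)]
    rw [hES]
    refine hfl.trans ?_
    rw [Nat.card_Ioc, show 2 * x - x = x by omega]
    have g1 : (128 * (Q : ℝ) ^ 3 + 8) * E ≤ 680 * (x : ℝ) ^ (1 - ρ) := by
      have f1 : 128 * (Q : ℝ) ^ 3 + 8 ≤ 136 * (x : ℝ) ^ (3 * ρ) := by
        have : 1 ≤ (x : ℝ) ^ (3 * ρ) := Real.one_le_rpow hxr (by linarith)
        linarith
      calc (128 * (Q : ℝ) ^ 3 + 8) * E ≤ (136 * (x : ℝ) ^ (3 * ρ)) * (5 * (x : ℝ) ^ (1 - σ₁)) := by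
            rw [hE]; exact mul_le_mul_of_nonneg_right f1 (by positivity)
        _ = 680 * ((x : ℝ) ^ (3 * ρ) * (x : ℝ) ^ (1 - σ₁)) := by ring
        _ = 680 * (x : ℝ) ^ (3 * ρ + (1 - σ₁)) := by rw [← Real.rpow_add hx0]
        _ ≤ _ := by
          apply mul_le_mul_of_nonneg_left _ (by norm_num)
          exact hmono _ _ (by linarith)
    have g2 : 10 * ((x : ℝ) / Q) ≤ 20 * (x : ℝ) ^ (1 - ρ) := by
      have f1 : (x : ℝ) / Q ≤ 2 * (x : ℝ) ^ (1 - ρ) := by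
        rw [div_le_iff₀ (by linarith)]
        have f2 : (x : ℝ) = (x : ℝ) ^ (1 - ρ) * (x : ℝ) ^ ρ := by
          rw [← Real.rpow_add hx0, sub_add_cancel, Real.rpow_one]
        calc (x : ℝ) = (x : ℝ) ^ (1 - ρ) * (x : ℝ) ^ ρ := f2
          _ ≤ (x : ℝ) ^ (1 - ρ) * (2 * Q) := mul_le_mul_of_nonneg_left hQlow hX.le
          _ = _ := by ring
      linarith
    have g3 : 0 < 2 / c₁ := by positivity
    calc _ ≤ 700 * (x : ℝ) ^ (1 - ρ) := by linarith
      _ ≤ _ := by nlinarith [mul_pos g3 hX, mul_pos g3 hX1]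

end Pool.Agent.Zk40.V
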