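import Pool.Agent.Zk40.W.Levels

/-!
Waring's problem for almost all polynomials: pairs with given approximate values of two functions of different growth.
-/

namespace Pool.Agent.Zk40.V

open Finset
open Pool.Agent.Zk40.W (card_fib)

/-- Two functions growing like `x ^ (d + 1)` and `x ^ (e + 1)`, with separated ratios of the derivatives. -/
structure Dat (d e : ℕ) (c₁ c₂ c₃ : ℝ) (Q₀ : ℕ) (F G F' G' : ℝ → ℝ) : Prop where
  dF : ∀ x, HasDerivAt F (F' x) x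
  dG : ∀ x, HasDerivAt G (G' x) x
  F1 : ∀ Q : ℕ, Q₀ ≤ Q → ∀ x : ℝ, (Q : ℝ) ≤ x → x ≤ 4 * Q → c₁ * (Q : ℝ) ^ d ≤ F' x ∧ F' x ≤ c₂ * (Q : ℝ) ^ d
  G1 : ∀ Q : ℕ, Q₀ ≤ Q → ∀ x : ℝ, (Q : ℝ) ≤ x → x ≤ 4 * Q → |G' x| ≤ c₂ * (Q : ℝ) ^ e
  sep : ∀ Q : ℕ, Q₀ ≤ Q → ∀ a b : ℝ, (Q : ℝ) ≤ a → a ≤ 2 * Q → 3 * (Q : ℝ) ≤ b → b ≤ 4 * Q →
    c₃ * (Q : ℝ) ^ (d + e) ≤ |G' b * F' a - G' a * F' b|
  F0 : ∀ Q : ℕ, Q₀ ≤ Q → ∀ x : ℝ, (Q : ℝ) ≤ x → x ≤ 4 * Q → |F x| ≤ c₂ * (Q : ℝ) ^ (d + 1)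
  G0 : ∀ Q : ℕ, Q₀ ≤ Q → ∀ x : ℝ, (Q : ℝ) ≤ x → x ≤ 4 * Q → |G x| ≤ c₂ * (Q : ℝ) ^ (e + 1)

lemma cauchy (F G F' G' : ℝ → ℝ) (dF : ∀ x, HasDerivAt F (F' x) x) (dG : ∀ x, HasDerivAt G (G' x) x) (lo hi a b : ℝ)
    (ha : lo ≤ a) (ha2 : a ≤ hi) (hb : lo ≤ b) (hb2 : b ≤ hi) :
    ∃ z, lo ≤ z ∧ z ≤ hi ∧ (G a - G b) * F' z = (F a - F b) * G' z := by
  have key : ∀ a b : ℝ, lo ≤ b → b < a → a ≤ hi → ∃ z, lo ≤ z ∧ z ≤ hi ∧ (G a - G b) * F' z = (F a - F b) * G' z := by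
    intro a b hb hab ha
    obtain ⟨z, hz, hz2⟩ := exists_ratio_hasDerivAt_eq_ratio_slope F F' hab
      (fun x _ => (dF x).continuousAt.continuousWithinAt) (fun x _ => dF x) G G'
      (fun x _ => (dG x).continuousAt.continuousWithinAt) (fun x _ => dG x)
    exact ⟨z, by linarith [hz.1], by linarith [hz.2], hz2⟩
  rcases lt_trichotomy a b with h | h | h
  · obtain ⟨z, h1, h2, h3⟩ := key b a ha h hb2
    exact ⟨z, h1, h2, by linear_combination -h3⟩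
  · exact ⟨a, ha, ha2, by rw [h]; ring⟩
  · exact key a b hb h ha2

lemma slope (F F' : ℝ → ℝ) (dF : ∀ x, HasDerivAt F (F' x) x) (lo hi a b m : ℝ) (ha : lo ≤ a) (ha2 : a ≤ hi)
    (hb : lo ≤ b) (hb2 : b ≤ hi) (hm : ∀ x, lo ≤ x → x ≤ hi → m ≤ F' x) (hm0 : 0 ≤ m) : m * |a - b| ≤ |F a - F b| := by
  obtain ⟨z, h1, h2, h3⟩ := cauchy (fun x => x) F (fun _ => 1) F' (fun x => hasDerivAt_id' x) dF lo hi a b ha ha2 hb hb2
  rw [mul_one] at h3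
  rw [h3, abs_mul, mul_comm]
  have := hm z h1 h2
  rw [abs_of_nonneg (hm0.trans this)]
  exact mul_le_mul_of_nonneg_left this (abs_nonneg _)

lemma card_near (A : Finset ℕ) (a₀ : ℕ) (L : ℝ) (hL : 0 ≤ L) (h : ∀ a ∈ A, |(a : ℝ) - a₀| ≤ L) : (A.card : ℝ) ≤ 2 * L + 1 := by
  set m := ⌊L⌋₊ with hm
  have hm2 : (m : ℝ) ≤ L := Nat.floor_le hL
  have hsub : A ⊆ Icc (a₀ - m) (a₀ + m) := by
    intro x hx
    have hxy := h x hx
    rw [abs_le] at hxy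
    rw [mem_Icc]
    rcases le_total x a₀ with hc | hc
    · refine ⟨?_, by omega⟩
      have : ((a₀ - x : ℕ) : ℝ) ≤ L := by rw [Nat.cast_sub hc]; linarith [hxy.1]
      have := Nat.le_floor this
      omega
    · refine ⟨by omega, ?_⟩
      have : ((x - a₀ : ℕ) : ℝ) ≤ L := by rw [Nat.cast_sub hc]; linarith [hxy.2]
      have := Nat.le_floor this
      omega
  have hc : A.card ≤ 2 * m + 1 := by
    refine (card_le_card hsub).trans ?_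
    rw [Nat.card_Icc]; omega
  have : (A.card : ℝ) ≤ 2 * m + 1 := by exact_mod_cast hc
  linarith

/-- the number of pairs with given approximate values -/
theorem fib (c₁ c₂ c₃ : ℝ) (h1 : 0 < c₁) (h3 : 0 < c₃) : ∃ C : ℝ, 1 ≤ C ∧ ∀ (d e Q₀ : ℕ)
    (F G F' G' : ℝ → ℝ), Dat d e c₁ c₂ c₃ Q₀ F G F' G' → ∀ (Q : ℕ), Q₀ ≤ Q → 1 ≤ Q → ∀ Tm Tn c c' : ℝ, (Q : ℝ) ^ d ≤ Tm →
    Tm * (Q : ℝ) ^ e ≤ Tn * (Q : ℝ) ^ d → ∀ S ⊆ W.box Q, (∀ p ∈ S, |F (p.1 : ℝ) + F (p.2 : ℝ) - c| ≤ Tm) →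
    (∀ p ∈ S, |G (p.1 : ℝ) + G (p.2 : ℝ) - c'| ≤ Tn) →
    (S.card : ℝ) * (Q : ℝ) ^ d ≤ C * Tm * Q ∧ (S.card : ℝ) * (Q : ℝ) ^ d * (Q : ℝ) ^ e ≤ C * Tm * Tn := by
  refine ⟨(4 / c₁ + 1) * (8 * c₂ ^ 2 / (c₁ * c₃) + 2), ?_, ?_⟩
  · have e1 : 0 ≤ 4 / c₁ := by positivity
    have e2 : 0 ≤ 8 * c₂ ^ 2 / (c₁ * c₃) := by positivity
    nlinarith
  intro d e Q₀ F G F' G' D Q hQ hQ1 Tm Tn c c' hTm hTn S hS hF hG
  have hQr : (1 : ℝ) ≤ Q := by exact_mod_cast hQ1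
  have hQ0 : (0 : ℝ) < Q := by linarith
  have hQd : 0 < (Q : ℝ) ^ d := by positivity
  have hQe : 0 < (Q : ℝ) ^ e := by positivity
  have hTm0 : 0 < Tm := lt_of_lt_of_le hQd hTm
  have hTn0 : 0 < Tn := by
    have : 0 < Tn * (Q : ℝ) ^ d := lt_of_lt_of_le (by positivity) hTn
    exact pos_of_mul_pos_left this hQd.le
  have hmem : ∀ p ∈ S, ((Q : ℝ) ≤ p.1 ∧ (p.1 : ℝ) ≤ 2 * Q) ∧ (3 * (Q : ℝ) ≤ p.2 ∧ (p.2 : ℝ) ≤ 4 * Q) := by
    intro p hp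
    have := hS hp
    simp only [W.box, mem_product, mem_Icc] at this
    obtain ⟨⟨p1, p2⟩, p3, p4⟩ := this
    exact ⟨⟨by exact_mod_cast p1, by exact_mod_cast p2⟩, by exact_mod_cast p3, by exact_mod_cast p4⟩
  -- fibers over the second coordinate
  have hfib : ∀ b ∈ S.image (fun p => p.2), ((S.filter (fun p => p.2 = b)).card : ℝ) ≤ (4 / c₁ + 1) * (Tm / (Q : ℝ) ^ d) := by
    intro b hb
    rw [mem_image] at hb
    obtain ⟨q, hq, hqb⟩ := hb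
    have hinj : Set.InjOn (fun p : ℕ × ℕ => p.1) ((S.filter (fun p => p.2 = b) : Finset _) : Set (ℕ × ℕ)) := by
      intro x hx y hy hxy
      have hx' := (mem_filter.1 (mem_coe.1 hx)).2
      have hy' := (mem_filter.1 (mem_coe.1 hy)).2
      exact Prod.ext hxy (by rw [hx', hy'])
    rw [← card_image_of_injOn hinj]
    have hL : 0 ≤ 2 * Tm / (c₁ * (Q : ℝ) ^ d) := by positivity
    have hcn := card_near ((S.filter (fun p => p.2 = b)).image (fun p => p.1)) q.1 (2 * Tm / (c₁ * (Q : ℝ) ^ d)) hL (by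
      intro a ha
      rw [mem_image] at ha
      obtain ⟨p, hp, rfl⟩ := ha
      rw [mem_filter] at hp
      obtain ⟨m1, _⟩ := hmem p hp.1
      obtain ⟨n1, _⟩ := hmem q hq
      have e1 := slope F F' D.dF Q (4 * Q) p.1 q.1 (c₁ * (Q : ℝ) ^ d) m1.1 (by linarith [m1.2]) n1.1 (by linarith [n1.2])
        (fun x hx hx2 => (D.F1 Q hQ x hx hx2).1) (by positivity)
      have e2 : |F (p.1 : ℝ) - F (q.1 : ℝ)| ≤ 2 * Tm := by
        have e3 := hF p hp.1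
        have e4 := hF q hq
        have e5 : F (p.1 : ℝ) - F (q.1 : ℝ) = (F (p.1 : ℝ) + F (p.2 : ℝ) - c) - (F (q.1 : ℝ) + F (q.2 : ℝ) - c) := by
          rw [hp.2, hqb]; ring
        rw [e5]
        exact (abs_sub _ _).trans (by linarith)
      rw [le_div_iff₀ (by positivity)]
      linarith)
    refine hcn.trans ?_
    have e1 : 1 ≤ Tm / (Q : ℝ) ^ d := by rwa [one_le_div hQd]
    have e2 : 2 * (2 * Tm / (c₁ * (Q : ℝ) ^ d)) = 4 / c₁ * (Tm / (Q : ℝ) ^ d) := by field_simp; norm_num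
    rw [e2]
    linarith
  have hcard := card_fib S (fun p => p.2) _ hfib
  have hA0 : 0 ≤ (4 / c₁ + 1) * (Tm / (Q : ℝ) ^ d) := by positivity
  have hE0 : 0 ≤ 8 * c₂ ^ 2 / (c₁ * c₃) := by positivity
  -- the number of second coordinates
  have hb1 : ((S.image (fun p => p.2)).card : ℝ) ≤ 2 * Q := by
    have hsub : S.image (fun p => p.2) ⊆ Icc (3 * Q) (4 * Q) := by
      intro b hb
      rw [mem_image] at hb
      obtain ⟨p, hp, rfl⟩ := hb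
      have := hS hp
      simp only [W.box, mem_product] at this
      exact this.2
    have := card_le_card hsub
    rw [Nat.card_Icc] at this
    have h2 : (S.image (fun p => p.2)).card ≤ 2 * Q := by omega
    exact_mod_cast h2
  have hb2 : ((S.image (fun p => p.2)).card : ℝ) ≤ (8 * c₂ ^ 2 / (c₁ * c₃) + 2) * (Tn / (Q : ℝ) ^ e) := by
    rcases S.eq_empty_or_nonempty with hE | ⟨q, hq⟩
    · rw [hE]; simp; positivity
    have hL : 0 ≤ 4 * c₂ ^ 2 * Tn / (c₁ * c₃ * (Q : ℝ) ^ e) := by positivity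
    have hcn := card_near (S.image (fun p => p.2)) q.2 (4 * c₂ ^ 2 * Tn / (c₁ * c₃ * (Q : ℝ) ^ e)) hL (by
      intro b hb
      rw [mem_image] at hb
      obtain ⟨p, hp, rfl⟩ := hb
      obtain ⟨m1, m2⟩ := hmem p hp
      obtain ⟨n1, n2⟩ := hmem q hq
      obtain ⟨ξ, x1, x2, x3⟩ := cauchy F G F' G' D.dF D.dG Q (2 * Q) p.1 q.1 m1.1 m1.2 n1.1 n1.2
      obtain ⟨ζ, y1, y2, y3⟩ := cauchy F G F' G' D.dF D.dG (3 * Q) (4 * Q) p.2 q.2 m2.1 m2.2 n2.1 n2.2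
      have e1 := slope F F' D.dF Q (4 * Q) p.2 q.2 (c₁ * (Q : ℝ) ^ d) (by linarith [m2.1]) m2.2 (by linarith [n2.1]) n2.2
        (fun x hx hx2 => (D.F1 Q hQ x hx hx2).1) (by positivity)
      set A₁ := F (p.1 : ℝ) - F (q.1 : ℝ) with hA₁
      set A₂ := F (p.2 : ℝ) - F (q.2 : ℝ) with hA₂
      set B₁ := G (p.1 : ℝ) - G (q.1 : ℝ) with hB₁
      set B₂ := G (p.2 : ℝ) - G (q.2 : ℝ) with hB₂
      have f1 : |A₁ + A₂| ≤ 2 * Tm := by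
        have e3 := hF p hp
        have e4 := hF q hq
        have e5 : A₁ + A₂ = (F (p.1 : ℝ) + F (p.2 : ℝ) - c) - (F (q.1 : ℝ) + F (q.2 : ℝ) - c) := by rw [hA₁, hA₂]; ring
        rw [e5]
        exact (abs_sub _ _).trans (by linarith)
      have f2 : |B₁ + B₂| ≤ 2 * Tn := by
        have e3 := hG p hp
        have e4 := hG q hq
        have e5 : B₁ + B₂ = (G (p.1 : ℝ) + G (p.2 : ℝ) - c') - (G (q.1 : ℝ) + G (q.2 : ℝ) - c') := by rw [hB₁, hB₂]; ring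
        rw [e5]
        exact (abs_sub _ _).trans (by linarith)
      have g1 := D.F1 Q hQ ξ x1 (by linarith)
      have g2 := D.F1 Q hQ ζ (by linarith) y2
      have g3 := D.G1 Q hQ ξ x1 (by linarith)
      have g5 := D.sep Q hQ ξ ζ x1 x2 y1 y2
      have hid : A₂ * (G' ζ * F' ξ - G' ξ * F' ζ) = (B₁ + B₂) * (F' ξ * F' ζ) - (A₁ + A₂) * (G' ξ * F' ζ) := by
        linear_combination (-(F' ξ)) * y3 - (F' ζ) * x3
      have hc2 : 0 < c₂ * (Q : ℝ) ^ d := by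
        have : 0 < c₁ * (Q : ℝ) ^ d := by positivity
        linarith [g1.1, g1.2]
      have hF1 : |F' ξ| ≤ c₂ * (Q : ℝ) ^ d := by
        rw [abs_of_nonneg (le_trans (by positivity) g1.1)]; exact g1.2
      have hF2 : |F' ζ| ≤ c₂ * (Q : ℝ) ^ d := by
        rw [abs_of_nonneg (le_trans (by positivity) g2.1)]; exact g2.2
      have hab : |A₂| * (c₃ * (Q : ℝ) ^ (d + e)) ≤ 2 * Tn * (c₂ * (Q : ℝ) ^ d * (c₂ * (Q : ℝ) ^ d)) +
          2 * Tm * (c₂ * (Q : ℝ) ^ e * (c₂ * (Q : ℝ) ^ d)) := by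
        calc |A₂| * (c₃ * (Q : ℝ) ^ (d + e)) ≤ |A₂| * |G' ζ * F' ξ - G' ξ * F' ζ| :=
              mul_le_mul_of_nonneg_left g5 (abs_nonneg _)
          _ = |(B₁ + B₂) * (F' ξ * F' ζ) - (A₁ + A₂) * (G' ξ * F' ζ)| := by rw [← abs_mul, hid]
          _ ≤ |(B₁ + B₂) * (F' ξ * F' ζ)| + |(A₁ + A₂) * (G' ξ * F' ζ)| := abs_sub _ _
          _ = |B₁ + B₂| * (|F' ξ| * |F' ζ|) + |A₁ + A₂| * (|G' ξ| * |F' ζ|) := by
              rw [abs_mul, abs_mul, abs_mul, abs_mul]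
          _ ≤ _ := by
              apply add_le_add
              · apply mul_le_mul f2 _ (by positivity) (by positivity)
                exact mul_le_mul hF1 hF2 (abs_nonneg _) hc2.le
              · apply mul_le_mul f1 _ (by positivity) (by positivity)
                exact mul_le_mul g3 hF2 (abs_nonneg _) ((abs_nonneg _).trans g3)
      have hab2 : |A₂| * (c₃ * (Q : ℝ) ^ e) ≤ 4 * c₂ ^ 2 * Tn * (Q : ℝ) ^ d := by
        have h9 : |A₂| * (c₃ * (Q : ℝ) ^ e) * (Q : ℝ) ^ d ≤ (4 * c₂ ^ 2 * Tn * (Q : ℝ) ^ d) * (Q : ℝ) ^ d := by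
          have h10 : 2 * Tm * (c₂ * (Q : ℝ) ^ e * (c₂ * (Q : ℝ) ^ d)) ≤ 2 * c₂ ^ 2 * (Q : ℝ) ^ d * (Tn * (Q : ℝ) ^ d) := by
            have := mul_le_mul_of_nonneg_left hTn (show 0 ≤ 2 * c₂ ^ 2 * (Q : ℝ) ^ d by positivity)
            linarith
          have h11 : |A₂| * (c₃ * (Q : ℝ) ^ (d + e)) = |A₂| * (c₃ * (Q : ℝ) ^ e) * (Q : ℝ) ^ d := by
            rw [pow_add]; ring
          rw [← h11]
          linarith
        exact le_of_mul_le_mul_right h9 hQd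
      rw [le_div_iff₀ (by positivity)]
      have h12 : (c₁ * (Q : ℝ) ^ d * |(p.2 : ℝ) - q.2|) * (c₃ * (Q : ℝ) ^ e) ≤ 4 * c₂ ^ 2 * Tn * (Q : ℝ) ^ d :=
        (mul_le_mul_of_nonneg_right e1 (by positivity)).trans hab2
      have h13 : |(p.2 : ℝ) - q.2| * (c₁ * c₃ * (Q : ℝ) ^ e) * (Q : ℝ) ^ d ≤ 4 * c₂ ^ 2 * Tn * (Q : ℝ) ^ d := by
        refine le_trans (le_of_eq ?_) h12
        ring
      exact le_of_mul_le_mul_right h13 hQd)
    refine hcn.trans ?_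
    have e1 : 1 ≤ Tn / (Q : ℝ) ^ e := by
      rw [one_le_div hQe]
      have : (Q : ℝ) ^ e * (Q : ℝ) ^ d ≤ Tn * (Q : ℝ) ^ d := by
        refine le_trans ?_ hTn
        rw [mul_comm]
        exact mul_le_mul_of_nonneg_right hTm hQe.le
      exact le_of_mul_le_mul_right this hQd
    have e2 : 2 * (4 * c₂ ^ 2 * Tn / (c₁ * c₃ * (Q : ℝ) ^ e)) = 8 * c₂ ^ 2 / (c₁ * c₃) * (Tn / (Q : ℝ) ^ e) := by
      field_simp; ring
    rw [e2]
    linarith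
  constructor
  · calc (S.card : ℝ) * (Q : ℝ) ^ d ≤ ((4 / c₁ + 1) * (Tm / (Q : ℝ) ^ d) * (2 * Q)) * (Q : ℝ) ^ d := by
          apply mul_le_mul_of_nonneg_right _ hQd.le
          exact hcard.trans (mul_le_mul_of_nonneg_left hb1 hA0)
      _ = (4 / c₁ + 1) * 2 * Tm * Q := by field_simp
      _ ≤ (4 / c₁ + 1) * (8 * c₂ ^ 2 / (c₁ * c₃) + 2) * Tm * Q := by
          gcongr
          linarith
  · calc (S.card : ℝ) * (Q : ℝ) ^ d * (Q : ℝ) ^ e ≤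
        ((4 / c₁ + 1) * (Tm / (Q : ℝ) ^ d) * ((8 * c₂ ^ 2 / (c₁ * c₃) + 2) * (Tn / (Q : ℝ) ^ e))) * (Q : ℝ) ^ d * (Q : ℝ) ^ e := by
          gcongr
          exact hcard.trans (mul_le_mul_of_nonneg_left hb2 hA0)
      _ = _ := by field_simp

end Pool.Agent.Zk40.V
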