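import Pool.Agent.Zk40.V.Pol
import Pool.Agent.H373R2.NB.Weyl

/-!
Waring's problem for almost all polynomials: the inverse theorem for Weyl sums, for all coefficients.
-/

namespace Pool.Agent.Zk40.V

open Finset
open Pool.Agent.H373R2.NB (Ph IW IW_all)
open Pool.Agent.Helper602.MK (ee)
open Pool.Agent.Helper602.MK.N_J5b (ee_add norm_ee ee_int)

/-- the coefficients of the shifted polynomial -/
noncomputable def sh (D : ℕ) (a : ℕ → ℝ) (y : ℝ) (i : ℕ) : ℝ :=
  ∑ l ∈ range (D + 1), a l * ((l.choose i : ℕ) * y ^ (l - i))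

lemma pv_shift (D : ℕ) (a : ℕ → ℝ) (x y : ℝ) : pv D a (x + y) = pv D (sh D a y) x := by
  unfold pv sh
  simp_rw [sum_mul]
  rw [sum_comm]
  apply sum_congr rfl
  intro l hl
  rw [mem_range] at hl
  rw [add_pow, mul_sum]
  rw [← sum_subset (s₁ := range (l + 1)) (s₂ := range (D + 1)) (range_subset_range.2 (by omega))]
  · apply sum_congr rfl
    intro i _
    ring
  · intro i _ hi
    rw [mem_range, not_lt] at hi
    rw [Nat.choose_eq_zero_of_lt (by omega)]
    simp

lemma sh_split (D : ℕ) (a : ℕ → ℝ) (y : ℝ) (i : ℕ) (hi : i ≤ D) :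
    sh D a y i = a i + ∑ l ∈ Ioc i D, a l * ((l.choose i : ℕ) * y ^ (l - i)) := by
  unfold sh
  have h1 : range (D + 1) = range i ∪ ({i} ∪ Ioc i D) := by
    ext l; simp only [mem_range, mem_union, mem_singleton, mem_Ioc]; omega
  rw [h1, sum_union, sum_union]
  · have h2 : ∑ l ∈ range i, a l * ((l.choose i : ℕ) * y ^ (l - i)) = 0 := by
      apply sum_eq_zero
      intro l hl
      rw [mem_range] at hl
      rw [Nat.choose_eq_zero_of_lt hl]
      simp
    rw [h2, zero_add, sum_singleton, Nat.choose_self]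
    simp
  · rw [disjoint_left]
    intro l h2 h3
    simp only [mem_singleton, mem_Ioc] at h2 h3
    omega
  · rw [disjoint_left]
    intro l h2 h3
    simp only [mem_range, mem_union, mem_singleton, mem_Ioc] at h2 h3
    omega

lemma pv_scale (D : ℕ) (a : ℕ → ℝ) (q x : ℝ) : pv D a (q * x) = pv D (fun i => a i * q ^ i) x := by
  unfold pv
  apply sum_congr rfl
  intro i _
  rw [mul_pow]; ring

/-- polynomial phases -/
lemma Ph_pv (D : ℕ) : ∀ a : ℕ → ℝ, Ph D ((D.factorial : ℝ) * a D) (fun n => pv D a n) := by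
  induction D with
  | zero =>
    intro a n
    simp [pv]
  | succ D ih =>
    intro a h
    have h1 := ih (fun i => sh (D + 1) a h i - a i)
    have h2 : (fun n : ℕ => pv (D + 1) a ((n + h : ℕ) : ℝ) - pv (D + 1) a (n : ℝ)) =
        (fun n : ℕ => pv D (fun i => sh (D + 1) a h i - a i) (n : ℝ)) := by
      funext n
      push_cast
      rw [pv_shift]
      have h3 : sh (D + 1) a h (D + 1) = a (D + 1) := by
        rw [sh_split _ _ _ _ le_rfl]; simp
      unfold pv
      rw [sum_range_succ _ (D + 1), sum_range_succ _ (D + 1), h3, add_sub_add_right_eq_sub, ← sum_sub_distrib]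
      apply sum_congr rfl
      intro i _
      ring
    show Ph D _ _
    rw [h2]
    convert h1 using 1
    have h4 : sh (D + 1) a h D = a D + a (D + 1) * (((D + 1 : ℕ) : ℝ) * h) := by
      rw [sh_split _ _ _ _ (Nat.le_succ D)]
      have : Ioc D (D + 1) = {D + 1} := by
        ext l; simp only [mem_Ioc, mem_singleton]; omega
      rw [this, sum_singleton, Nat.choose_succ_self_right]
      simp
    rw [h4, Nat.factorial_succ]
    push_cast
    ring

/-- from the shifted polynomial to the polynomial -/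
lemma desc (D : ℕ) (a : ℕ → ℝ) (N : ℝ) (hN : 1 ≤ N) (n₀ : ℕ) (hn₀ : (n₀ : ℝ) ≤ N) (R : ℕ) (A : ℝ) (hA : 1 ≤ A) (hR : (R : ℝ) ≤ A)
    (h : ∀ i, 1 ≤ i → i ≤ D → ∃ b : ℤ, |(R : ℝ) * sh D a n₀ i - b| ≤ A / N ^ i) :
    ∀ s i, 1 ≤ i → i ≤ D → D - i = s →
      ∃ b : ℤ, |(R : ℝ) ^ (D + 1 - i) * a i - b| ≤ ((1 + D * 2 ^ D) * A ^ (D + 1)) ^ (D + 1 - i) / N ^ i := by
  intro s
  induction s using Nat.strong_induction_on with
  | _ s ih =>
    intro i hi1 hiD his
    obtain ⟨β, hβ⟩ := h i hi1 hiD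
    obtain ⟨E, hE⟩ : ∃ E : ℝ, E = (1 + D * 2 ^ D) * A ^ (D + 1) := ⟨_, rfl⟩
    rw [← hE]
    have hA1 : 1 ≤ A ^ (D + 1) := one_le_pow₀ hA
    have hE1 : 1 ≤ E := by
      rw [hE]
      have : (0 : ℝ) ≤ D * 2 ^ D := by positivity
      nlinarith
    have hex : ∀ l, ∃ b : ℤ, l ∈ Ioc i D → |(R : ℝ) ^ (D + 1 - l) * a l - b| ≤ E ^ (D + 1 - l) / N ^ l := by
      intro l
      by_cases hl : l ∈ Ioc i D
      · rw [mem_Ioc] at hl
        obtain ⟨b, hb⟩ := ih (D - l) (by omega) l (by omega) hl.2 rfl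
        rw [← hE] at hb
        exact ⟨b, fun _ => hb⟩
      · exact ⟨0, fun h => absurd h hl⟩
    choose b hb using hex
    refine ⟨(R : ℤ) ^ (D - i) * β - ∑ l ∈ Ioc i D, (l.choose i : ℤ) * (n₀ : ℤ) ^ (l - i) * (R : ℤ) ^ (l - i) * b l, ?_⟩
    have hN0 : 0 < N := by linarith
    have hRR : (0 : ℝ) ≤ R := Nat.cast_nonneg _
    have e1 : (R : ℝ) ^ (D + 1 - i) * a i - (((R : ℤ) ^ (D - i) * β - ∑ l ∈ Ioc i D, (l.choose i : ℤ) * (n₀ : ℤ) ^ (l - i) *
        (R : ℤ) ^ (l - i) * b l : ℤ) : ℝ) =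
        (R : ℝ) ^ (D - i) * (R * sh D a n₀ i - β) - ∑ l ∈ Ioc i D, ((l.choose i : ℕ) * (n₀ : ℝ) ^ (l - i) * (R : ℝ) ^ (l - i)) *
          ((R : ℝ) ^ (D + 1 - l) * a l - b l) := by
      rw [sh_split D a n₀ i hiD]
      have e2 : ∑ l ∈ Ioc i D, ((l.choose i : ℕ) * (n₀ : ℝ) ^ (l - i) * (R : ℝ) ^ (l - i)) * ((R : ℝ) ^ (D + 1 - l) * a l - b l) =
          (R : ℝ) ^ (D + 1 - i) * (∑ l ∈ Ioc i D, a l * ((l.choose i : ℕ) * (n₀ : ℝ) ^ (l - i))) -
          ∑ l ∈ Ioc i D, (l.choose i : ℝ) * (n₀ : ℝ) ^ (l - i) * (R : ℝ) ^ (l - i) * b l := by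
        rw [mul_sum, ← sum_sub_distrib]
        apply sum_congr rfl
        intro l hl
        rw [mem_Ioc] at hl
        have e3 : (R : ℝ) ^ (D + 1 - i) = (R : ℝ) ^ (l - i) * (R : ℝ) ^ (D + 1 - l) := by
          rw [← pow_add]; congr 1; omega
        rw [e3]; ring
      rw [e2]
      have e4 : (R : ℝ) ^ (D + 1 - i) = (R : ℝ) ^ (D - i) * R := by
        rw [← pow_succ]; congr 1; omega
      rw [e4]
      push_cast
      ring
    rw [e1]
    refine (abs_sub _ _).trans ?_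
    have t1 : |(R : ℝ) ^ (D - i) * (R * sh D a n₀ i - β)| ≤ A ^ (D + 1) / N ^ i := by
      rw [abs_mul, abs_of_nonneg (by positivity)]
      calc (R : ℝ) ^ (D - i) * |R * sh D a n₀ i - β| ≤ A ^ (D - i) * (A / N ^ i) :=
            mul_le_mul (pow_le_pow_left₀ hRR hR _) hβ (abs_nonneg _) (by positivity)
        _ = A ^ (D - i + 1) / N ^ i := by rw [pow_succ]; ring
        _ ≤ A ^ (D + 1) / N ^ i := by
          apply div_le_div_of_nonneg_right _ (by positivity)
          exact pow_le_pow_right₀ hA (by omega)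
    have t2 : |∑ l ∈ Ioc i D, ((l.choose i : ℕ) * (n₀ : ℝ) ^ (l - i) * (R : ℝ) ^ (l - i)) * ((R : ℝ) ^ (D + 1 - l) * a l - b l)| ≤
        D * 2 ^ D * A ^ (D + 1) * E ^ (D - i) / N ^ i := by
      calc _ ≤ ∑ l ∈ Ioc i D, |((l.choose i : ℕ) * (n₀ : ℝ) ^ (l - i) * (R : ℝ) ^ (l - i)) * ((R : ℝ) ^ (D + 1 - l) * a l - b l)| :=
            abs_sum_le_sum_abs _ _
        _ ≤ ∑ _l ∈ Ioc i D, 2 ^ D * A ^ (D + 1) * E ^ (D - i) / N ^ i := by
          apply sum_le_sum
          intro l hl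
          have hbl := hb l hl
          rw [mem_Ioc] at hl
          rw [abs_mul, abs_of_nonneg (by positivity)]
          have c1 : ((l.choose i : ℕ) : ℝ) ≤ 2 ^ D := by
            have h1 : l.choose i ≤ 2 ^ l := Nat.choose_le_two_pow l i
            have h2 : 2 ^ l ≤ 2 ^ D := Nat.pow_le_pow_right (by norm_num) hl.2
            exact_mod_cast h1.trans h2
          have c2 : (n₀ : ℝ) ^ (l - i) ≤ N ^ (l - i) := pow_le_pow_left₀ (Nat.cast_nonneg _) hn₀ _
          have c3 : (R : ℝ) ^ (l - i) ≤ A ^ (D + 1) :=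
            (pow_le_pow_left₀ hRR hR _).trans (pow_le_pow_right₀ hA (by omega))
          have c4 : E ^ (D + 1 - l) ≤ E ^ (D - i) := pow_le_pow_right₀ hE1 (by omega)
          have c5 : N ^ l = N ^ (l - i) * N ^ i := by rw [← pow_add]; congr 1; omega
          calc ((l.choose i : ℕ) : ℝ) * (n₀ : ℝ) ^ (l - i) * (R : ℝ) ^ (l - i) * |(R : ℝ) ^ (D + 1 - l) * a l - b l|
              ≤ 2 ^ D * N ^ (l - i) * A ^ (D + 1) * (E ^ (D - i) / N ^ l) := by
                apply mul_le_mul _ (hbl.trans (div_le_div_of_nonneg_right c4 (by positivity))) (abs_nonneg _) (by positivity)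
                apply mul_le_mul _ c3 (by positivity) (by positivity)
                exact mul_le_mul c1 c2 (by positivity) (by positivity)
            _ = _ := by
              rw [c5]
              field_simp
        _ = ((D - i : ℕ) : ℝ) * (2 ^ D * A ^ (D + 1) * E ^ (D - i) / N ^ i) := by
          rw [sum_const, Nat.card_Ioc, nsmul_eq_mul]
        _ ≤ (D : ℝ) * (2 ^ D * A ^ (D + 1) * E ^ (D - i) / N ^ i) := by
          apply mul_le_mul_of_nonneg_right _ (by positivity)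
          exact_mod_cast Nat.sub_le D i
        _ = _ := by ring
    refine (add_le_add t1 t2).trans ?_
    rw [← add_div]
    apply div_le_div_of_nonneg_right _ (by positivity)
    have hEi : 1 ≤ E ^ (D - i) := one_le_pow₀ hE1
    have e5 : E ^ (D + 1 - i) = E * E ^ (D - i) := by
      rw [← pow_succ']; congr 1; omega
    rw [e5]
    nth_rewrite 2 [hE]
    have : A ^ (D + 1) ≤ A ^ (D + 1) * E ^ (D - i) := le_mul_of_one_le_right (by positivity) hEi
    nlinarith

end Pool.Agent.Zk40.V
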