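import Pool.Agent.Zk40.V.Inv
import Pool.Agent.N193.PS.Dec

/-!
Waring's problem for almost all polynomials: the inverse theorem for Weyl sums, for all coefficients.
-/

namespace Pool.Agent.Zk40.V

open Finset
open Pool.Agent.H373R2.NB (Ph IW IW_all)
open Pool.Agent.Helper602.MK (ee)
open Pool.Agent.Helper602.MK.N_J5b (ee_add norm_ee ee_int ee_eq ee_add_int)

lemma ee_near (x y : ℝ) : ‖ee x - ee y‖ ≤ 7 * |x - y| := by
  have := Pool.Agent.N193.PS.e_sub_le x y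
  rw [ee_eq, ee_eq]
  exact this

lemma pow_up' (x y : ℝ) (hx : 0 ≤ x) (hxy : x ≤ y) (D : ℕ) : y ^ (D + 1) - x ^ (D + 1) ≤ (y - x) * ((D + 1) * y ^ D) := by
  induction D with
  | zero => simp
  | succ D ih =>
    have h1 : y ^ (D + 1 + 1) - x ^ (D + 1 + 1) = y * (y ^ (D + 1) - x ^ (D + 1)) + (y - x) * x ^ (D + 1) := by ring
    have h2 : x ^ (D + 1) ≤ y ^ (D + 1) := pow_le_pow_left₀ hx hxy _
    have h3 := mul_le_mul_of_nonneg_left ih (show 0 ≤ y by linarith)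
    have h4 := mul_le_mul_of_nonneg_left h2 (show 0 ≤ y - x by linarith)
    rw [h1]
    push_cast
    calc y * (y ^ (D + 1) - x ^ (D + 1)) + (y - x) * x ^ (D + 1) ≤ y * ((y - x) * ((D + 1) * y ^ D)) + (y - x) * y ^ (D + 1) := by
          linarith
      _ = _ := by ring

lemma shift_sum (F : ℕ → ℂ) (hF : ∀ n, ‖F n‖ = 1) (N s : ℕ) :
    ‖∑ n ∈ range N, F n - ∑ n ∈ range N, F (n + s)‖ ≤ 2 * s := by
  have h1 : ∑ n ∈ range (N + s), F n = ∑ n ∈ range N, F n + ∑ n ∈ range s, F (N + n) := sum_range_add _ _ _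
  have h2 : ∑ n ∈ range (s + N), F n = ∑ n ∈ range s, F n + ∑ n ∈ range N, F (s + n) := sum_range_add _ _ _
  have h3 : ∑ n ∈ range N, F (n + s) = ∑ n ∈ range N, F (s + n) := by
    apply sum_congr rfl; intro n _; rw [add_comm]
  have h4 : ∑ n ∈ range N, F n - ∑ n ∈ range N, F (n + s) = ∑ n ∈ range s, F n - ∑ n ∈ range s, F (N + n) := by
    rw [h3]
    rw [add_comm s N] at h2
    linear_combination h2 - h1
  rw [h4]
  refine (norm_sub_le _ _).trans ?_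
  have e1 : ‖∑ n ∈ range s, F n‖ ≤ s := (norm_sum_le _ _).trans (by simp [hF])
  have e2 : ‖∑ n ∈ range s, F (N + n)‖ ≤ s := (norm_sum_le _ _).trans (by simp [hF])
  linarith

/-- a short progression with a large sum of the polynomial of smaller degree -/
lemma block (D : ℕ) (a : ℕ → ℝ) (N : ℕ) (hN : 1 ≤ N) (u : ℝ) (hu : 1 ≤ u)
    (hS : (N : ℝ) ≤ u * ‖∑ n ∈ range N, ee (pv (D + 1) a n)‖) (q : ℕ) (hq : 1 ≤ q) (b : ℤ) (η : ℝ)
    (hη : |(q : ℝ) * a (D + 1) - b| ≤ η / (N : ℝ) ^ (D + 1)) (L : ℕ) (hL : 1 ≤ L) (hL1 : 8 * u * q * L ≤ N)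
    (hL2 : 28 * u * (D + 1) * 2 ^ D * η * L ≤ N) :
    ∃ n₀ : ℕ, n₀ ≤ N ∧ (L : ℝ) ≤ 2 * u * ‖∑ m ∈ range L, ee (pv D a ((q : ℝ) * m + n₀))‖ := by
  have hN0 : (0 : ℝ) < N := by exact_mod_cast hN
  have hL0 : (0 : ℝ) < L := by exact_mod_cast hL
  have hq0 : (0 : ℝ) < q := by exact_mod_cast hq
  have hu0 : 0 < u := by linarith
  have hη0 : 0 ≤ η := by
    have h1 := (abs_nonneg _).trans hη
    rw [div_nonneg_iff] at h1
    rcases h1 with h1 | h1
    · exact h1.1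
    · have : (0 : ℝ) < (N : ℝ) ^ (D + 1) := by positivity
      linarith [h1.2]
  set F : ℕ → ℂ := fun n => ee (pv (D + 1) a n) with hF
  have hF1 : ∀ n, ‖F n‖ = 1 := fun n => norm_ee _
  -- averaging
  have h1 : (L : ℝ) * ‖∑ n ∈ range N, F n‖ ≤ (∑ n ∈ range N, ‖∑ m ∈ range L, F (n + q * m)‖) + L * (2 * (q * L)) := by
    have e1 : ((L : ℕ) : ℂ) * ∑ n ∈ range N, F n = (∑ n ∈ range N, ∑ m ∈ range L, F (n + q * m)) +
        ∑ m ∈ range L, (∑ n ∈ range N, F n - ∑ n ∈ range N, F (n + q * m)) := by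
      rw [sum_sub_distrib, sum_const, card_range, nsmul_eq_mul, sum_comm (s := range N)]
      ring
    have e2 : (L : ℝ) * ‖∑ n ∈ range N, F n‖ = ‖((L : ℕ) : ℂ) * ∑ n ∈ range N, F n‖ := by
      rw [norm_mul, Complex.norm_natCast]
    rw [e2, e1]
    refine (norm_add_le _ _).trans (add_le_add (norm_sum_le _ _) ?_)
    refine (norm_sum_le _ _).trans ?_
    calc ∑ m ∈ range L, ‖∑ n ∈ range N, F n - ∑ n ∈ range N, F (n + q * m)‖ ≤ ∑ _m ∈ range L, 2 * ((q : ℝ) * L) := by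
          apply sum_le_sum
          intro m hm
          refine (shift_sum F hF1 N (q * m)).trans ?_
          have : q * m ≤ q * L := Nat.mul_le_mul_left q (mem_range.1 hm).le
          have : ((q * m : ℕ) : ℝ) ≤ q * L := by exact_mod_cast this
          linarith
      _ = _ := by rw [sum_const, card_range, nsmul_eq_mul]
  have h2 : ∑ _n ∈ range N, 3 * (L : ℝ) / (4 * u) ≤ ∑ n ∈ range N, ‖∑ m ∈ range L, F (n + q * m)‖ := by
    rw [sum_const, card_range, nsmul_eq_mul]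
    have e1 : (N : ℝ) / u ≤ ‖∑ n ∈ range N, F n‖ := by
      rw [div_le_iff₀ hu0]; linarith
    have e2 : (L : ℝ) * (N / u) ≤ L * ‖∑ n ∈ range N, F n‖ := mul_le_mul_of_nonneg_left e1 hL0.le
    have e3 : (L : ℝ) * (2 * (q * L)) ≤ L * (N / (4 * u)) := by
      apply mul_le_mul_of_nonneg_left _ hL0.le
      rw [le_div_iff₀ (by positivity)]
      linarith
    have e4 : (N : ℝ) * (3 * L / (4 * u)) = L * (N / u) - L * (N / (4 * u)) := by
      field_simp; ring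
    rw [e4]
    linarith
  obtain ⟨n₀, hn₀, h3⟩ := exists_le_of_sum_le ⟨0, mem_range.2 hN⟩ h2
  rw [mem_range] at hn₀
  refine ⟨n₀, hn₀.le, ?_⟩
  have hn₀r : (n₀ : ℝ) ≤ N := by exact_mod_cast hn₀.le
  have hqL : (q : ℝ) * L ≤ N := by
    have : (q : ℝ) * L ≤ 8 * u * (q * L) := by
      apply le_mul_of_one_le_left (by positivity); linarith
    linarith
  obtain ⟨θ₀, hθ₀⟩ : ∃ θ₀ : ℝ, θ₀ = a (D + 1) * (n₀ : ℝ) ^ (D + 1) := ⟨_, rfl⟩
  -- the comparison
  have h4 : ∀ m ∈ range L, ‖F (n₀ + q * m) - ee θ₀ * ee (pv D a ((q : ℝ) * m + n₀))‖ ≤ 1 / (4 * u) := by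
    intro m hm
    have hm' : (m : ℝ) ≤ L := by exact_mod_cast (mem_range.1 hm).le
    obtain ⟨X, hX⟩ : ∃ X : ℕ, X = n₀ + q * m := ⟨_, rfl⟩
    have hXr : (X : ℝ) = q * m + n₀ := by rw [hX]; push_cast; ring
    have hXN : (X : ℝ) ≤ 2 * N := by
      have : (q : ℝ) * m ≤ q * L := mul_le_mul_of_nonneg_left hm' hq0.le
      rw [hXr]; linarith
    obtain ⟨k, hk⟩ : ∃ k : ℤ, (X : ℤ) ^ (D + 1) - (n₀ : ℤ) ^ (D + 1) = q * k := by
      have e1 : (X : ℤ) - n₀ ∣ (X : ℤ) ^ (D + 1) - (n₀ : ℤ) ^ (D + 1) := sub_dvd_pow_sub_pow _ _ _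
      have e2 : (q : ℤ) ∣ (X : ℤ) - n₀ := ⟨m, by rw [hX]; push_cast; ring⟩
      exact e2.trans e1
    have hkr : (X : ℝ) ^ (D + 1) - (n₀ : ℝ) ^ (D + 1) = q * k := by exact_mod_cast hk
    obtain ⟨δ, hδ⟩ : ∃ δ : ℝ, δ = (a (D + 1) - b / q) * ((X : ℝ) ^ (D + 1) - (n₀ : ℝ) ^ (D + 1)) := ⟨_, rfl⟩
    have e1 : F X = ee (θ₀ + pv D a ((q : ℝ) * m + n₀) + δ) := by
      have e2 : pv (D + 1) a X = (θ₀ + pv D a ((q : ℝ) * m + n₀) + δ) + ((b * k : ℤ) : ℝ) := by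
        have e3 : pv (D + 1) a X = pv D a X + a (D + 1) * (X : ℝ) ^ (D + 1) := by
          unfold pv; rw [sum_range_succ _ (D + 1)]
        have e4 : (b : ℝ) / q * (q * k) = b * k := by field_simp
        rw [e3, hδ, hθ₀, ← hXr]
        push_cast
        linear_combination e4 + (b : ℝ) / q * hkr
      rw [hF]
      simp only
      rw [e2, ee_add_int]
    rw [← hX, e1, ← ee_add]
    refine (ee_near _ _).trans ?_
    rw [add_sub_cancel_left]
    have e5 : |a (D + 1) - b / q| ≤ η / (N : ℝ) ^ (D + 1) / q := by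
      rw [le_div_iff₀ hq0]
      calc |a (D + 1) - b / q| * q = |(q : ℝ) * a (D + 1) - b| := by
            rw [← abs_of_pos hq0, ← abs_mul, abs_of_pos hq0]
            congr 1
            field_simp
        _ ≤ _ := hη
    have hnX : (n₀ : ℝ) ≤ X := by rw [hXr]; nlinarith [mul_nonneg hq0.le (Nat.cast_nonneg (α := ℝ) m)]
    have e6 : |(X : ℝ) ^ (D + 1) - (n₀ : ℝ) ^ (D + 1)| ≤ (q * L) * ((D + 1) * (2 * N) ^ D) := by
      rw [abs_of_nonneg (sub_nonneg.2 (pow_le_pow_left₀ (Nat.cast_nonneg _) hnX _))]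
      refine (pow_up' _ _ (Nat.cast_nonneg _) hnX D).trans ?_
      have : (X : ℝ) - n₀ ≤ q * L := by
        rw [hXr]
        have : (q : ℝ) * m ≤ q * L := mul_le_mul_of_nonneg_left hm' hq0.le
        linarith
      apply mul_le_mul this _ (by positivity) (by positivity)
      apply mul_le_mul_of_nonneg_left _ (by positivity)
      exact pow_le_pow_left₀ (Nat.cast_nonneg _) hXN D
    have e7 : |δ| ≤ (η / (N : ℝ) ^ (D + 1) / q) * ((q * L) * ((D + 1) * (2 * N) ^ D)) := by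
      rw [hδ, abs_mul]
      exact mul_le_mul e5 e6 (abs_nonneg _) (by positivity)
    have e8 : (η / (N : ℝ) ^ (D + 1) / q) * ((q * L) * ((D + 1) * (2 * N) ^ D)) = (D + 1) * 2 ^ D * η * L / N := by
      rw [mul_pow, pow_succ (N : ℝ)]
      field_simp
    rw [e8] at e7
    calc 7 * |δ| ≤ 7 * ((D + 1) * 2 ^ D * η * L / N) := by linarith
      _ ≤ 1 / (4 * u) := by
        rw [le_div_iff₀ (by positivity), ← mul_div_assoc, div_mul_eq_mul_div, div_le_one hN0]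
        linarith
  have h5 : ‖∑ m ∈ range L, F (n₀ + q * m)‖ ≤ ‖∑ m ∈ range L, ee (pv D a ((q : ℝ) * m + n₀))‖ + L / (4 * u) := by
    have e1 : ∑ m ∈ range L, F (n₀ + q * m) = ee θ₀ * ∑ m ∈ range L, ee (pv D a ((q : ℝ) * m + n₀)) +
        ∑ m ∈ range L, (F (n₀ + q * m) - ee θ₀ * ee (pv D a ((q : ℝ) * m + n₀))) := by
      rw [sum_sub_distrib, mul_sum]; ring
    rw [e1]
    refine (norm_add_le _ _).trans (add_le_add ?_ ?_)
    · rw [norm_mul, norm_ee, one_mul]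
    · refine (norm_sum_le _ _).trans ?_
      calc _ ≤ ∑ _m ∈ range L, 1 / (4 * u) := sum_le_sum h4
        _ = _ := by rw [sum_const, card_range, nsmul_eq_mul]; ring
  have h6 : 3 * (L : ℝ) / (4 * u) = L / (4 * u) + L / (2 * u) := by field_simp; ring
  rw [h6] at h3
  have h7 : (L : ℝ) / (2 * u) ≤ ‖∑ m ∈ range L, ee (pv D a ((q : ℝ) * m + n₀))‖ := by linarith
  rw [div_le_iff₀ (by positivity)] at h7
  linarith

end Pool.Agent.Zk40.V
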