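import Pool.Agent.Zk40.V.Inv2

/-!
Waring's problem for almost all polynomials: the inverse theorem for Weyl sums, for all coefficients.
-/

namespace Pool.Agent.Zk40.V

open Finset
open Pool.Agent.H373R2.NB (Ph IW IW_all)
open Pool.Agent.Helper602.MK (ee)

/-- polynomially bounded functions -/
def PB (f : ℝ → ℝ) : Prop := ∃ c m : ℕ, ∀ u : ℝ, 1 ≤ u → 0 ≤ f u ∧ f u ≤ c * u ^ m

lemma PB.const (c : ℕ) : PB (fun _ => (c : ℝ)) := ⟨c, 0, fun u _ => ⟨Nat.cast_nonneg _, by simp⟩⟩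

lemma PB.id : PB (fun u => u) := ⟨1, 1, fun u hu => ⟨by linarith, by simp⟩⟩

lemma PB.mul {f g : ℝ → ℝ} (hf : PB f) (hg : PB g) : PB (fun u => f u * g u) := by
  obtain ⟨c, m, h⟩ := hf
  obtain ⟨c', m', h'⟩ := hg
  refine ⟨c * c', m + m', fun u hu => ?_⟩
  obtain ⟨h1, h2⟩ := h u hu
  obtain ⟨h3, h4⟩ := h' u hu
  refine ⟨mul_nonneg h1 h3, ?_⟩
  refine (mul_le_mul h2 h4 h3 (h1.trans h2)).trans (le_of_eq ?_)
  rw [pow_add]; push_cast; ring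

lemma PB.add {f g : ℝ → ℝ} (hf : PB f) (hg : PB g) : PB (fun u => f u + g u) := by
  obtain ⟨c, m, h⟩ := hf
  obtain ⟨c', m', h'⟩ := hg
  refine ⟨c + c', m + m', fun u hu => ?_⟩
  obtain ⟨h1, h2⟩ := h u hu
  obtain ⟨h3, h4⟩ := h' u hu
  refine ⟨add_nonneg h1 h3, ?_⟩
  have e1 : u ^ m ≤ u ^ (m + m') := pow_le_pow_right₀ hu (by omega)
  have e2 : u ^ m' ≤ u ^ (m + m') := pow_le_pow_right₀ hu (by omega)
  have e3 : (c : ℝ) * u ^ m ≤ c * u ^ (m + m') := mul_le_mul_of_nonneg_left e1 (Nat.cast_nonneg _)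
  have e4 : (c' : ℝ) * u ^ m' ≤ c' * u ^ (m + m') := mul_le_mul_of_nonneg_left e2 (Nat.cast_nonneg _)
  push_cast
  linarith

lemma PB.pow {f : ℝ → ℝ} (hf : PB f) (n : ℕ) : PB (fun u => f u ^ n) := by
  induction n with
  | zero => simpa using PB.const 1
  | succ n ih => simpa only [pow_succ] using ih.mul hf

lemma PB.two {f : ℝ → ℝ} (hf : PB f) : PB (fun u => f (2 * u)) := by
  obtain ⟨c, m, h⟩ := hf
  refine ⟨c * 2 ^ m, m, fun u hu => ?_⟩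
  obtain ⟨h1, h2⟩ := h (2 * u) (by linarith)
  refine ⟨h1, h2.trans (le_of_eq ?_)⟩
  rw [mul_pow]; push_cast; ring

/-- the inverse theorem -/
def IA (D : ℕ) : Prop := ∃ f : ℝ → ℝ, PB f ∧ ∀ (N : ℕ) (u : ℝ) (a : ℕ → ℝ), 1 ≤ N → 1 ≤ u →
  (N : ℝ) ≤ u * ‖∑ n ∈ range N, ee (pv D a n)‖ →
  ∃ q : ℕ, 1 ≤ q ∧ (q : ℝ) ≤ f u ∧ ∀ i, 1 ≤ i → i ≤ D → ∃ b : ℤ, |(q : ℝ) * a i - b| ≤ f u / (N : ℝ) ^ i

lemma IA_zero : IA 0 := by
  refine ⟨fun u => u, PB.id, fun N u a _ hu _ => ⟨1, le_rfl, by simpa using hu, fun i h1 h2 => absurd h1 (by omega)⟩⟩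

lemma IA_step (D : ℕ) (ih : IA D) : IA (D + 1) := by
  obtain ⟨f₂, hf₂, hI⟩ := ih
  obtain ⟨c₁, m₁, hc₁, hW⟩ := IW_all (D + 1) (by omega)
  obtain ⟨fac, hfac⟩ : ∃ fac : ℕ, fac = (D + 1).factorial := ⟨_, rfl⟩
  have hfac1 : 1 ≤ fac := by rw [hfac]; exact Nat.factorial_pos _
  obtain ⟨A₁, hA₁⟩ : ∃ A₁ : ℝ → ℝ, A₁ = fun u => (c₁ : ℝ) * u ^ m₁ := ⟨_, rfl⟩
  have pA₁ : PB A₁ := by rw [hA₁]; exact (PB.const c₁).mul (PB.id.pow m₁)
  obtain ⟨T, hT⟩ : ∃ T : ℝ → ℝ, T = fun u => ((16 : ℕ) : ℝ) * u * ((fac : ℝ) * A₁ u) +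
    ((56 : ℕ) : ℝ) * u * (((D + 1) * 2 ^ D : ℕ) : ℝ) * A₁ u := ⟨_, rfl⟩
  have pT : PB T := by
    rw [hT]
    exact (((PB.const 16).mul PB.id).mul ((PB.const fac).mul pA₁)).add
      ((((PB.const 56).mul PB.id).mul (PB.const ((D + 1) * 2 ^ D))).mul pA₁)
  obtain ⟨A, hA⟩ : ∃ A : ℝ → ℝ, A = fun u => ((fac : ℝ) * A₁ u) ^ D * f₂ (2 * u) * (((2 : ℕ) : ℝ) * T u) ^ D := ⟨_, rfl⟩
  have pA : PB A := by
    rw [hA]
    exact ((((PB.const fac).mul pA₁).pow D).mul hf₂.two).mul (((PB.const 2).mul pT).pow D)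
  obtain ⟨E, hE⟩ : ∃ E : ℝ → ℝ, E = fun u => ((1 + D * 2 ^ D : ℕ) : ℝ) * A u ^ (D + 1) := ⟨_, rfl⟩
  have pE : PB E := by
    rw [hE]
    exact (PB.const (1 + D * 2 ^ D)).mul (pA.pow (D + 1))
  refine ⟨fun u => ((fac : ℝ) * A₁ u) * A u ^ (D + 1) * E u ^ (D + 1) + T u ^ (D + 1),
    ((((PB.const fac).mul pA₁).mul (pA.pow (D + 1))).mul (pE.pow (D + 1))).add (pT.pow (D + 1)), ?_⟩
  intro N u a hN hu hS
  have hN0 : (0 : ℝ) < N := by exact_mod_cast hN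
  have hN1 : (1 : ℝ) ≤ N := by exact_mod_cast hN
  have hu0 : 0 < u := by linarith
  have hc₁r : (1 : ℝ) ≤ c₁ := by exact_mod_cast hc₁
  have hfacr : (1 : ℝ) ≤ fac := by exact_mod_cast hfac1
  have hA₁1 : 1 ≤ A₁ u := by
    rw [hA₁]; exact one_le_mul_of_one_le_of_one_le hc₁r (one_le_pow₀ hu)
  have hfA₁ : 1 ≤ (fac : ℝ) * A₁ u := one_le_mul_of_one_le_of_one_le hfacr hA₁1
  have hT16 : 16 * u * ((fac : ℝ) * A₁ u) ≤ T u := by
    rw [hT]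
    have : 0 ≤ ((56 : ℕ) : ℝ) * u * (((D + 1) * 2 ^ D : ℕ) : ℝ) * A₁ u := by positivity
    simp only
    push_cast at this ⊢
    linarith
  have hT56 : 56 * u * ((D + 1) * 2 ^ D) * A₁ u ≤ T u := by
    rw [hT]
    have : 0 ≤ ((16 : ℕ) : ℝ) * u * ((fac : ℝ) * A₁ u) := by positivity
    simp only
    push_cast at this ⊢
    linarith
  have hT1 : 1 ≤ T u := by
    have : 1 ≤ u * ((fac : ℝ) * A₁ u) := one_le_mul_of_one_le_of_one_le hu hfA₁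
    nlinarith
  have hA0 : 0 ≤ A u := by
    obtain ⟨c, m, h⟩ := pA
    exact (h u hu).1
  have hE0 : 0 ≤ E u := by
    obtain ⟨c, m, h⟩ := pE
    exact (h u hu).1
  have hmain0 : 0 ≤ ((fac : ℝ) * A₁ u) * A u ^ (D + 1) * E u ^ (D + 1) := by positivity
  rcases lt_or_ge (N : ℝ) (T u) with hNT | hNT
  · -- trivial case
    have hTD : 1 ≤ T u ^ (D + 1) := one_le_pow₀ hT1
    refine ⟨1, le_rfl, by simp only; push_cast; linarith, fun i hi1 hi2 => ⟨round (a i), ?_⟩⟩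
    rw [Nat.cast_one, one_mul, le_div_iff₀ (by positivity)]
    have h1 : |a i - round (a i)| ≤ 1 / 2 := abs_sub_round _
    have h2 : (N : ℝ) ^ i ≤ T u ^ (D + 1) :=
      (pow_le_pow_left₀ hN0.le hNT.le i).trans (pow_le_pow_right₀ hT1 hi2)
    have h3 : |a i - round (a i)| * (N : ℝ) ^ i ≤ 1 / 2 * T u ^ (D + 1) :=
      mul_le_mul h1 h2 (by positivity) (by norm_num)
    linarith
  -- the leading coefficient
  obtain ⟨q₁, hq₁, hq₁A, b₁, hb₁⟩ := hW N u ((D + 1).factorial * a (D + 1)) (fun n => pv (D + 1) a n) hN hu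
    (Ph_pv (D + 1) a) hS
  have hA₁u : A₁ u = (c₁ : ℝ) * u ^ m₁ := by rw [hA₁]
  rw [← hA₁u] at hq₁A hb₁
  obtain ⟨q₂, hq₂⟩ : ∃ q₂ : ℕ, q₂ = q₁ * fac := ⟨_, rfl⟩
  have hq₂1 : 1 ≤ q₂ := by rw [hq₂]; exact Nat.one_le_iff_ne_zero.2 (Nat.mul_ne_zero (by omega) (by omega))
  have hq₂r : (1 : ℝ) ≤ q₂ := by exact_mod_cast hq₂1
  have hq₂A : (q₂ : ℝ) ≤ fac * A₁ u := by
    rw [hq₂]; push_cast
    nlinarith
  have hb₂ : |(q₂ : ℝ) * a (D + 1) - b₁| ≤ A₁ u / (N : ℝ) ^ (D + 1) := by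
    refine le_trans (le_of_eq ?_) hb₁
    congr 1
    rw [hq₂, hfac]; push_cast; ring
  -- the block
  obtain ⟨L, hL⟩ : ∃ L : ℕ, L = ⌊(N : ℝ) / T u⌋₊ := ⟨_, rfl⟩
  have hT0 : 0 < T u := by linarith
  have hL1 : 1 ≤ L := by
    rw [hL]
    apply Nat.le_floor
    push_cast
    rw [one_le_div hT0]
    exact hNT
  have hLr : (1 : ℝ) ≤ L := by exact_mod_cast hL1
  have hLT : (L : ℝ) * T u ≤ N := by
    have := Nat.floor_le (show 0 ≤ (N : ℝ) / T u by positivity)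
    rw [← hL, le_div_iff₀ hT0] at this
    exact this
  have hLT2 : (N : ℝ) ≤ 2 * T u * L := by
    have h1 : (N : ℝ) / T u < L + 1 := by rw [hL]; exact Nat.lt_floor_add_one _
    rw [div_lt_iff₀ hT0] at h1
    nlinarith
  obtain ⟨n₀, hn₀, hblk⟩ := block D a N hN u hu hS q₂ hq₂1 b₁ (A₁ u) hb₂ L hL1
    (by
      refine le_trans ?_ hLT
      calc 8 * u * q₂ * L ≤ 8 * u * (fac * A₁ u) * L := by gcongr
        _ ≤ (T u) * L := by
          apply mul_le_mul_of_nonneg_right _ (by linarith)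
          nlinarith
        _ = _ := mul_comm _ _)
    (by
      refine le_trans ?_ hLT
      calc 28 * u * (D + 1) * 2 ^ D * A₁ u * L = (28 * u * ((D + 1) * 2 ^ D) * A₁ u) * L := by ring
        _ ≤ (T u) * L := by
          apply mul_le_mul_of_nonneg_right _ (by linarith)
          have : 0 ≤ 28 * u * (((D : ℝ) + 1) * 2 ^ D) * A₁ u := by positivity
          linarith
        _ = _ := mul_comm _ _)
  have hpv : ∀ m : ℕ, pv D a ((q₂ : ℝ) * m + n₀) = pv D (fun i => sh D a n₀ i * (q₂ : ℝ) ^ i) m := by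
    intro m
    rw [pv_shift, pv_scale]
  simp only [hpv] at hblk
  obtain ⟨q₃, hq₃, hq₃f, hq₃b⟩ := hI L (2 * u) (fun i => sh D a n₀ i * (q₂ : ℝ) ^ i) hL1 (by linarith) hblk
  have hq₃r : (1 : ℝ) ≤ q₃ := by exact_mod_cast hq₃
  have hf₂1 : 1 ≤ f₂ (2 * u) := hq₃r.trans hq₃f
  have h2T : 1 ≤ 2 * T u := by linarith
  obtain ⟨R, hR⟩ : ∃ R : ℕ, R = q₃ * q₂ ^ D := ⟨_, rfl⟩
  have hR1 : 1 ≤ R := by
    rw [hR]; exact Nat.one_le_iff_ne_zero.2 (Nat.mul_ne_zero (by omega) (pow_ne_zero _ (by omega)))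
  have hAu : A u = ((fac : ℝ) * A₁ u) ^ D * f₂ (2 * u) * (2 * T u) ^ D := by rw [hA]; simp
  have hRA : (R : ℝ) ≤ A u := by
    rw [hR, hAu]; push_cast
    have e1 : (q₂ : ℝ) ^ D ≤ ((fac : ℝ) * A₁ u) ^ D := pow_le_pow_left₀ (by linarith) hq₂A D
    calc (q₃ : ℝ) * (q₂ : ℝ) ^ D ≤ f₂ (2 * u) * ((fac : ℝ) * A₁ u) ^ D := mul_le_mul hq₃f e1 (by positivity) (by linarith)
      _ = (((fac : ℝ) * A₁ u) ^ D * f₂ (2 * u)) * 1 := by ring
      _ ≤ _ := mul_le_mul_of_nonneg_left (one_le_pow₀ h2T) (by positivity)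
  have hA1 : 1 ≤ A u := le_trans (by exact_mod_cast hR1) hRA
  have hdesc := desc D a N hN1 n₀ (by exact_mod_cast hn₀) R (A u) hA1 hRA (by
    intro i hi1 hiD
    obtain ⟨b, hb⟩ := hq₃b i hi1 hiD
    refine ⟨(q₂ : ℤ) ^ (D - i) * b, ?_⟩
    have e1 : (R : ℝ) * sh D a n₀ i - (((q₂ : ℤ) ^ (D - i) * b : ℤ) : ℝ) =
        (q₂ : ℝ) ^ (D - i) * ((q₃ : ℝ) * (sh D a n₀ i * (q₂ : ℝ) ^ i) - b) := by
      have e2 : (q₂ : ℝ) ^ D = (q₂ : ℝ) ^ (D - i) * (q₂ : ℝ) ^ i := by rw [← pow_add]; congr 1; omega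
      rw [hR]; push_cast; rw [e2]; ring
    rw [e1, abs_mul, abs_of_nonneg (by positivity)]
    have e3 : (q₂ : ℝ) ^ (D - i) ≤ ((fac : ℝ) * A₁ u) ^ D :=
      (pow_le_pow_left₀ (by linarith) hq₂A _).trans (pow_le_pow_right₀ hfA₁ (by omega))
    have e4 : f₂ (2 * u) / (L : ℝ) ^ i ≤ f₂ (2 * u) * (2 * T u) ^ D / (N : ℝ) ^ i := by
      rw [div_le_div_iff₀ (by positivity) (by positivity), mul_assoc]
      apply mul_le_mul_of_nonneg_left _ (by linarith)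
      calc (N : ℝ) ^ i ≤ (2 * T u * L) ^ i := pow_le_pow_left₀ hN0.le hLT2 i
        _ = (2 * T u) ^ i * (L : ℝ) ^ i := mul_pow _ _ _
        _ ≤ (2 * T u) ^ D * (L : ℝ) ^ i := by
          apply mul_le_mul_of_nonneg_right _ (by positivity)
          exact pow_le_pow_right₀ h2T hiD
    calc (q₂ : ℝ) ^ (D - i) * |(q₃ : ℝ) * (sh D a n₀ i * (q₂ : ℝ) ^ i) - b|
        ≤ ((fac : ℝ) * A₁ u) ^ D * (f₂ (2 * u) * (2 * T u) ^ D / (N : ℝ) ^ i) :=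
          mul_le_mul e3 (hb.trans e4) (abs_nonneg _) (by positivity)
      _ = _ := by rw [hAu]; ring)
  have hEu : (1 + (D : ℝ) * 2 ^ D) * A u ^ (D + 1) = E u := by rw [hE]; push_cast; ring
  rw [hEu] at hdesc
  have hE1 : 1 ≤ E u := by
    rw [← hEu]
    have h1 : 1 ≤ A u ^ (D + 1) := one_le_pow₀ hA1
    have h2 : (0 : ℝ) ≤ D * 2 ^ D := by positivity
    nlinarith
  have hTD0 : 0 ≤ T u ^ (D + 1) := by positivity
  have hRr : (1 : ℝ) ≤ R := by exact_mod_cast hR1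
  have hED1 : 1 ≤ E u ^ (D + 1) := one_le_pow₀ hE1
  refine ⟨q₂ * R ^ (D + 1), Nat.one_le_iff_ne_zero.2 (Nat.mul_ne_zero (by omega) (pow_ne_zero _ (by omega))), ?_, ?_⟩
  · push_cast
    have e1 : (R : ℝ) ^ (D + 1) ≤ A u ^ (D + 1) := pow_le_pow_left₀ (by linarith) hRA _
    calc (q₂ : ℝ) * (R : ℝ) ^ (D + 1) ≤ ((fac : ℝ) * A₁ u) * A u ^ (D + 1) := mul_le_mul hq₂A e1 (by positivity) (by linarith)
      _ ≤ ((fac : ℝ) * A₁ u) * A u ^ (D + 1) * E u ^ (D + 1) := le_mul_of_one_le_right (by positivity) hED1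
      _ ≤ _ := by linarith
  · intro i hi1 hi2
    rcases Nat.lt_or_ge i (D + 1) with hlt | hge
    · obtain ⟨b, hb⟩ := hdesc (D - i) i hi1 (by omega) rfl
      refine ⟨(q₂ : ℤ) * (R : ℤ) ^ i * b, ?_⟩
      have e1 : ((q₂ * R ^ (D + 1) : ℕ) : ℝ) * a i - (((q₂ : ℤ) * (R : ℤ) ^ i * b : ℤ) : ℝ) =
          ((q₂ : ℝ) * (R : ℝ) ^ i) * ((R : ℝ) ^ (D + 1 - i) * a i - b) := by
        have e2 : (R : ℝ) ^ (D + 1) = (R : ℝ) ^ i * (R : ℝ) ^ (D + 1 - i) := by rw [← pow_add]; congr 1; omega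
        push_cast; rw [e2]; ring
      rw [e1, abs_mul, abs_of_nonneg (by positivity)]
      have e3 : (R : ℝ) ^ i ≤ A u ^ (D + 1) :=
        (pow_le_pow_left₀ (by linarith) hRA _).trans (pow_le_pow_right₀ hA1 (by omega))
      have e4 : E u ^ (D + 1 - i) ≤ E u ^ (D + 1) := pow_le_pow_right₀ hE1 (by omega)
      calc ((q₂ : ℝ) * (R : ℝ) ^ i) * |(R : ℝ) ^ (D + 1 - i) * a i - b|
          ≤ (((fac : ℝ) * A₁ u) * A u ^ (D + 1)) * (E u ^ (D + 1) / (N : ℝ) ^ i) := by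
            apply mul_le_mul _ (hb.trans (div_le_div_of_nonneg_right e4 (by positivity))) (abs_nonneg _) (by positivity)
            exact mul_le_mul hq₂A e3 (by positivity) (by linarith)
        _ = (((fac : ℝ) * A₁ u) * A u ^ (D + 1) * E u ^ (D + 1)) / (N : ℝ) ^ i := by ring
        _ ≤ _ := by
          apply div_le_div_of_nonneg_right _ (by positivity)
          linarith
    · have hiD : i = D + 1 := by omega
      subst hiD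
      refine ⟨(R : ℤ) ^ (D + 1) * b₁, ?_⟩
      have e1 : ((q₂ * R ^ (D + 1) : ℕ) : ℝ) * a (D + 1) - (((R : ℤ) ^ (D + 1) * b₁ : ℤ) : ℝ) =
          (R : ℝ) ^ (D + 1) * ((q₂ : ℝ) * a (D + 1) - b₁) := by push_cast; ring
      rw [e1, abs_mul, abs_of_nonneg (by positivity)]
      have e3 : (R : ℝ) ^ (D + 1) ≤ A u ^ (D + 1) := pow_le_pow_left₀ (by linarith) hRA _
      calc (R : ℝ) ^ (D + 1) * |(q₂ : ℝ) * a (D + 1) - b₁| ≤ A u ^ (D + 1) * (A₁ u / (N : ℝ) ^ (D + 1)) :=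
            mul_le_mul e3 hb₂ (abs_nonneg _) (by positivity)
        _ = (A₁ u * A u ^ (D + 1)) / (N : ℝ) ^ (D + 1) := by ring
        _ ≤ _ := by
          apply div_le_div_of_nonneg_right _ (by positivity)
          have g1 : A₁ u * A u ^ (D + 1) ≤ ((fac : ℝ) * A₁ u) * A u ^ (D + 1) := by
            apply mul_le_mul_of_nonneg_right _ (by positivity)
            exact le_mul_of_one_le_left (by linarith) hfacr
          have g2 : ((fac : ℝ) * A₁ u) * A u ^ (D + 1) ≤ ((fac : ℝ) * A₁ u) * A u ^ (D + 1) * E u ^ (D + 1) :=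
            le_mul_of_one_le_right (by positivity) hED1
          linarith

/-- the inverse theorem for Weyl sums, for all coefficients -/
theorem inv_all (D : ℕ) : ∃ c m : ℕ, 1 ≤ c ∧ ∀ (N : ℕ) (u : ℝ) (a : ℕ → ℝ), 1 ≤ N → 1 ≤ u →
    (N : ℝ) ≤ u * ‖∑ n ∈ range N, ee (pv D a n)‖ →
    ∃ q : ℕ, 1 ≤ q ∧ (q : ℝ) ≤ c * u ^ m ∧ ∀ i, 1 ≤ i → i ≤ D → ∃ b : ℤ, |(q : ℝ) * a i - b| ≤ c * u ^ m / (N : ℝ) ^ i := by
  have hIA : IA D := by
    induction D with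
    | zero => exact IA_zero
    | succ D ih => exact IA_step D ih
  obtain ⟨f, ⟨c, m, hf⟩, hI⟩ := hIA
  refine ⟨c + 1, m, by omega, fun N u a hN hu hS => ?_⟩
  obtain ⟨q, hq, hqf, hb⟩ := hI N u a hN hu hS
  have h1 : f u ≤ ((c + 1 : ℕ) : ℝ) * u ^ m := by
    refine (hf u hu).2.trans ?_
    push_cast
    have : 0 < u ^ m := by positivity
    nlinarith
  refine ⟨q, hq, hqf.trans h1, fun i hi1 hi2 => ?_⟩
  obtain ⟨b, hb⟩ := hb i hi1 hi2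
  refine ⟨b, hb.trans (div_le_div_of_nonneg_right h1 (by positivity))⟩

end Pool.Agent.Zk40.V
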