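import Pool.Agent.Zk40.V.Fib

/-!
Waring's problem for almost all polynomials: vectors of pairs with given approximate values of two functions.
-/

namespace Pool.Agent.Zk40.V

open Finset
open Pool.Agent.Zk40.W (card_fib)

/-- the sum of the values -/
noncomputable def SF (F : ℝ → ℝ) {n : ℕ} (y : Fin n → ℕ × ℕ) : ℝ := ∑ i, (F ((y i).1 : ℝ) + F ((y i).2 : ℝ))

/-- the conditions on the scales -/
structure Sc (d Q₀ u : ℕ) (Λ : ℝ) (Q : ℕ → ℕ) : Prop where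
  L1 : 1 ≤ Λ
  ge : ∀ i < u, Q₀ ≤ Q i
  one : ∀ i, 1 ≤ Q i
  low : ∀ i, (Q (i + 1) : ℝ) ^ (d + 1) ≤ (Q i : ℝ) ^ d
  up : ∀ i, (Q i : ℝ) ^ d ≤ Λ * (Q (i + 1) : ℝ) ^ (d + 1)

lemma Sc.up2 {d Q₀ u : ℕ} {Λ : ℝ} {Q : ℕ → ℕ} (h : Sc d Q₀ u Λ Q) (e : ℕ) (he : e ≤ d) (i : ℕ) :
    (Q i : ℝ) ^ e ≤ Λ * (Q (i + 1) : ℝ) ^ (e + 1) := by
  have h1 : (1 : ℝ) ≤ Q i := by exact_mod_cast h.one i
  have h2 : (1 : ℝ) ≤ Q (i + 1) := by exact_mod_cast h.one (i + 1)
  have hL := h.L1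
  have h3 : ((Q i : ℝ) ^ e) ^ (d + 1) ≤ (Λ * (Q (i + 1) : ℝ) ^ (e + 1)) ^ (d + 1) := by
    calc ((Q i : ℝ) ^ e) ^ (d + 1) = (Q i : ℝ) ^ (e * (d + 1)) := by rw [pow_mul]
      _ ≤ (Q i : ℝ) ^ (d * (e + 1)) := pow_le_pow_right₀ h1 (by nlinarith)
      _ = ((Q i : ℝ) ^ d) ^ (e + 1) := by rw [pow_mul]
      _ ≤ (Λ * (Q (i + 1) : ℝ) ^ (d + 1)) ^ (e + 1) := pow_le_pow_left₀ (by positivity) (h.up i) _
      _ = Λ ^ (e + 1) * ((Q (i + 1) : ℝ) ^ (e + 1)) ^ (d + 1) := by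
        rw [mul_pow, ← pow_mul, ← pow_mul, mul_comm (d + 1)]
      _ ≤ Λ ^ (d + 1) * ((Q (i + 1) : ℝ) ^ (e + 1)) ^ (d + 1) := by
        apply mul_le_mul_of_nonneg_right _ (by positivity)
        exact pow_le_pow_right₀ hL (by omega)
      _ = _ := by rw [mul_pow]
  exact (pow_le_pow_iff_left₀ (by positivity) (by positivity) (by omega)).1 h3

lemma pair_bound {d e : ℕ} {c₁ c₂ c₃ : ℝ} {Q₀ : ℕ} {F G F' G' : ℝ → ℝ} (D : Dat d e c₁ c₂ c₃ Q₀ F G F' G') (Q : ℕ)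
    (hQ : Q₀ ≤ Q) (p : ℕ × ℕ) (hp : p ∈ W.box Q) :
    |F (p.1 : ℝ) + F (p.2 : ℝ)| ≤ 2 * |c₂| * (Q : ℝ) ^ (d + 1) ∧ |G (p.1 : ℝ) + G (p.2 : ℝ)| ≤ 2 * |c₂| * (Q : ℝ) ^ (e + 1) := by
  simp only [W.box, mem_product, mem_Icc] at hp
  obtain ⟨⟨p1, p2⟩, p3, p4⟩ := hp
  have a1 : (Q : ℝ) ≤ p.1 := by exact_mod_cast p1
  have a2 : (p.1 : ℝ) ≤ 4 * Q := by
    have : p.1 ≤ 4 * Q := by omega
    exact_mod_cast this
  have a3 : (Q : ℝ) ≤ p.2 := by
    have : Q ≤ p.2 := by omega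
    exact_mod_cast this
  have a4 : (p.2 : ℝ) ≤ 4 * Q := by exact_mod_cast p4
  have hc : c₂ ≤ |c₂| := le_abs_self _
  have key : ∀ (m : ℕ), c₂ * (Q : ℝ) ^ m ≤ |c₂| * (Q : ℝ) ^ m := fun m => mul_le_mul_of_nonneg_right hc (by positivity)
  constructor
  · have e1 := D.F0 Q hQ p.1 a1 a2
    have e2 := D.F0 Q hQ p.2 a3 a4
    have e3 := abs_add_le (F (p.1 : ℝ)) (F (p.2 : ℝ))
    linarith [key (d + 1)]
  · have e1 := D.G0 Q hQ p.1 a1 a2
    have e2 := D.G0 Q hQ p.2 a3 a4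
    have e3 := abs_add_le (G (p.1 : ℝ)) (G (p.2 : ℝ))
    linarith [key (e + 1)]

lemma SF_succ (F : ℝ → ℝ) {n : ℕ} (y : Fin (n + 1) → ℕ × ℕ) : SF F y =
    SF F (fun i : Fin n => y i.castSucc) + (F ((y (Fin.last n)).1 : ℝ) + F ((y (Fin.last n)).2 : ℝ)) := by
  unfold SF
  rw [Fin.sum_univ_castSucc]

/-- the number of the vectors with given approximate values -/
theorem level (d e : ℕ) (hde : e ≤ d) (c₁ c₂ c₃ Λ : ℝ) (h1 : 0 < c₁) (h3 : 0 < c₃) (hΛ : 1 ≤ Λ) (n : ℕ) : ∀ K : ℝ, 1 ≤ K →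
    ∃ C : ℝ, 1 ≤ C ∧ ∀ (Q₀ : ℕ) (F G F' G' : ℝ → ℝ), Dat d e c₁ c₂ c₃ Q₀ F G F' G' → ∀ (u : ℕ) (Q : ℕ → ℕ),
    Sc d Q₀ u Λ Q → n < u → ∀ Tm Tn c c' : ℝ, (Q n : ℝ) ^ d ≤ Tm → Tm ≤ K * (Q n : ℝ) ^ (d + 1) →
    Tm * (Q n : ℝ) ^ e ≤ Tn * (Q n : ℝ) ^ d → ∀ S ⊆ W.Y Q (n + 1), (∀ y ∈ S, |SF F y - c| ≤ Tm) →
    (∀ y ∈ S, |SF G y - c'| ≤ Tn) →
    (S.card : ℝ) * ((Q 0 : ℝ) ^ (d + 1) * (Q 0 : ℝ) ^ (e + 1)) ≤ C * Tm * Tn * ∏ l ∈ range (n + 1), (Q l : ℝ) ^ 2 := by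
  obtain ⟨Cf, hCf, hfibre⟩ := fib c₁ c₂ c₃ h1 h3
  have hCf0 : 0 < Cf := by linarith
  induction n with
  | zero =>
    intro K hK
    refine ⟨Cf, hCf, ?_⟩
    intro Q₀ F G F' G' D u Q hs hu Tm Tn c c' t1 t2 t3 S hS hF hG
    have hq : (1 : ℝ) ≤ Q 0 := by exact_mod_cast hs.one 0
    have hinj : Set.InjOn (fun y : Fin (0 + 1) → ℕ × ℕ => y 0) (S : Set (Fin (0 + 1) → ℕ × ℕ)) := by
      intro x _ y _ hxy
      funext i
      have : i = 0 := Fin.ext (by have := i.isLt; simp only [Fin.val_zero]; omega)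
      rw [this]; exact hxy
    have hval : ∀ (F : ℝ → ℝ) (y : Fin (0 + 1) → ℕ × ℕ), SF F y = F ((y 0).1 : ℝ) + F ((y 0).2 : ℝ) := by
      intro F y
      unfold SF
      exact Fin.sum_univ_one _
    have key := (hfibre d e Q₀ F G F' G' D (Q 0) (hs.ge 0 hu) (hs.one 0) Tm Tn c c' t1 t3 (S.image fun y => y 0) (by
      intro p hp
      rw [mem_image] at hp
      obtain ⟨y, hy, rfl⟩ := hp
      exact Fintype.mem_piFinset.1 (hS hy) 0) (by
      intro p hp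
      rw [mem_image] at hp
      obtain ⟨y, hy, rfl⟩ := hp
      rw [← hval]
      exact hF y hy) (by
      intro p hp
      rw [mem_image] at hp
      obtain ⟨y, hy, rfl⟩ := hp
      rw [← hval]
      exact hG y hy)).2
    rw [card_image_of_injOn hinj] at key
    have hpr : ∏ l ∈ range (0 + 1), (Q l : ℝ) ^ 2 = (Q 0 : ℝ) ^ 2 := prod_range_one _
    rw [hpr]
    calc (S.card : ℝ) * ((Q 0 : ℝ) ^ (d + 1) * (Q 0 : ℝ) ^ (e + 1)) = (S.card * (Q 0 : ℝ) ^ d * (Q 0 : ℝ) ^ e) * (Q 0 : ℝ) ^ 2 := by ring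
      _ ≤ _ := mul_le_mul_of_nonneg_right key (by positivity)
  | succ n ih =>
    intro K hK
    obtain ⟨K₂, hK₂⟩ : ∃ K₂ : ℝ, K₂ = K + 2 * |c₂| + 1 := ⟨_, rfl⟩
    have hK₂1 : 1 ≤ K₂ := by rw [hK₂]; linarith [abs_nonneg c₂]
    obtain ⟨K₃, hK₃⟩ : ∃ K₃ : ℝ, K₃ = K₂ * Λ + 2 * |c₂| + 1 := ⟨_, rfl⟩
    have hK₃1 : 1 ≤ K₃ := by
      rw [hK₃]
      have : 0 ≤ K₂ * Λ := by positivity
      linarith [abs_nonneg c₂]
    obtain ⟨C, hC, hI⟩ := ih K₂ hK₂1
    refine ⟨2 * Cf * K₂ * K₃ * Λ * C, ?_, ?_⟩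
    · have a1 : 1 ≤ Cf * K₂ := by nlinarith
      have a2 : 1 ≤ Cf * K₂ * K₃ := by nlinarith
      have a3 : 1 ≤ Cf * K₂ * K₃ * Λ := by nlinarith
      have a4 : 1 ≤ Cf * K₂ * K₃ * Λ * C := by nlinarith
      linarith
    intro Q₀ F G F' G' D u Q hs hu Tm Tn c c' t1 t2 t3 S hS hF hG
    have hQn : (1 : ℝ) ≤ Q n := by exact_mod_cast hs.one n
    obtain ⟨q, hq⟩ : ∃ q : ℝ, q = (Q (n + 1) : ℝ) := ⟨_, rfl⟩
    have hq1 : 1 ≤ q := by rw [hq]; exact_mod_cast hs.one (n + 1)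
    have hq0 : 0 < q := by linarith
    rw [← hq] at t1 t2 t3
    have hlow := hs.low n
    have hup := hs.up n
    have hup2 := hs.up2 e hde n
    rw [← hq] at hlow hup hup2
    have hTm0 : 0 < Tm := lt_of_lt_of_le (by positivity) t1
    have hTn0 : 0 < Tn := by
      have : 0 < Tn * q ^ d := lt_of_lt_of_le (by positivity) t3
      exact pos_of_mul_pos_left this (by positivity)
    set f : (Fin (n + 1 + 1) → ℕ × ℕ) → (Fin (n + 1) → ℕ × ℕ) := fun y i => y i.castSucc with hf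
    have hmem : ∀ y ∈ S, f y ∈ W.Y Q (n + 1) ∧ y (Fin.last _) ∈ W.box (Q (n + 1)) := by
      intro y hy
      have := Fintype.mem_piFinset.1 (hS hy)
      constructor
      · apply Fintype.mem_piFinset.2
        intro i
        exact this i.castSucc
      · exact this (Fin.last _)
    have hge : Q₀ ≤ Q (n + 1) := hs.ge _ hu
    obtain ⟨Tm', hTm'⟩ : ∃ Tm' : ℝ, Tm' = K₂ * (Q n : ℝ) ^ d := ⟨_, rfl⟩
    obtain ⟨Tn', hTn'⟩ : ∃ Tn' : ℝ, Tn' = K₃ * (Tn + q ^ (e + 1)) := ⟨_, rfl⟩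
    have himg := hI Q₀ F G F' G' D u Q hs (by omega) Tm' Tn' c c'
      (by rw [hTm']; exact le_mul_of_one_le_left (by positivity) hK₂1)
      (by
        rw [hTm', pow_succ]
        apply mul_le_mul_of_nonneg_left _ (by linarith)
        exact le_mul_of_one_le_right (by positivity) hQn)
      (by
        rw [hTm', hTn']
        have a1 : K₂ * (Q n : ℝ) ^ e ≤ K₃ * (Tn + q ^ (e + 1)) := by
          calc K₂ * (Q n : ℝ) ^ e ≤ K₂ * (Λ * q ^ (e + 1)) := mul_le_mul_of_nonneg_left hup2 (by linarith)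
            _ = (K₂ * Λ) * q ^ (e + 1) := by ring
            _ ≤ K₃ * q ^ (e + 1) := by
              apply mul_le_mul_of_nonneg_right _ (by positivity)
              rw [hK₃]; linarith [abs_nonneg c₂]
            _ ≤ _ := by
              apply mul_le_mul_of_nonneg_left _ (by linarith)
              linarith
        have a2 := mul_le_mul_of_nonneg_right a1 (show 0 ≤ (Q n : ℝ) ^ d by positivity)
        refine le_trans (le_of_eq ?_) a2
        ring)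
      (S.image f)
      (by
        intro z hz
        rw [mem_image] at hz
        obtain ⟨y, hy, rfl⟩ := hz
        exact (hmem y hy).1)
      (by
        intro z hz
        rw [mem_image] at hz
        obtain ⟨y, hy, rfl⟩ := hz
        have e1 := hF y hy
        rw [SF_succ] at e1
        have e2 := (pair_bound D (Q (n + 1)) hge _ (hmem y hy).2).1
        rw [← hq] at e2
        have e3 : SF F (f y) - c = (SF F (fun i : Fin (n + 1) => y i.castSucc) +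
          (F ((y (Fin.last (n + 1))).1 : ℝ) + F ((y (Fin.last (n + 1))).2 : ℝ)) - c) -
          (F ((y (Fin.last (n + 1))).1 : ℝ) + F ((y (Fin.last (n + 1))).2 : ℝ)) := by rw [hf]; ring
        rw [e3]
        refine (abs_sub _ _).trans ((add_le_add e1 e2).trans ?_)
        rw [hTm', hK₂]
        have e4 : (K + 2 * |c₂|) * q ^ (d + 1) ≤ (K + 2 * |c₂| + 1) * (Q n : ℝ) ^ d := by
          apply mul_le_mul _ hlow (by positivity) (by positivity)
          linarith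
        linarith)
      (by
        intro z hz
        rw [mem_image] at hz
        obtain ⟨y, hy, rfl⟩ := hz
        have e1 := hG y hy
        rw [SF_succ] at e1
        have e2 := (pair_bound D (Q (n + 1)) hge _ (hmem y hy).2).2
        rw [← hq] at e2
        have e3 : SF G (f y) - c' = (SF G (fun i : Fin (n + 1) => y i.castSucc) +
          (G ((y (Fin.last (n + 1))).1 : ℝ) + G ((y (Fin.last (n + 1))).2 : ℝ)) - c') -
          (G ((y (Fin.last (n + 1))).1 : ℝ) + G ((y (Fin.last (n + 1))).2 : ℝ)) := by rw [hf]; ring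
        rw [e3]
        refine (abs_sub _ _).trans ((add_le_add e1 e2).trans ?_)
        rw [hTn', hK₃]
        have e4 : 0 ≤ K₂ * Λ := by positivity
        have e5 : 0 ≤ |c₂| := abs_nonneg _
        have e6 : 0 < q ^ (e + 1) := by positivity
        nlinarith [mul_nonneg e4 hTn0.le, mul_nonneg e5 hTn0.le, mul_nonneg e4 e6.le])
    -- the fibres
    have hfb : ∀ z ∈ S.image f, ((S.filter (fun y => f y = z)).card : ℝ) * q ^ d ≤ Cf * Tm * q ∧
        ((S.filter (fun y => f y = z)).card : ℝ) * q ^ d * q ^ e ≤ Cf * Tm * Tn := by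
      intro z hz
      have hinj : Set.InjOn (fun y : Fin (n + 1 + 1) → ℕ × ℕ => y (Fin.last _))
          ((S.filter (fun y => f y = z) : Finset _) : Set (Fin (n + 1 + 1) → ℕ × ℕ)) := by
        intro x hx y hy hxy
        have hx' := (mem_filter.1 (mem_coe.1 hx)).2
        have hy' := (mem_filter.1 (mem_coe.1 hy)).2
        funext i
        refine Fin.lastCases ?_ ?_ i
        · exact hxy
        · intro j
          have : f x j = f y j := by rw [hx', hy']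
          exact this
      rw [← card_image_of_injOn hinj, hq]
      apply hfibre d e Q₀ F G F' G' D (Q (n + 1)) hge (hs.one _) Tm Tn (c - SF F z) (c' - SF G z)
        (by rw [← hq]; exact t1) (by rw [← hq]; exact t3)
      · intro p hp
        rw [mem_image] at hp
        obtain ⟨y, hy, rfl⟩ := hp
        exact (hmem y (mem_filter.1 hy).1).2
      · intro p hp
        rw [mem_image] at hp
        obtain ⟨y, hy, rfl⟩ := hp
        have e1 := hF y (mem_filter.1 hy).1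
        have e2 : SF F (fun i : Fin (n + 1) => y i.castSucc) = SF F z := by
          have := (mem_filter.1 hy).2
          rw [← this]
        rw [SF_succ, e2] at e1
        have e3 : F ((y (Fin.last (n + 1))).1 : ℝ) + F ((y (Fin.last (n + 1))).2 : ℝ) - (c - SF F z) =
          SF F z + (F ((y (Fin.last (n + 1))).1 : ℝ) + F ((y (Fin.last (n + 1))).2 : ℝ)) - c := by ring
        rw [e3]; exact e1
      · intro p hp
        rw [mem_image] at hp
        obtain ⟨y, hy, rfl⟩ := hp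
        have e1 := hG y (mem_filter.1 hy).1
        have e2 : SF G (fun i : Fin (n + 1) => y i.castSucc) = SF G z := by
          have := (mem_filter.1 hy).2
          rw [← this]
        rw [SF_succ, e2] at e1
        have e3 : G ((y (Fin.last (n + 1))).1 : ℝ) + G ((y (Fin.last (n + 1))).2 : ℝ) - (c' - SF G z) =
          SF G z + (G ((y (Fin.last (n + 1))).1 : ℝ) + G ((y (Fin.last (n + 1))).2 : ℝ)) - c' := by ring
        rw [e3]; exact e1
    have hTm'up : Tm' ≤ K₂ * Λ * q ^ (d + 1) := by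
      rw [hTm']
      calc K₂ * (Q n : ℝ) ^ d ≤ K₂ * (Λ * q ^ (d + 1)) := mul_le_mul_of_nonneg_left hup (by linarith)
        _ = _ := by ring
    have hTm'0 : 0 < Tm' := by rw [hTm']; positivity
    have hTn'0 : 0 < Tn' := by rw [hTn']; positivity
    have hqd : 0 < q ^ d := by positivity
    have hqe : 0 < q ^ e := by positivity
    -- the bound `M * Tm' * Tn' ≤ C Tm Tn q ^ 2`
    obtain ⟨Mf, hMf0, hMf1, hMf2⟩ : ∃ Mf : ℝ, 0 ≤ Mf ∧ (∀ z ∈ S.image f, ((S.filter (fun y => f y = z)).card : ℝ) ≤ Mf) ∧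
        Mf * Tm' * Tn' ≤ 2 * Cf * K₂ * K₃ * Λ * Tm * Tn * q ^ 2 := by
      rcases le_total (q ^ (e + 1)) Tn with hc | hc
      · refine ⟨Cf * Tm * q / q ^ d, by positivity, ?_, ?_⟩
        · intro z hz
          rw [le_div_iff₀ hqd]
          exact (hfb z hz).1
        · have b1 : Tn' ≤ 2 * K₃ * Tn := by
            rw [hTn']; nlinarith
          calc Cf * Tm * q / q ^ d * Tm' * Tn' ≤ Cf * Tm * q / q ^ d * (K₂ * Λ * q ^ (d + 1)) * (2 * K₃ * Tn) := by gcongr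
            _ = _ := by rw [pow_succ]; field_simp
      · refine ⟨Cf * Tm * Tn / (q ^ d * q ^ e), by positivity, ?_, ?_⟩
        · intro z hz
          rw [le_div_iff₀ (by positivity), ← mul_assoc]
          exact (hfb z hz).2
        · have b1 : Tn' ≤ 2 * K₃ * q ^ (e + 1) := by
            rw [hTn']; nlinarith
          calc Cf * Tm * Tn / (q ^ d * q ^ e) * Tm' * Tn' ≤
                Cf * Tm * Tn / (q ^ d * q ^ e) * (K₂ * Λ * q ^ (d + 1)) * (2 * K₃ * q ^ (e + 1)) := by gcongr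
            _ = _ := by rw [pow_succ, pow_succ]; field_simp
    have hcard := card_fib S f Mf hMf1
    rw [prod_range_succ, ← hq]
    have hW0 : 0 ≤ ∏ l ∈ range (n + 1), (Q l : ℝ) ^ 2 := by positivity
    calc (S.card : ℝ) * ((Q 0 : ℝ) ^ (d + 1) * (Q 0 : ℝ) ^ (e + 1))
        ≤ (Mf * (S.image f).card) * ((Q 0 : ℝ) ^ (d + 1) * (Q 0 : ℝ) ^ (e + 1)) :=
          mul_le_mul_of_nonneg_right hcard (by positivity)
      _ = Mf * ((S.image f).card * ((Q 0 : ℝ) ^ (d + 1) * (Q 0 : ℝ) ^ (e + 1))) := by ring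
      _ ≤ Mf * (C * Tm' * Tn' * ∏ l ∈ range (n + 1), (Q l : ℝ) ^ 2) := mul_le_mul_of_nonneg_left himg hMf0
      _ = (C * ∏ l ∈ range (n + 1), (Q l : ℝ) ^ 2) * (Mf * Tm' * Tn') := by ring
      _ ≤ (C * ∏ l ∈ range (n + 1), (Q l : ℝ) ^ 2) * (2 * Cf * K₂ * K₃ * Λ * Tm * Tn * q ^ 2) :=
          mul_le_mul_of_nonneg_left hMf2 (mul_nonneg (by linarith) hW0)
      _ = _ := by ring

end Pool.Agent.Zk40.V
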