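import Pool.Agent.Zk40.V.Win

/-!
Waring's problem for almost all polynomials: one scale.
-/

namespace Pool.Agent.Zk40.V

open Finset Filter Topology MeasureTheory
open Pool.Agent.Zk40.W (ES ES_triv ES_neg comb Qs Qs_one Qs_le ev_pow ev_log Y_pos window circle)

/-- one scale -/
theorem one_scale (d : ℕ) (hd : 1 ≤ d) (a : ℕ → ℝ) (ha : 0 < a (d + 1))
    (hw : ∃ C σ : ℝ, 0 < C ∧ 0 < σ ∧ σ ≤ 1 ∧ ∀ᶠ x : ℕ in atTop, ∀ β : ℝ, 0 < β → β ≤ 1 / 2 →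
      ‖ES (Ioc x (2 * x)) (wp d a) β‖ ≤ C * ((x : ℝ) ^ (1 - ((d : ℝ) + 1)) / β + (x : ℝ) ^ (1 - σ)))
    (u X : ℕ)
    (hE : ∀ τ : ℝ, 0 < τ → ∀ᶠ j : ℕ in atTop, EnV d a (2 * u) (2 ^ j) u ≤
      ((W.Y (Qs (kap d) (2 ^ j)) u).card : ℝ) ^ 2 * ((2 ^ j : ℕ) : ℝ) ^ (-((d : ℝ) + 1) + τ)) :
    ∃ C₁ : ℕ, 1 ≤ C₁ ∧ ∀ᶠ j : ℕ in atTop, ∀ N : ℕ, pv (d + 1) a ((2 * (C₁ * 2 ^ j) : ℕ) : ℝ) ≤ N →
      (N : ℝ) < pv (d + 1) a ((4 * (C₁ * 2 ^ j) : ℕ) : ℝ) →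
      ∃ (x y : Fin u → ℕ × ℕ) (z₁ z₂ : ℕ), (∀ i, (X ≤ (x i).1 ∧ X ≤ (x i).2) ∧ (X ≤ (y i).1 ∧ X ≤ (y i).2)) ∧
        X ≤ z₁ ∧ X ≤ z₂ ∧ Vp d a x + Vp d a y + (wp d a z₁ + wp d a z₂) = N := by
  classical
  obtain ⟨θ, hθd⟩ : ∃ θ : ℝ, θ = (d : ℝ) + 1 := ⟨_, rfl⟩
  rw [← hθd] at hw hE
  have hdr : (1 : ℝ) ≤ d := by exact_mod_cast hd
  have h1 : 1 < θ := by rw [hθd]; linarith
  have hθ0 : 0 < θ := by linarith
  have hκ := kap_pos d hd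
  have hκ1 := kap_le d
  obtain ⟨c₁, c₂, hc₁, hc₂, z₀, hz₀, hbig⟩ := big d hd a ha
  obtain ⟨C₂, hC₂⟩ : ∃ C₂ : ℝ, C₂ = (4 * u + 1) * (c₂ * 4 ^ (d + 1)) := ⟨_, rfl⟩
  have hC₂0 : 0 < C₂ := by rw [hC₂]; positivity
  obtain ⟨C₁, hC₁d⟩ : ∃ C₁ : ℕ, C₁ = ⌈(C₂ + 1) / c₁⌉₊ + 1 := ⟨_, rfl⟩
  have hC₁ : 1 ≤ C₁ := by omega
  have hC₁r : (1 : ℝ) ≤ C₁ := by exact_mod_cast hC₁
  have hC₁C₂ : C₂ + 1 ≤ c₁ * C₁ := by
    have h2 := Nat.le_ceil ((C₂ + 1) / c₁)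
    have h3 : (C₂ + 1) / c₁ ≤ C₁ := by
      rw [hC₁d]; push_cast; linarith
    rw [div_le_iff₀ hc₁] at h3
    linarith
  obtain ⟨C, σ, hC, hσ, hσ1, hexp⟩ := exp_both θ h1 (wp d a) hw C₁ hC₁
  have hEn := hE σ hσ
  obtain ⟨D₀, hD₀⟩ : ∃ D₀ : ℝ, D₀ = (c₂ + 1) * (6 * (C₁ : ℝ)) ^ d := ⟨_, rfl⟩
  have hD₀1 : 1 ≤ D₀ := by
    have : 1 ≤ (6 * (C₁ : ℝ)) ^ d := one_le_pow₀ (by linarith)
    rw [hD₀]
    nlinarith
  have hD₀0 : 0 < D₀ := by linarith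
  obtain ⟨c₀, hc₀⟩ : ∃ c₀ : ℝ, c₀ = 1 / (2 * D₀) := ⟨_, rfl⟩
  have hc₀0 : 0 < c₀ := by rw [hc₀]; positivity
  refine ⟨C₁, hC₁, ?_⟩
  have t2 : Tendsto (fun j : ℕ => 2 ^ j) atTop atTop := tendsto_pow_atTop_atTop_of_one_lt (r := 2) (by norm_num)
  filter_upwards [t2.eventually hexp, hEn, ev_pow (4 * D₀) (1 / 2) (by norm_num), ev_log (1 / 4) (by norm_num),
    ev_pow (112 * C ^ 2 * θ / c₀) (1 / 4) (by norm_num), ev_pow (16 * C ^ 2 / c₀) σ hσ,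
    t2.eventually (sc d hd (X + z₀) u), t2.eventually_ge_atTop (X + z₀ + ⌈1 / c₁⌉₊)] with j k1 k2 k3 k4 k5 k6 k7 k8 N hN1 hN2
  obtain ⟨P, hPd⟩ : ∃ P : ℕ, P = 2 ^ j := ⟨_, rfl⟩
  rw [← hPd] at k1 k2 k3 k4 k5 k6 k7 k8 hN1 hN2
  have hP : 1 ≤ P := by rw [hPd]; exact Nat.one_le_two_pow
  have hPr : (1 : ℝ) ≤ P := by exact_mod_cast hP
  have hP0 : (0 : ℝ) < P := by linarith
  obtain ⟨M, hM⟩ : ∃ M : ℕ, M = C₁ * P := ⟨_, rfl⟩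
  rw [← hM] at hN1 hN2 k1
  have hMr : (M : ℝ) = C₁ * P := by rw [hM]; push_cast; ring
  have hPM : P ≤ M := by rw [hM]; exact Nat.le_mul_of_pos_left P hC₁
  have hM1 : 1 ≤ M := hP.trans hPM
  have hM1r : (1 : ℝ) ≤ M := by exact_mod_cast hM1
  have hz₀M : z₀ ≤ M := by omega
  have hz₀Mr : (z₀ : ℝ) ≤ M := by exact_mod_cast hz₀M
  obtain ⟨Wd, hW⟩ : ∃ Wd : ℕ, Wd = ⌊(P : ℝ) ^ (θ - 1 / 2)⌋₊ := ⟨_, rfl⟩
  have hPw1 : 1 ≤ (P : ℝ) ^ (θ - 1 / 2) := Real.one_le_rpow hPr (by linarith)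
  have hW1 : 1 ≤ Wd := by rw [hW]; exact Nat.le_floor (by exact_mod_cast hPw1)
  have hWr : (1 : ℝ) ≤ Wd := by exact_mod_cast hW1
  have hWup : (Wd : ℝ) ≤ (P : ℝ) ^ (θ - 1 / 2) := by rw [hW]; exact Nat.floor_le (by positivity)
  have hWlow : (P : ℝ) ^ (θ - 1 / 2) ≤ 2 * Wd := by
    have : (P : ℝ) ^ (θ - 1 / 2) < Wd + 1 := by rw [hW]; exact Nat.lt_floor_add_one _
    linarith
  have hmono : ∀ s t : ℝ, s ≤ t → (P : ℝ) ^ s ≤ (P : ℝ) ^ t := fun s t h => Real.rpow_le_rpow_of_exponent_le hPr h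
  have hPn : (P : ℝ) ^ (d + 1) = (P : ℝ) ^ θ := by
    rw [hθd, ← Real.rpow_natCast]; push_cast; rfl
  have hPn' : (P : ℝ) ^ d = (P : ℝ) ^ (θ - 1) := by
    rw [hθd, ← Real.rpow_natCast]; congr 1; ring
  obtain ⟨D, hD⟩ : ∃ D : ℝ, D = (c₂ + 1) * (6 * (M : ℝ)) ^ d := ⟨_, rfl⟩
  have hDD : D = D₀ * (P : ℝ) ^ (θ - 1) := by
    rw [hD, hD₀, hMr, ← hPn', ← mul_assoc, mul_pow _ (P : ℝ)]
    ring
  have hDW : 2 * D ≤ Wd := by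
    have e1 : (P : ℝ) ^ (θ - 1 / 2) = (P : ℝ) ^ ((1 : ℝ) / 2) * (P : ℝ) ^ (θ - 1) := by
      rw [← Real.rpow_add hP0]; congr 1; ring
    have e2 : 4 * D₀ * (P : ℝ) ^ (θ - 1) ≤ (P : ℝ) ^ ((1 : ℝ) / 2) * (P : ℝ) ^ (θ - 1) :=
      mul_le_mul_of_nonneg_right k3 (by positivity)
    rw [hDD]
    linarith
  have hPθ : (P : ℝ) ^ θ = P * (P : ℝ) ^ (θ - 1) := by
    rw [← Real.rpow_one_add' hP0.le (by linarith)]; congr 1; ring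
  have hWP : (Wd : ℝ) ≤ (P : ℝ) ^ θ := hWup.trans (hmono _ _ (by linarith))
  have hWMD : (Wd : ℝ) ≤ M * D := by
    rw [hMr, hDD]
    calc (Wd : ℝ) ≤ P * (P : ℝ) ^ (θ - 1) := by rw [← hPθ]; exact hWP
      _ ≤ (C₁ * D₀) * (P * (P : ℝ) ^ (θ - 1)) := by
        apply le_mul_of_one_le_left (by positivity)
        nlinarith
      _ = _ := by ring
  have hD0 : 0 < D := by rw [hDD]; positivity
  -- the sizes
  have hup : ∀ z : ℕ, z₀ ≤ z → z ≤ 4 * P → (wp d a z : ℝ) ≤ c₂ * 4 ^ (d + 1) * (P : ℝ) ^ θ := by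
    intro z hz1 hz2
    have hz1' : (z₀ : ℝ) ≤ z := by exact_mod_cast hz1
    have hz2' : (z : ℝ) ≤ 4 * P := by exact_mod_cast hz2
    have hb := (hbig z hz1').1
    have hz0 : 0 ≤ pv (d + 1) a z := le_trans (by positivity) hb.1
    refine ((wp_near d a z hz0).1.trans hb.2).trans ?_
    rw [← hPn, mul_assoc, ← mul_pow]
    apply mul_le_mul_of_nonneg_left _ hc₂.le
    exact pow_le_pow_left₀ (Nat.cast_nonneg _) hz2' _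
  have hYmem : ∀ x ∈ W.Y (Qs (kap d) P) u, ∀ i, (X + z₀ ≤ (x i).1 ∧ (x i).1 ≤ 4 * P) ∧ (X + z₀ ≤ (x i).2 ∧ (x i).2 ≤ 4 * P) := by
    intro x hx i
    have h2 := Fintype.mem_piFinset.1 hx i
    simp only [W.box, mem_product, mem_Icc] at h2
    have h3 := Qs_le hκ.le hκ1 hP (i : ℕ)
    have h4 := k7.ge i i.2
    omega
  have hnn : ∀ z : ℕ, z₀ ≤ z → 0 ≤ pv (d + 1) a z := by
    intro z hz
    have hz' : (z₀ : ℝ) ≤ z := by exact_mod_cast hz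
    exact le_trans (by positivity) (hbig z hz').1.1
  have hVup : ∀ x ∈ W.Y (Qs (kap d) P) u, (Vp d a x : ℝ) ≤ 2 * u * (c₂ * 4 ^ (d + 1) * (P : ℝ) ^ θ) := by
    intro x hx
    unfold Vp
    push_cast
    calc ∑ i, ((wp d a (x i).1 : ℝ) + wp d a (x i).2) ≤ ∑ _i : Fin u, 2 * (c₂ * 4 ^ (d + 1) * (P : ℝ) ^ θ) := by
          apply sum_le_sum
          intro i _
          obtain ⟨⟨a1, a2⟩, a3, a4⟩ := hYmem x hx i
          have e1 := hup (x i).1 (by omega) a2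
          have e2 := hup (x i).2 (by omega) a4
          linarith
      _ = _ := by rw [sum_const, card_univ, Fintype.card_fin, nsmul_eq_mul]; ring
  have hsmall : ∀ x ∈ W.Y (Qs (kap d) P) u, ∀ y ∈ W.Y (Qs (kap d) P) u, ∀ z₂ ∈ Ioc P (2 * P),
      (Vp d a x : ℝ) + Vp d a y + wp d a z₂ ≤ C₂ * (P : ℝ) ^ θ := by
    intro x hx y hy z hz
    have e1 := hVup x hx
    have e2 := hVup y hy
    have e3 := hup z (by rw [mem_Ioc] at hz; omega) (by rw [mem_Ioc] at hz; omega)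
    calc (Vp d a x : ℝ) + Vp d a y + wp d a z ≤ 2 * u * (c₂ * 4 ^ (d + 1) * (P : ℝ) ^ θ) +
          2 * u * (c₂ * 4 ^ (d + 1) * (P : ℝ) ^ θ) + c₂ * 4 ^ (d + 1) * (P : ℝ) ^ θ := by linarith
      _ = _ := by rw [hC₂]; ring
  -- the increments
  have hder : ∀ x y : ℝ, (M : ℝ) ≤ x → x < y → y ≤ 6 * M → pv (d + 1) a y - pv (d + 1) a x ≤ (y - x) * D ∧
      (y - x) * (c₁ * (M : ℝ) ^ d) ≤ pv (d + 1) a y - pv (d + 1) a x := by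
    intro x y hx hxy hy
    obtain ⟨ξ, a1, a2, a3⟩ := pv_mvt d a x y hxy
    have hb := (hbig ξ (by linarith)).2.1
    have hxy' : 0 ≤ y - x := by linarith
    rw [a3]
    constructor
    · apply mul_le_mul_of_nonneg_left _ hxy'
      refine hb.2.trans ?_
      rw [hD]
      have hξ0 : 0 ≤ ξ := by linarith
      apply mul_le_mul (by linarith) _ (by positivity) (by positivity)
      exact pow_le_pow_left₀ hξ0 (by linarith) _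
    · apply mul_le_mul_of_nonneg_left _ hxy'
      refine le_trans ?_ hb.1
      apply mul_le_mul_of_nonneg_left _ hc₁.le
      exact pow_le_pow_left₀ (by linarith) (by linarith) _
  have hMd : 1 ≤ c₁ * (M : ℝ) ^ d := by
    have e1 : (M : ℝ) ≤ (M : ℝ) ^ d := le_self_pow₀ hM1r (by omega)
    have e2 : 1 / c₁ ≤ M := by
      have e3 := Nat.le_ceil (1 / c₁)
      have e4 : (⌈1 / c₁⌉₊ : ℝ) ≤ M := by
        have : ⌈1 / c₁⌉₊ ≤ M := by omega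
        exact_mod_cast this
      linarith
    rw [div_le_iff₀ hc₁] at e2
    nlinarith
  have h2M : C₂ * (P : ℝ) ^ θ + Wd ≤ pv (d + 1) a ((2 * M : ℕ) : ℝ) - pv (d + 1) a M := by
    have e1 := (hder M ((2 * M : ℕ) : ℝ) le_rfl (by push_cast; linarith) (by push_cast; linarith)).2
    refine le_trans ?_ e1
    have e2 : (((2 * M : ℕ) : ℝ) - M) * (c₁ * (M : ℝ) ^ d) = c₁ * (M : ℝ) ^ (d + 1) := by push_cast; ring
    rw [e2, hMr, mul_pow, hPn]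
    have e3 : (C₁ : ℝ) ≤ (C₁ : ℝ) ^ (d + 1) := le_self_pow₀ hC₁r (by omega)
    have e4 : C₂ + 1 ≤ c₁ * (C₁ : ℝ) ^ (d + 1) := hC₁C₂.trans (mul_le_mul_of_nonneg_left e3 hc₁.le)
    have e5 := mul_le_mul_of_nonneg_right e4 (show 0 ≤ (P : ℝ) ^ θ by positivity)
    linarith
  have hmany : ∀ x ∈ W.Y (Qs (kap d) P) u, ∀ y ∈ W.Y (Qs (kap d) P) u, ∀ z₂ ∈ Ioc P (2 * P), (Wd : ℝ) / (2 * D) ≤
      ((((Ioc M (4 * M)).filter (fun z => ((N : ℤ) - Vp d a x - Vp d a y - wp d a z₂) - Wd < (wp d a z : ℤ) ∧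
      (wp d a z : ℤ) ≤ (N : ℤ) - Vp d a x - Vp d a y - wp d a z₂)).card : ℕ) : ℝ) := by
    intro x hx y hy z₂ hz₂
    have e1 := hsmall x hx y hy z₂ hz₂
    apply many_z (fun z => pv (d + 1) a z) (wp d a) (fun z => rfl) M Wd hM1 hW1 _ D hD0
      (fun z hz => hnn z (by omega)) _ _ _ _ hDW hWMD
    · intro z hz
      have hz' : (M : ℝ) ≤ z := by exact_mod_cast hz
      obtain ⟨ξ, a1, a2, a3⟩ := pv_mvt d a (z : ℝ) ((z + 1 : ℕ) : ℝ) (by push_cast; linarith)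
      have hb := (hbig ξ (by linarith)).2.1.1
      have e2 : c₁ * (M : ℝ) ^ d ≤ c₁ * ξ ^ d := by
        apply mul_le_mul_of_nonneg_left _ hc₁.le
        exact pow_le_pow_left₀ (by linarith) (by linarith) _
      have e3 : (((z + 1 : ℕ) : ℝ) - z) = 1 := by push_cast; ring
      rw [e3, one_mul] at a3
      show pv (d + 1) a (z : ℝ) + 1 ≤ pv (d + 1) a ((z + 1 : ℕ) : ℝ)
      linarith
    · intro z hz1 hz2
      have hz1' : (M : ℝ) ≤ z := by exact_mod_cast hz1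
      have hz2' : ((z + 1 : ℕ) : ℝ) ≤ 6 * M := by
        have : z + 1 ≤ 6 * M := by omega
        exact_mod_cast this
      have e2 := (hder z ((z + 1 : ℕ) : ℝ) hz1' (by push_cast; linarith) hz2').1
      have e3 : (((z + 1 : ℕ) : ℝ) - z) = 1 := by push_cast; ring
      rw [e3, one_mul] at e2
      exact e2
    · push_cast
      linarith
    · push_cast at hN2 ⊢
      have a1 : (0 : ℝ) ≤ Vp d a x := Nat.cast_nonneg _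
      have a2 : (0 : ℝ) ≤ Vp d a y := Nat.cast_nonneg _
      have a3 : (0 : ℝ) ≤ wp d a z₂ := Nat.cast_nonneg _
      linarith
  have hwin := window (W.Y (Qs (kap d) P) u) (Vp d a) (Ioc M (4 * M)) (Ioc P (2 * P)) (wp d a) Wd N _ hmany
  obtain ⟨Yc, hYc⟩ : ∃ Yc : ℝ, Yc = ((W.Y (Qs (kap d) P) u).card : ℝ) := ⟨_, rfl⟩
  have hYc0 : 0 < Yc := by rw [hYc]; exact Y_pos (kap d) P u
  have hen : ((((W.Y (Qs (kap d) P) u) ×ˢ (W.Y (Qs (kap d) P) u)).filter (fun p => Vp d a p.1 = Vp d a p.2)).card : ℝ) ≤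
      Yc ^ 2 * (P : ℝ) ^ (-θ + σ) := by
    rw [hYc]
    refine le_trans ?_ k2
    unfold EnV
    have : ((W.Y (Qs (kap d) P) u) ×ˢ (W.Y (Qs (kap d) P) u)).filter (fun p => Vp d a p.1 = Vp d a p.2) ⊆
        ((W.Y (Qs (kap d) P) u) ×ˢ (W.Y (Qs (kap d) P) u)).filter
          (fun p => |SF (pv (d + 1) a) p.1 - SF (pv (d + 1) a) p.2| ≤ 2 * u) := by
      intro p hp
      rw [mem_filter, mem_product] at hp
      rw [mem_filter, mem_product]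
      refine ⟨hp.1, ?_⟩
      have g1 := Vp_near d a p.1 (fun i => ⟨hnn _ (by have := hYmem p.1 hp.1.1 i; omega), hnn _ (by have := hYmem p.1 hp.1.1 i; omega)⟩)
      have g2 := Vp_near d a p.2 (fun i => ⟨hnn _ (by have := hYmem p.2 hp.1.2 i; omega), hnn _ (by have := hYmem p.2 hp.1.2 i; omega)⟩)
      rw [hp.2] at g1
      rw [abs_le]
      constructor <;> linarith [g1.1, g1.2, g2.1, g2.2]
    exact_mod_cast card_le_card this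
  have hPθ1 : 1 ≤ (P : ℝ) ^ θ := Real.one_le_rpow hPr hθ0.le
  have hcir := circle (W.Y (Qs (kap d) P) u) (Vp d a) (Ioc M (4 * M)) (Ioc P (2 * P)) (wp d a) ((P : ℝ) ^ θ) (C * P)
    (C * (P : ℝ) ^ (1 - σ)) hPθ1 (by positivity) (by positivity) (fun β hβ => (k1 β hβ).1) (fun β hβ => (k1 β hβ).2) _ hen
    Wd hW1 N
  rw [← hYc] at hwin hcir
  set R : ℝ := (((((W.Y (Qs (kap d) P) u ×ˢ W.Y (Qs (kap d) P) u) ×ˢ ((Ioc M (4 * M)) ×ˢ (Ioc P (2 * P)))).filter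
    (fun p => (Vp d a p.1.1 + Vp d a p.1.2) + (wp d a p.2.1 + wp d a p.2.2) = N)).card : ℕ) : ℝ) with hR
  have hZ₂ : ((Ioc P (2 * P)).card : ℝ) = P := by
    rw [Nat.card_Ioc, show 2 * P - P = P by omega]
  rw [hZ₂] at hwin
  have hW0 : (0 : ℝ) < Wd := by linarith
  -- main term
  have hP2 : (P : ℝ) ^ (2 - θ) = P / (P : ℝ) ^ (θ - 1) := by
    rw [eq_div_iff (by positivity), ← Real.rpow_add hP0]
    rw [show 2 - θ + (θ - 1) = 1 by ring, Real.rpow_one]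
  have hmain : c₀ * Yc ^ 2 * (P : ℝ) ^ (2 - θ) ≤ (1 / (Wd : ℝ)) * ∑ j ∈ range Wd,
      (((((W.Y (Qs (kap d) P) u ×ˢ W.Y (Qs (kap d) P) u) ×ˢ ((Ioc M (4 * M)) ×ˢ (Ioc P (2 * P)))).filter
      (fun p => (((Vp d a p.1.1 + Vp d a p.1.2) + (wp d a p.2.1 + wp d a p.2.2) : ℕ) : ℤ) = (N : ℤ) - j)).card : ℕ) : ℝ) := by
    have e1 : c₀ * Yc ^ 2 * (P : ℝ) ^ (2 - θ) = (1 / (Wd : ℝ)) * (Yc ^ 2 * P * ((Wd : ℝ) / (2 * D))) := by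
      rw [hc₀, hDD, hP2]
      field_simp
    rw [e1]
    exact mul_le_mul_of_nonneg_left hwin (by positivity)
  -- first error
  have herr1 : 28 * Yc ^ 2 * (C * P) ^ 2 * Wd * Real.log (1 + (P : ℝ) ^ θ / 2) / ((P : ℝ) ^ θ) ^ 2 ≤
      c₀ / 4 * Yc ^ 2 * (P : ℝ) ^ (2 - θ) := by
    have hlog : Real.log (1 + (P : ℝ) ^ θ / 2) ≤ θ * (P : ℝ) ^ ((1 : ℝ) / 4) := by
      have e1 : 1 + (P : ℝ) ^ θ / 2 ≤ (4 * (P : ℝ)) ^ θ := by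
        rw [Real.mul_rpow (by norm_num) hP0.le]
        have e2 : (4 : ℝ) ≤ 4 ^ θ := by
          calc (4 : ℝ) = 4 ^ (1 : ℝ) := (Real.rpow_one _).symm
            _ ≤ _ := Real.rpow_le_rpow_of_exponent_le (by norm_num) h1.le
        nlinarith
      have e3 := Real.log_le_log (by positivity) e1
      rw [Real.log_rpow (by positivity)] at e3
      refine e3.trans (mul_le_mul_of_nonneg_left ?_ hθ0.le)
      linarith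
    have hlog0 : 0 ≤ Real.log (1 + (P : ℝ) ^ θ / 2) := Real.log_nonneg (by linarith [show 0 < (P : ℝ) ^ θ by positivity])
    have e5 : 112 * C ^ 2 * θ ≤ c₀ * (P : ℝ) ^ ((1 : ℝ) / 4) := by
      rw [div_le_iff₀ hc₀0] at k5
      linarith
    have hPθ2 : ((P : ℝ) ^ θ) ^ 2 = (P : ℝ) ^ (2 * θ) := by
      rw [← Real.rpow_natCast, ← Real.rpow_mul hP0.le]; congr 1; push_cast; ring
    have hPsq : (P : ℝ) ^ 2 = (P : ℝ) ^ (2 : ℝ) := by norm_num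
    rw [div_le_iff₀ (by positivity)]
    calc 28 * Yc ^ 2 * (C * P) ^ 2 * Wd * Real.log (1 + (P : ℝ) ^ θ / 2)
        ≤ 28 * Yc ^ 2 * (C * P) ^ 2 * (P : ℝ) ^ (θ - 1 / 2) * (θ * (P : ℝ) ^ ((1 : ℝ) / 4)) := by gcongr
      _ = Yc ^ 2 * (112 * C ^ 2 * θ) / 4 * (P : ℝ) ^ 2 * (P : ℝ) ^ (θ - 1 / 2) * (P : ℝ) ^ ((1 : ℝ) / 4) := by ring
      _ ≤ Yc ^ 2 * (c₀ * (P : ℝ) ^ ((1 : ℝ) / 4)) / 4 * (P : ℝ) ^ 2 * (P : ℝ) ^ (θ - 1 / 2) * (P : ℝ) ^ ((1 : ℝ) / 4) := by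
        gcongr
      _ = c₀ / 4 * Yc ^ 2 * (P : ℝ) ^ (2 - θ) * ((P : ℝ) ^ θ) ^ 2 := by
        rw [hPθ2, hPsq]
        have e6 : (P : ℝ) ^ ((1 : ℝ) / 4) * (P : ℝ) ^ (2 : ℝ) * (P : ℝ) ^ (θ - 1 / 2) * (P : ℝ) ^ ((1 : ℝ) / 4) =
            (P : ℝ) ^ (2 - θ) * (P : ℝ) ^ (2 * θ) := by
          rw [← Real.rpow_add hP0, ← Real.rpow_add hP0, ← Real.rpow_add hP0, ← Real.rpow_add hP0]
          congr 1
          ring
        calc _ = c₀ / 4 * Yc ^ 2 * ((P : ℝ) ^ ((1 : ℝ) / 4) * (P : ℝ) ^ (2 : ℝ) * (P : ℝ) ^ (θ - 1 / 2) * (P : ℝ) ^ ((1 : ℝ) / 4)) := by ring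
          _ = _ := by rw [e6]; ring
  -- second error
  have herr2 : 4 * (C * (P : ℝ) ^ (1 - σ)) ^ 2 * (Yc ^ 2 * (P : ℝ) ^ (-θ + σ)) ≤ c₀ / 4 * Yc ^ 2 * (P : ℝ) ^ (2 - θ) := by
    have e5 : 16 * C ^ 2 ≤ c₀ * (P : ℝ) ^ σ := by
      rw [div_le_iff₀ hc₀0] at k6
      linarith
    have e6 : ((P : ℝ) ^ (1 - σ)) ^ 2 * (P : ℝ) ^ (-θ + σ) * (P : ℝ) ^ σ = (P : ℝ) ^ (2 - θ) := by
      rw [← Real.rpow_natCast, ← Real.rpow_mul hP0.le, ← Real.rpow_add hP0, ← Real.rpow_add hP0]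
      congr 1
      push_cast
      ring
    calc 4 * (C * (P : ℝ) ^ (1 - σ)) ^ 2 * (Yc ^ 2 * (P : ℝ) ^ (-θ + σ))
        = (16 * C ^ 2) * (Yc ^ 2 / 4 * (((P : ℝ) ^ (1 - σ)) ^ 2 * (P : ℝ) ^ (-θ + σ))) := by ring
      _ ≤ (c₀ * (P : ℝ) ^ σ) * (Yc ^ 2 / 4 * (((P : ℝ) ^ (1 - σ)) ^ 2 * (P : ℝ) ^ (-θ + σ))) :=
          mul_le_mul_of_nonneg_right e5 (by positivity)
      _ = c₀ / 4 * Yc ^ 2 * (((P : ℝ) ^ (1 - σ)) ^ 2 * (P : ℝ) ^ (-θ + σ) * (P : ℝ) ^ σ) := by ring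
      _ = _ := by rw [e6]
  have hpos : 0 < c₀ / 2 * Yc ^ 2 * (P : ℝ) ^ (2 - θ) := by positivity
  have hRpos : 0 < R := by
    have := hmain.trans hcir
    linarith
  have hne : ((((W.Y (Qs (kap d) P) u ×ˢ W.Y (Qs (kap d) P) u) ×ˢ ((Ioc M (4 * M)) ×ˢ (Ioc P (2 * P)))).filter
    (fun p => (Vp d a p.1.1 + Vp d a p.1.2) + (wp d a p.2.1 + wp d a p.2.2) = N))).Nonempty := by
    rw [← card_pos]
    rw [hR] at hRpos
    exact_mod_cast hRpos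
  obtain ⟨p, hp⟩ := hne
  rw [mem_filter, mem_product, mem_product, mem_product, mem_Ioc, mem_Ioc] at hp
  obtain ⟨⟨⟨p1, p2⟩, ⟨p3, _⟩, p4, _⟩, hp⟩ := hp
  refine ⟨p.1.1, p.1.2, p.2.1, p.2.2, ?_, by omega, by omega, hp⟩
  intro i
  have g1 := hYmem p.1.1 p1 i
  have g2 := hYmem p.1.2 p2 i
  omega

end Pool.Agent.Zk40.V
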